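import Pool.Agent.H91.CE.CDefs

/-!
# Module TAYL: Taylor expansion in the mean of a sum of simple poles

PROOF. `1 / (x - p) = - ∑ l < m, (x - c) ^ l / (p - c) ^ (l + 1) + (x - c) ^ m / ((p - c) ^ m * (x - p))` for `x ≠ p`, `p ≠ c` (induction on `m`, or
`geom_sum`). Summing over `k` (all series converge absolutely: `‖β k‖ / ‖p k - c‖ ^ (l + 1) ≤ ‖β k‖ (1 + R') / ‖p k - c‖ ^ m..` for `l < m`, `‖p k - c‖` bounded; the main series for
almost every `x`: `ae_sum`, H35/EX/SerA) for almost every `x ∈ ball c δ`: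
`‖qs β p x + ∑ l < m, tq β p c l * (x - c) ^ l‖ ≤ δ ^ m * ∑' k, ‖β k‖ / ‖p k - c‖ ^ m * ‖x - p k‖⁻¹`. Integrate over `ball c δ`:
`∫⁻ x in ball c δ, ‖x - p‖⁻¹ ≤ C δ` for all `p` (scaling of `ker_bound`, H35/EX/KerB: substitute `x = c + δ y`, or cut at `ball p δ`: `∫ ≤ ∫_{ball p δ} ‖x - p‖⁻¹ + δ⁻¹ vol (ball c δ)`), and for `‖p - c‖ ≥ 2 δ` it is at
most `π δ ^ 2 / (‖p - c‖ / 2)`. So the quotient by `δ ^ (m + 1)` is at most `C ∑' k, (‖β k‖ / ‖p k - c‖ ^ m) * min 1 (δ / ‖p k - c‖)` (up to the constant), which tends to `0` as `δ → 0`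
(dominated convergence for series: `tendsto_tsum_of_dominated_convergence`, or: given `ε` take a finite set of indices outside which the sum of `‖β k‖ / ‖p k - c‖ ^ m` is small).
-/

set_option autoImplicit false

open MeasureTheory Metric Set Polynomial Filter Topology

namespace Pool.Agent.H91.CE

open Pool.Agent.H61.TT Pool.Agent.H35.EX

/-- the Taylor coefficients (up to sign) at `c` of the sum of simple poles -/
noncomputable def tq (β p : ℕ → ℂ) (c : ℂ) (l : ℕ) : ℂ := ∑' k, β k / (p k - c) ^ (l + 1)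

private theorem tayl_alg (β p x c : ℂ) (m : ℕ) (h1 : x ≠ p) (h2 : p ≠ c) :
    β / (x - p) + ∑ l ∈ Finset.range m, β / (p - c) ^ (l + 1) * (x - c) ^ l =
      β * (x - c) ^ m / ((p - c) ^ m * (x - p)) := by
  have hx : x - p ≠ 0 := sub_ne_zero.2 h1
  have hp : p - c ≠ 0 := sub_ne_zero.2 h2
  induction m with
  | zero => simp
  | succ m ih =>
    rw [Finset.sum_range_succ, ← add_assoc, ih]
    field_simp
    ring

private theorem tayl_sum {β p : ℕ → ℂ} {c : ℂ} {m : ℕ} {R : ℝ} (hne : ∀ k, p k ≠ c)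
    (hR : ∀ k, ‖p k‖ ≤ R) (hs : Summable fun k => ‖β k‖ / ‖p k - c‖ ^ m) {l : ℕ} (hl : l < m) :
    Summable fun k => β k / (p k - c) ^ (l + 1) := by
  refine Summable.of_norm_bounded
    (g := fun k => (‖β k‖ / ‖p k - c‖ ^ m) * (R + ‖c‖) ^ (m - (l + 1))) (hs.mul_right _)
    fun k => ?_
  have hd : 0 < ‖p k - c‖ := norm_pos_iff.2 (sub_ne_zero.2 (hne k))
  have hd2 : ‖p k - c‖ ≤ R + ‖c‖ := (norm_sub_le _ _).trans (by linarith [hR k])
  have h3 : ‖p k - c‖ ^ m = ‖p k - c‖ ^ (l + 1) * ‖p k - c‖ ^ (m - (l + 1)) := by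
    rw [← pow_add]
    congr 1
    omega
  rw [norm_div, norm_pow, h3]
  calc ‖β k‖ / ‖p k - c‖ ^ (l + 1)
      = ‖β k‖ / (‖p k - c‖ ^ (l + 1) * ‖p k - c‖ ^ (m - (l + 1))) *
          ‖p k - c‖ ^ (m - (l + 1)) := by
        field_simp
    _ ≤ _ := mul_le_mul_of_nonneg_left (pow_le_pow_left₀ hd.le hd2 _) (by positivity)

private theorem tayl_ae {β p : ℕ → ℂ} {c : ℂ} {m : ℕ} {R : ℝ} (hne : ∀ k, p k ≠ c)
    (hR : ∀ k, ‖p k‖ ≤ R) (hβ : Summable fun k => ‖β k‖)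
    (hs : Summable fun k => ‖β k‖ / ‖p k - c‖ ^ m) :
    ∀ᵐ x : ℂ, qs β p x + ∑ l ∈ Finset.range m, tq β p c l * (x - c) ^ l =
      ∑' k, β k * (x - c) ^ m / ((p k - c) ^ m * (x - p k)) := by
  have hcount : ∀ᵐ x : ℂ, ∀ k, x ≠ p k := by
    rw [ae_all_iff]
    intro k
    exact compl_mem_ae_iff.2 (measure_singleton (p k))
  filter_upwards [ae_sum (p := p) hβ, hcount] with x hx hxk
  have h1 : ∀ l ∈ Finset.range m, tq β p c l * (x - c) ^ l =
      ∑' k, β k / (p k - c) ^ (l + 1) * (x - c) ^ l := fun l _ => tsum_mul_right.symm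
  have h2 : ∀ l ∈ Finset.range m, Summable fun k => β k / (p k - c) ^ (l + 1) * (x - c) ^ l :=
    fun l hl => (tayl_sum hne hR hs (Finset.mem_range.1 hl)).mul_right _
  rw [qs, Finset.sum_congr rfl h1, ← Summable.tsum_finsetSum h2,
    ← Summable.tsum_add hx (summable_sum h2)]
  exact tsum_congr fun k => tayl_alg _ _ _ _ _ (hxk k) (hne k)

private theorem tayl_ker_zero {δ : ℝ} (hδ : 0 < δ) :
    ∫⁻ x in ball (0 : ℂ) δ, ENNReal.ofReal (‖x‖⁻¹) ≤ ENNReal.ofReal (2 * Real.pi * δ) := by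
  rw [← lintegral_indicator measurableSet_ball, ← Complex.lintegral_comp_polarCoord_symm]
  have h1 : (∫⁻ q in polarCoord.target, ENNReal.ofReal q.1 •
      (ball (0 : ℂ) δ).indicator (fun x => ENNReal.ofReal (‖x‖⁻¹)) (Complex.polarCoord.symm q)) ≤
      ∫⁻ q in polarCoord.target, (Iio δ ×ˢ (univ : Set ℝ)).indicator 1 q := by
    refine setLIntegral_mono' polarCoord.open_target.measurableSet fun q hq => ?_
    have hq1 : 0 < q.1 := hq.1
    by_cases h : q.1 < δ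
    · have hm : q ∈ Iio δ ×ˢ (univ : Set ℝ) := ⟨h, mem_univ _⟩
      have hb : Complex.polarCoord.symm q ∈ ball (0 : ℂ) δ := by
        rw [mem_ball_zero_iff, Complex.norm_polarCoord_symm, abs_of_pos hq1]
        exact h
      rw [indicator_of_mem hm, indicator_of_mem hb, Complex.norm_polarCoord_symm, abs_of_pos hq1,
        smul_eq_mul, ← ENNReal.ofReal_mul hq1.le, mul_inv_cancel₀ hq1.ne', ENNReal.ofReal_one]
      exact le_refl _
    · have hb : Complex.polarCoord.symm q ∉ ball (0 : ℂ) δ := by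
        rw [mem_ball_zero_iff, Complex.norm_polarCoord_symm, abs_of_pos hq1]
        exact h
      rw [indicator_of_notMem hb, smul_zero]
      exact bot_le
  have hms : MeasurableSet (Iio δ ×ˢ (univ : Set ℝ)) := measurableSet_Iio.prod MeasurableSet.univ
  rw [lintegral_indicator_one hms, Measure.restrict_apply hms] at h1
  refine (h1.trans (measure_mono (t := Ioo (0 : ℝ) δ ×ˢ Ioo (-Real.pi) Real.pi) ?_)).trans ?_
  · rintro q ⟨h2, h3⟩
    exact ⟨⟨h3.1, h2.1⟩, h3.2⟩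
  · rw [Measure.volume_eq_prod, Measure.prod_prod, Real.volume_Ioo, Real.volume_Ioo,
      ← ENNReal.ofReal_mul (by linarith)]
    apply le_of_eq
    congr 1
    ring

private theorem tayl_ker (c p : ℂ) {δ : ℝ} (hδ : 0 < δ) :
    ∫⁻ x in ball c δ, ENNReal.ofReal (‖x - p‖⁻¹) ≤ ENNReal.ofReal (3 * Real.pi * δ) := by
  have h1 : ∀ x : ℂ, ENNReal.ofReal (‖x - p‖⁻¹) ≤
      (ball (0 : ℂ) δ).indicator (fun x => ENNReal.ofReal (‖x‖⁻¹)) (x - p) +
        ENNReal.ofReal δ⁻¹ := by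
    intro x
    by_cases h : x - p ∈ ball (0 : ℂ) δ
    · rw [indicator_of_mem h]
      exact le_self_add
    · rw [indicator_of_notMem h, zero_add]
      rw [mem_ball_zero_iff, not_lt] at h
      exact ENNReal.ofReal_le_ofReal (inv_anti₀ hδ h)
  calc ∫⁻ x in ball c δ, ENNReal.ofReal (‖x - p‖⁻¹)
      ≤ ∫⁻ x in ball c δ, ((ball (0 : ℂ) δ).indicator
          (fun x => ENNReal.ofReal (‖x‖⁻¹)) (x - p) + ENNReal.ofReal δ⁻¹) :=
        lintegral_mono fun x => h1 x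
    _ = (∫⁻ x in ball c δ, (ball (0 : ℂ) δ).indicator
          (fun x => ENNReal.ofReal (‖x‖⁻¹)) (x - p)) + ∫⁻ x in ball c δ, ENNReal.ofReal δ⁻¹ :=
        lintegral_add_right _ measurable_const
    _ ≤ (∫⁻ x, (ball (0 : ℂ) δ).indicator
          (fun x => ENNReal.ofReal (‖x‖⁻¹)) (x - p)) + ENNReal.ofReal (Real.pi * δ) := by
        refine add_le_add (setLIntegral_le_lintegral _ _) ?_
        rw [setLIntegral_const, Complex.volume_ball]
        have h2 : ((NNReal.pi : NNReal) : ENNReal) = ENNReal.ofReal Real.pi := by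
          rw [← NNReal.coe_real_pi, ENNReal.ofReal_coe_nnreal]
        rw [h2, ← ENNReal.ofReal_pow hδ.le, ← ENNReal.ofReal_mul (by positivity),
          ← ENNReal.ofReal_mul (by positivity)]
        apply le_of_eq
        congr 1
        field_simp
    _ = (∫⁻ x in ball (0 : ℂ) δ, ENNReal.ofReal (‖x‖⁻¹)) + ENNReal.ofReal (Real.pi * δ) := by
        congr 1
        rw [lintegral_sub_right_eq_self
          (fun x => (ball (0 : ℂ) δ).indicator (fun x => ENNReal.ofReal (‖x‖⁻¹)) x) p,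
          lintegral_indicator measurableSet_ball]
    _ ≤ ENNReal.ofReal (2 * Real.pi * δ) + ENNReal.ofReal (Real.pi * δ) :=
        add_le_add (tayl_ker_zero hδ) le_rfl
    _ = ENNReal.ofReal (3 * Real.pi * δ) := by
        rw [← ENNReal.ofReal_add (by positivity) (by positivity)]
        congr 1
        ring

private theorem tayl_far (c p : ℂ) {δ : ℝ} (hδ : 0 < δ) (h : 2 * δ ≤ ‖p - c‖) :
    ∫⁻ x in ball c δ, ENNReal.ofReal (‖x - p‖⁻¹) ≤
      ENNReal.ofReal (2 * Real.pi / ‖p - c‖ * δ ^ 2) := by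
  have hd : 0 < ‖p - c‖ := by linarith
  have h1 : ∀ x ∈ ball c δ, ENNReal.ofReal (‖x - p‖⁻¹) ≤ ENNReal.ofReal (2 / ‖p - c‖) := by
    intro x hx
    rw [mem_ball_iff_norm] at hx
    apply ENNReal.ofReal_le_ofReal
    have h2 : ‖p - c‖ / 2 ≤ ‖x - p‖ := by
      have h3 : ‖p - c‖ ≤ ‖x - p‖ + ‖x - c‖ := by
        calc ‖p - c‖ = ‖-(x - p) + (x - c)‖ := by congr 1; ring
          _ ≤ ‖-(x - p)‖ + ‖x - c‖ := norm_add_le _ _
          _ = _ := by rw [norm_neg]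
      linarith
    have h4 : ‖x - p‖⁻¹ ≤ (‖p - c‖ / 2)⁻¹ := inv_anti₀ (by positivity) h2
    rw [inv_div] at h4
    exact h4
  refine (setLIntegral_mono' measurableSet_ball h1).trans ?_
  rw [setLIntegral_const, Complex.volume_ball]
  have h2 : ((NNReal.pi : NNReal) : ENNReal) = ENNReal.ofReal Real.pi := by
    rw [← NNReal.coe_real_pi, ENNReal.ofReal_coe_nnreal]
  rw [h2, ← ENNReal.ofReal_pow hδ.le, ← ENNReal.ofReal_mul (by positivity),
    ← ENNReal.ofReal_mul (by positivity)]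
  apply le_of_eq
  congr 1
  ring

private theorem tayl_le {β p : ℕ → ℂ} {c : ℂ} {m : ℕ} {R : ℝ} (hne : ∀ k, p k ≠ c)
    (hR : ∀ k, ‖p k‖ ≤ R) (hβ : Summable fun k => ‖β k‖)
    (hs : Summable fun k => ‖β k‖ / ‖p k - c‖ ^ m) {δ : ℝ} (hδ : 0 < δ) :
    (∫⁻ x in ball c δ, ‖qs β p x + ∑ l ∈ Finset.range m, tq β p c l * (x - c) ^ l‖ₑ) ≤
      ∑' k, ENNReal.ofReal (‖β k‖ / ‖p k - c‖ ^ m) * (ENNReal.ofReal (δ ^ m) *
        ∫⁻ x in ball c δ, ENNReal.ofReal (‖x - p k‖⁻¹)) := by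
  have h1 : (∫⁻ x in ball c δ, ‖qs β p x + ∑ l ∈ Finset.range m, tq β p c l * (x - c) ^ l‖ₑ) =
      ∫⁻ x in ball c δ, ‖∑' k, β k * (x - c) ^ m / ((p k - c) ^ m * (x - p k))‖ₑ := by
    refine lintegral_congr_ae (ae_restrict_of_ae ?_)
    filter_upwards [tayl_ae hne hR hβ hs] with x hx
    rw [hx]
  rw [h1]
  have h2 : ∀ x ∈ ball c δ, ‖∑' k, β k * (x - c) ^ m / ((p k - c) ^ m * (x - p k))‖ₑ ≤
      ∑' k, ENNReal.ofReal (‖β k‖ / ‖p k - c‖ ^ m) * (ENNReal.ofReal (δ ^ m) *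
        ENNReal.ofReal (‖x - p k‖⁻¹)) := by
    intro x hx
    rw [mem_ball_iff_norm] at hx
    refine enorm_tsum_le_tsum_enorm.trans (ENNReal.tsum_le_tsum fun k => ?_)
    have hd : 0 < ‖p k - c‖ := norm_pos_iff.2 (sub_ne_zero.2 (hne k))
    rw [← ofReal_norm, ← ENNReal.ofReal_mul (by positivity), ← ENNReal.ofReal_mul (by positivity)]
    apply ENNReal.ofReal_le_ofReal
    rw [norm_div, norm_mul, norm_mul, norm_pow, norm_pow]
    calc ‖β k‖ * ‖x - c‖ ^ m / (‖p k - c‖ ^ m * ‖x - p k‖)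
        = ‖β k‖ / ‖p k - c‖ ^ m * (‖x - c‖ ^ m * ‖x - p k‖⁻¹) := by
          rw [div_eq_mul_inv, mul_inv, div_eq_mul_inv]
          ring
      _ ≤ _ := by
          refine mul_le_mul_of_nonneg_left (mul_le_mul_of_nonneg_right
            (pow_le_pow_left₀ (norm_nonneg _) hx.le _) (by positivity)) (by positivity)
  refine (setLIntegral_mono' measurableSet_ball h2).trans ?_
  have hm : ∀ k, Measurable fun x : ℂ => ENNReal.ofReal (‖x - p k‖⁻¹) := fun k =>
    ENNReal.measurable_ofReal.comp (measurable_id.sub_const (p k)).norm.inv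
  rw [lintegral_tsum fun k => (((hm k).const_mul _).const_mul _).aemeasurable]
  apply le_of_eq
  congr 1
  funext k
  rw [lintegral_const_mul' _ _ ENNReal.ofReal_ne_top, lintegral_const_mul' _ _ ENNReal.ofReal_ne_top]

private theorem tayl_lim (c p : ℂ) (hp : p ≠ c) :
    Tendsto (fun δ : ℝ => (∫⁻ x in ball c δ, ENNReal.ofReal (‖x - p‖⁻¹)) / ENNReal.ofReal δ)
      (𝓝[>] 0) (𝓝 0) := by
  have hd : 0 < ‖p - c‖ := norm_pos_iff.2 (sub_ne_zero.2 hp)
  have h1 : Tendsto (fun δ : ℝ => ENNReal.ofReal (2 * Real.pi / ‖p - c‖ * δ)) (𝓝[>] 0) (𝓝 0) := by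
    have h2 : Tendsto (fun δ : ℝ => ENNReal.ofReal (2 * Real.pi / ‖p - c‖ * δ)) (𝓝 0)
        (𝓝 (ENNReal.ofReal (2 * Real.pi / ‖p - c‖ * 0))) :=
      (ENNReal.continuous_ofReal.comp (continuous_const.mul continuous_id)).tendsto 0
    rw [mul_zero, ENNReal.ofReal_zero] at h2
    exact h2.mono_left nhdsWithin_le_nhds
  refine tendsto_of_tendsto_of_tendsto_of_le_of_le' tendsto_const_nhds h1
    (Eventually.of_forall fun _ => bot_le) ?_
  have h3 : ∀ᶠ δ : ℝ in 𝓝[>] 0, δ ∈ Ioo (0 : ℝ) (‖p - c‖ / 2) :=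
    Ioo_mem_nhdsGT (by positivity)
  filter_upwards [h3] with δ hδ
  have hδ0 : 0 < δ := hδ.1
  refine (ENNReal.div_le_div_right (tayl_far c p hδ0 (by linarith [hδ.2])) _).trans ?_
  rw [← ENNReal.ofReal_div_of_pos hδ0]
  apply le_of_eq
  congr 1
  field_simp

theorem qs_taylor {β p : ℕ → ℂ} {c : ℂ} {m : ℕ} {R : ℝ} (hm : 1 ≤ m) (hne : ∀ k, p k ≠ c)
    (hR : ∀ k, ‖p k‖ ≤ R) (hβ : Summable fun k => ‖β k‖)
    (hs : Summable fun k => ‖β k‖ / ‖p k - c‖ ^ m) :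
    Tendsto (fun δ : ℝ => (∫⁻ x in ball c δ, ‖qs β p x +
      ∑ l ∈ Finset.range m, tq β p c l * (x - c) ^ l‖ₑ) / ENNReal.ofReal (δ ^ (m + 1)))
      (𝓝[>] 0) (𝓝 0) := by
  have hC : ∀ k, ∀ δ : ℝ, 0 < δ → (∫⁻ x in ball c δ, ENNReal.ofReal (‖x - p k‖⁻¹)) /
      ENNReal.ofReal δ ≤ ENNReal.ofReal (3 * Real.pi) := by
    intro k δ hδ
    refine (ENNReal.div_le_div_right (tayl_ker c (p k) hδ) _).trans ?_
    rw [← ENNReal.ofReal_div_of_pos hδ]
    apply le_of_eq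
    congr 1
    field_simp
  have h1 : Tendsto (fun δ : ℝ => ∑' k, ENNReal.ofReal (‖β k‖ / ‖p k - c‖ ^ m) *
      ((∫⁻ x in ball c δ, ENNReal.ofReal (‖x - p k‖⁻¹)) / ENNReal.ofReal δ)) (𝓝[>] 0) (𝓝 0) := by
    simp_rw [← lintegral_count]
    have h2 : (0 : ENNReal) = ∫⁻ _ : ℕ, 0 ∂Measure.count := by simp
    rw [h2]
    refine tendsto_lintegral_filter_of_dominated_convergence
      (fun k => ENNReal.ofReal (‖β k‖ / ‖p k - c‖ ^ m) * ENNReal.ofReal (3 * Real.pi)) ?_ ?_ ?_ ?_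
    · exact Eventually.of_forall fun δ => measurable_from_nat
    · filter_upwards [self_mem_nhdsWithin] with δ hδ
      exact Eventually.of_forall fun k => mul_le_mul_right (hC k δ hδ) _
    · rw [lintegral_count, ENNReal.tsum_mul_right]
      refine ENNReal.mul_ne_top ?_ ENNReal.ofReal_ne_top
      rw [← ENNReal.ofReal_tsum_of_nonneg (fun k => by positivity) hs]
      exact ENNReal.ofReal_ne_top
    · refine Eventually.of_forall fun k => ?_
      have h3 := ENNReal.Tendsto.const_mul (a := ENNReal.ofReal (‖β k‖ / ‖p k - c‖ ^ m))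
        (tayl_lim c (p k) (hne k)) (Or.inr ENNReal.ofReal_ne_top)
      rw [mul_zero] at h3
      exact h3
  refine tendsto_of_tendsto_of_tendsto_of_le_of_le' tendsto_const_nhds h1
    (Eventually.of_forall fun _ => bot_le) ?_
  filter_upwards [self_mem_nhdsWithin] with δ hδ
  have hδ0 : 0 < δ := hδ
  refine (ENNReal.div_le_div_right (tayl_le hne hR hβ hs hδ0) _).trans ?_
  rw [div_eq_mul_inv, ← ENNReal.tsum_mul_right]
  refine ENNReal.tsum_le_tsum fun k => ?_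
  rw [mul_assoc]
  refine mul_le_mul_right ?_ _
  rw [← div_eq_mul_inv]
  have h4 : δ ^ (m + 1) = δ ^ m * δ := pow_succ _ _
  have hne0 : ENNReal.ofReal (δ ^ m) ≠ 0 := by
    rw [Ne, ENNReal.ofReal_eq_zero, not_le]
    positivity
  rw [h4, ENNReal.ofReal_mul (by positivity)]
  rw [ENNReal.mul_div_mul_left _ _ hne0 ENNReal.ofReal_ne_top]

end Pool.Agent.H91.CE
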