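import Pool.Agent.H91.CE.CDefs
import Pool.Agent.H79.Par.ChartNull

/-!
# Module BACK: back from the chart

PROOF. `Lin s` is an injective `ℂ`-linear map of the finite dimensional space `E d` (`lin_add`, `lin_smul`, `lin_inj`, H79/Par/ChartNull), so a linear homeomorphism (`LinearEquiv.ofInjectiveEndo`, `LinearMap.continuous_of_finiteDimensional`,
or `LinearEquiv.toContinuousLinearEquiv`). Its inverse is continuous at `Lin s v0`: there is `δ > 0` such that `u ∈ ball (Lin s v0) δ` implies `u = Lin s w` with `w ∈ ball v0 ε`. `hyp_lin` (H79/Par/ChartNull).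
-/

set_option autoImplicit false

open Filter Topology Polynomial Metric Set

namespace Pool.Agent.H91.CE

open Pool.Agent.H44.Fatou Pool.Agent.H32.BT Pool.Agent.H79.Eul Pool.Agent.H79.Par
open Pool.Agent.H35.RL Pool.Agent.H35.EX

theorem hyp_back {d : ℕ} (hd : 2 ≤ d) {v0 : E d} {s : ℂ}
    (h : ∀ ε : ℝ, 0 < ε → ∃ w ∈ ball (Lin s v0) ε, HypDeg w) {ε : ℝ} (hε : 0 < ε) :
    ∃ w ∈ ball v0 ε, HypDeg w := by
  obtain ⟨L, hL⟩ : ∃ L : E d →ₗ[ℂ] E d, ∀ v, L v = Lin s v :=
    ⟨{ toFun := Lin s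
       map_add' := lin_add s
       map_smul' := lin_smul s }, fun _ => rfl⟩
  have hinj : Function.Injective L := by
    intro v w hvw
    rw [hL, hL] at hvw
    exact lin_inj s hvw
  obtain ⟨e, he⟩ : ∃ e : E d ≃ₗ[ℂ] E d, ∀ v, e v = Lin s v :=
    ⟨LinearEquiv.ofInjectiveEndo L hinj, fun v => by
      rw [← hL]; rfl⟩
  have hcont : Continuous (e.symm : E d → E d) :=
    LinearMap.continuous_of_finiteDimensional (e.symm : E d →ₗ[ℂ] E d)
  have h0 : e.symm (Lin s v0) = v0 := by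
    rw [← he, LinearEquiv.symm_apply_apply]
  have hnh : (e.symm : E d → E d) ⁻¹' (ball v0 ε) ∈ 𝓝 (Lin s v0) := by
    refine hcont.continuousAt.preimage_mem_nhds ?_
    rw [h0]
    exact ball_mem_nhds v0 hε
  obtain ⟨δ, hδ, hsub⟩ := Metric.mem_nhds_iff.1 hnh
  obtain ⟨w, hw, hyp⟩ := h δ hδ
  refine ⟨e.symm w, hsub hw, ?_⟩
  have h1 : Lin s (e.symm w) = w := by
    rw [← he, LinearEquiv.apply_symm_apply]
  exact hyp_lin (s := s) (by omega) (h1.symm ▸ hyp)

end Pool.Agent.H91.CE
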