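import Pool.Agent.H91.CE.CDefs

/-!
# Module CHAV: an open set avoiding the closures of finitely many orbits

PROOF. Let `x ∈ F`. If the orbit of `x` does not meet `U0` then its closure does not (`U0` open). Otherwise `f^[j] x ∈ U0`, so `f^[n * k] (f^[j] x) → z`; by continuity of `f^[i]`
`f^[n * k + i + j] x → f^[i] z` for all `i < n`, so the closure of the orbit is contained in `range (f^[·] x) ∪ range (f^[·] z)` (the set `{f^[j'] x} ∪ {f^[i] z | i < n}` is closed: a point of the closure not in it has a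
neighbourhood missing the finitely many `f^[i] z` together with neighbourhoods of them, so only finitely many orbit points), which is countable. Let `U = U0 \ ⋃` of the (finitely many, closed, countable) closures of the
second kind: open; nonempty, since the nonempty open set `U0` is not countable: its preimage in `ℂ` is open and nonempty (`OnePoint.denseRange_coe`) and `Countable.dense_compl` (compare `good_U`, H35/EX/GoodU).
-/

set_option autoImplicit false

open Filter Topology Polynomial Metric Set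

namespace Pool.Agent.H91.CE

open Pool.Agent.H44.Fatou Pool.Agent.H32.BT Pool.Agent.H79.Eul Pool.Agent.H79.Par
open Pool.Agent.H35.RL Pool.Agent.H35.EX

open Pool.Agent.H80.AJ in
theorem chav_closure_countable {f : OnePoint ℂ → OnePoint ℂ} (hf : Continuous f)
    {x z : OnePoint ℂ} {n j : ℕ} (h : CL f (f^[j] x) z n) :
    (closure (Set.range fun j : ℕ => f^[j] x)).Countable := by
  obtain ⟨hn, hz, ht⟩ := h
  have hsub : closure (Set.range fun j : ℕ => f^[j] x) ⊆
      (Set.range fun j : ℕ => f^[j] x) ∪ (Set.range fun i : Fin n => f^[(i : ℕ)] z) := by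
    intro y hy
    by_contra hcon
    rw [Set.mem_union, not_or] at hcon
    obtain ⟨hyR, hyZ⟩ := hcon
    have hZfin : (Set.range fun i : Fin n => f^[(i : ℕ)] z).Finite := Set.finite_range _
    have hZc : IsCompact (Set.range fun i : Fin n => f^[(i : ℕ)] z) := hZfin.isCompact
    have hdis : Disjoint ({y} : Set (OnePoint ℂ)) (Set.range fun i : Fin n => f^[(i : ℕ)] z) :=
      Set.disjoint_singleton_left.2 hyZ
    obtain ⟨W, V, hW, hV, hyW, hZV, hWV⟩ :=
      SeparatedNhds.of_isCompact_isCompact isCompact_singleton hZc hdis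
    have hyW' : y ∈ W := hyW rfl
    have hev : ∀ i : Fin n, ∀ᶠ k in atTop, f^[n * k + i + j] x ∈ V := by
      intro i
      have h1 : Tendsto (fun k : ℕ => f^[(i : ℕ)] (f^[n * k] (f^[j] x))) atTop
          (𝓝 (f^[(i : ℕ)] z)) := ((hf.iterate i).tendsto z).comp ht
      have h2 : f^[(i : ℕ)] z ∈ V := hZV ⟨i, rfl⟩
      filter_upwards [h1 (hV.mem_nhds h2)] with k hk
      have e : f^[n * k + i + j] x = f^[(i : ℕ)] (f^[n * k] (f^[j] x)) := by
        rw [← Function.iterate_add_apply, ← Function.iterate_add_apply]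
        congr 1
        congr 1
        omega
      rw [e]
      exact hk
    have hev2 : ∀ᶠ k in atTop, ∀ i : Fin n, f^[n * k + i + j] x ∈ V := eventually_all.2 hev
    obtain ⟨K, hK⟩ := eventually_atTop.1 hev2
    have hfin : ((Set.range fun j : ℕ => f^[j] x) ∩ W).Finite := by
      refine (Set.Finite.subset ((Set.finite_lt_nat (n * K + j)).image fun m : ℕ => f^[m] x) ?_)
      rintro w ⟨⟨m, rfl⟩, hwW⟩
      refine ⟨m, ?_, rfl⟩
      by_contra hm
      have hm' : n * K + j ≤ m := not_lt.1 hm
      have hmod := Nat.div_add_mod (m - j) n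
      have hlt := Nat.mod_lt (m - j) hn
      have hKle : K ≤ (m - j) / n := by
        rw [Nat.le_div_iff_mul_le hn, Nat.mul_comm]
        omega
      have h3 := hK _ hKle ⟨(m - j) % n, hlt⟩
      have e : n * ((m - j) / n) + (m - j) % n + j = m := by omega
      simp only at h3
      rw [e] at h3
      exact Set.disjoint_left.1 hWV hwW h3
    have hycl : y ∈ closure ((Set.range fun j : ℕ => f^[j] x) ∩ W) := by
      rw [Set.inter_comm]
      exact hW.inter_closure ⟨hyW', hy⟩
    rw [hfin.isClosed.closure_eq] at hycl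
    exact hyR hycl.1
  exact ((Set.countable_range _).union (Set.countable_range _)).mono hsub

open Pool.Agent.H80.AJ in
theorem avoid_open {f : OnePoint ℂ → OnePoint ℂ} (hf : Continuous f) {F : Set (OnePoint ℂ)}
    (hF : F.Finite) {U0 : Set (OnePoint ℂ)} {z : OnePoint ℂ} {n : ℕ} (hU0 : IsOpen U0)
    (hU1 : U0.Nonempty) (hU2 : ∀ x ∈ U0, CL f x z n) :
    ∃ U : Set (OnePoint ℂ), IsOpen U ∧ U.Nonempty ∧
      ∀ x ∈ F, Disjoint (closure (Set.range fun j : ℕ => f^[j] x)) U := by
  set G : Set (OnePoint ℂ) := {x | x ∈ F ∧ ∃ j : ℕ, f^[j] x ∈ U0} with hG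
  have hGF : G.Finite := hF.subset fun x hx => hx.1
  set B : Set (OnePoint ℂ) := ⋃ x ∈ G, closure (Set.range fun j : ℕ => f^[j] x) with hB
  have hBc : IsClosed B := hGF.isClosed_biUnion fun x _ => isClosed_closure
  have hBn : B.Countable := by
    refine hGF.countable.biUnion fun x hx => ?_
    obtain ⟨-, j, hj⟩ := hx
    exact chav_closure_countable hf (hU2 _ hj)
  refine ⟨U0 \ B, hU0.sdiff hBc, ?_, ?_⟩
  · have hden : DenseRange ((↑) : ℂ → OnePoint ℂ) := OnePoint.denseRange_coe
    have hne : (((↑) : ℂ → OnePoint ℂ) ⁻¹' U0).Nonempty := by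
      obtain ⟨y, hy⟩ := hden.exists_mem_open hU0 hU1
      exact ⟨y, hy⟩
    have hop : IsOpen (((↑) : ℂ → OnePoint ℂ) ⁻¹' U0) := hU0.preimage OnePoint.continuous_coe
    have hbad : {b : ℂ | (b : OnePoint ℂ) ∈ B}.Countable := hBn.preimage OnePoint.coe_injective
    obtain ⟨s, hsU, hsS⟩ := (hbad.dense_compl ℂ).inter_open_nonempty _ hop hne
    exact ⟨(s : OnePoint ℂ), hsU, hsS⟩
  · intro x hx
    by_cases hxG : ∃ j : ℕ, f^[j] x ∈ U0
    · refine Set.disjoint_left.2 fun y hy hyU => hyU.2 ?_
      exact Set.mem_biUnion (show x ∈ G from ⟨hx, hxG⟩) hy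
    · have hd : Disjoint (Set.range fun j : ℕ => f^[j] x) U0 := by
        refine Set.disjoint_left.2 ?_
        rintro y ⟨j, rfl⟩ hy
        exact hxG ⟨j, hy⟩
      exact (hd.closure_left hU0).mono_right Set.sdiff_subset

end Pool.Agent.H91.CE
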