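import Pool.Agent.H91.CE.GRCH
import Pool.Agent.H91.CE.CHAV
import Pool.Agent.H35.EX.GoodU

/-!
# Module CHARTC: a good chart

PROOF (compare `chart_K`, H35/EX/ChartK). `f = Rf v0`, `Cr = {c | IsCrit f c}` finite (`crit_finite`). `hbd` gives a point of type `Ty12`, and `ty1_open` / `ty2_open` (H80/AJ/Types) an open nonempty `U0` with `CL f x z n` on it.
`avoid_open` for `F = Cr` gives `U`. `S = {periodic points} ∪ Cr ∪ ⋃ c ∈ Cr, range (f^[j] c)`, countable; `good_U` gives `s ∈ U \ S`, `φ`; `g = Rf (Lin s v0)`, `w0 = Lin s v0`. `Chart0 w0`, `¬ IsCrit g ∞` as in `chart_K`.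
`K = {w : ℂ | (w : OnePoint ℂ) ∈ φ '' ⋃ c ∈ Cr, closure (range (f^[j] c))}`: the image under `φ` of a compact set not containing `s`, so compact and not containing `∞ = φ s`; `K` is compact in `ℂ` as in `exp_conj`. It is invariant: the
closure of an orbit is mapped into itself by the continuous `f`; `g (φ x) = φ (f x)` is finite, so for `w ∈ K` all iterates are finite: `orb_all` (H79/Par/PerDec) gives `ev w0.2 w ≠ 0` and `it w0 1 w ∈ K`.
Density: an open nonempty `V ⊆ ℂ`: `φ.symm '' coe '' V` is open and nonempty, minus the point `s`... contains `x` of type `Ty12 f x z n` by `hbd`; `basin_near`-type argument: the points of `V` whose orbit hits `∞` are countably many; by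
`ty1_open` / `ty2_open` the points near `x` converge to the same cycle and (for `Ty2`) all but countably many do not land (`pre_countable`); so there is such an `x` near with `φ x = w ∈ V`, no iterate of `w` infinite; `z ≠ s` since `z` is
periodic and `s` is not, the iterates of `φ z` are finite for the same reason; `ty12_conj` (H79/Par/TanConj): `Basin w0 w`.
A critical point `(c : ℂ)` of `g` is `φ c'`, `c' ∈ Cr` (`isCrit_conj`). If `Ty12 f c' z n`: `Basin w0 c` as above (all iterates of `c` are finite as `s ∉ S`). If `CEAt f (f^[m] c')`: `it w0 j c ∈ K` (`(it w0 j c : OnePoint ℂ) = g^[j] c = φ (f^[j] c')`) and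
`gr_conj` for `x = f^[m] c'`, `w = it w0 m c`.
-/

set_option autoImplicit false

open Filter Topology Polynomial Metric Set

namespace Pool.Agent.H91.CE

open Pool.Agent.H44.Fatou Pool.Agent.H32.BT Pool.Agent.H79.Eul Pool.Agent.H79.Par
open Pool.Agent.H35.RL Pool.Agent.H35.EX

/-- points which are attracted in a good chart -/
private theorem chartc_basin {d : ℕ} {v0 : E d} {s : ℂ} {φ : OnePoint ℂ ≃ₜ OnePoint ℂ}
    (hφs : φ s = OnePoint.infty)
    (hφ : ∀ z : ℂ, z ≠ s → φ (z : OnePoint ℂ) = (((z - s)⁻¹ : ℂ) : OnePoint ℂ))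
    (hφi : φ OnePoint.infty = ((0 : ℂ) : OnePoint ℂ))
    (hconj : ∀ x, Rf (Lin s v0) (φ x) = φ (Rf v0 x))
    (hs0 : ∀ n : ℕ, 0 < n → (Rf v0)^[n] (s : OnePoint ℂ) ≠ s) {x z : OnePoint ℂ} {n : ℕ} {w : ℂ}
    (hxw : φ x = (w : OnePoint ℂ)) (hT : Ty12 (Rf v0) x z n)
    (hx : ∀ j, (Rf v0)^[j] x ≠ (s : OnePoint ℂ)) : Basin (Lin s v0) w := by
  have hic : ∀ (j : ℕ) (x : OnePoint ℂ), (Rf (Lin s v0))^[j] (φ x) = φ ((Rf v0)^[j] x) :=
    fun j x => iter_conj φ hconj j x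
  have hne : ∀ x : OnePoint ℂ, x ≠ (s : OnePoint ℂ) → φ x ≠ OnePoint.infty := by
    intro x hx hh
    rw [← hφs] at hh
    exact hx (φ.injective hh)
  have hper : 0 < n ∧ (Rf v0)^[n] z = z := by
    rcases hT with h3 | ⟨hn, hfix, -⟩
    · exact ⟨h3.1.1, h3.1.2.1⟩
    · exact ⟨hn, Pool.Agent.H80.AJ.fixMult_fix hfix⟩
  have hz : ∀ j, (Rf v0)^[j] z ≠ (s : OnePoint ℂ) := by
    intro j hj
    apply hs0 n hper.1
    rw [← hj, ← Function.iterate_add_apply, Nat.add_comm, Function.iterate_add_apply, hper.2]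
  obtain ⟨z', hz'⟩ := OnePoint.ne_infty_iff_exists.1 (hne z (hz 0))
  have hz0 : z ≠ (s : OnePoint ℂ) := hz 0
  have h1 := ty12_conj hφs hφ hφi hconj hz0 hT
  have hz'' : φ z = (z' : OnePoint ℂ) := hz'.symm
  rw [hxw, hz''] at h1
  refine ⟨z', n, h1, fun j => ?_, fun j => ?_⟩
  · rw [← hxw, hic]
    exact hne _ (hx j)
  · rw [← hz'', hic]
    exact hne _ (hz j)

/-- an open set of points converging to the cycle of an attracted point -/
private theorem chartc_open {d : ℕ} (hd : 2 ≤ d) {v0 : E d} (hcop : IsCoprime (pol v0.1) (pol v0.2))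
    (hdeg : max (pol v0.1).natDegree (pol v0.2).natDegree = d) {x z : OnePoint ℂ} {n : ℕ}
    (hT : Ty12 (Rf v0) x z n) : ∃ U : Set (OnePoint ℂ), IsOpen U ∧ x ∈ U ∧
      ∀ y ∈ U, Pool.Agent.H80.AJ.CL (Rf v0) y z n := by
  have hev : ∀ᶠ y in 𝓝 x, Pool.Agent.H80.AJ.CL (Rf v0) y z n := by
    rcases hT with h1 | h1
    · exact Pool.Agent.H80.AJ.ty1_open (rat_continuous hcop) h1
    · exact Pool.Agent.H80.AJ.ty2_open hcop (by rw [hdeg]; omega) h1
  obtain ⟨U, hUs, hUo, hxU⟩ := mem_nhds_iff.1 hev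
  exact ⟨U, hUo, hxU, fun y hy => hUs hy⟩

theorem chart_ce {d : ℕ} (hd : 2 ≤ d) {v0 : E d} (hcop : IsCoprime (pol v0.1) (pol v0.2))
    (hdeg : max (pol v0.1).natDegree (pol v0.2).natDegree = d)
    (h : ∀ c, IsCrit (Rf v0) c → (∃ z n, Ty12 (Rf v0) c z n) ∨
      ∃ m : ℕ, CEAt (Rf v0) ((Rf v0)^[m] c))
    (hbd : Dense {x : OnePoint ℂ | ∃ z n, Ty12 (Rf v0) x z n}) :
    ∃ (s : ℂ) (K : Set ℂ), Chart0 (Lin s v0) ∧ ¬ IsCrit (Rf (Lin s v0)) OnePoint.infty ∧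
      Inv (Lin s v0) K ∧ Dense {z : ℂ | Basin (Lin s v0) z} ∧
      ∀ c : ℂ, IsCrit (Rf (Lin s v0)) (c : OnePoint ℂ) → Basin (Lin s v0) c ∨
        ((∀ j, it (Lin s v0) j c ∈ K) ∧ ∃ m : ℕ, Gr (Lin s v0) (it (Lin s v0) m c)) := by
  classical
  have hd1 : 1 ≤ max (pol v0.1).natDegree (pol v0.2).natDegree := by rw [hdeg]; omega
  have hd2 : 2 ≤ max (pol v0.1).natDegree (pol v0.2).natDegree := by rw [hdeg]; exact hd
  have hcont : Continuous (Rf v0) := rat_continuous hcop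
  have hfin : {c | IsCrit (Rf v0) c}.Finite := crit_finite hcop hd1
  obtain ⟨x0, z0, n0, hT0⟩ := hbd.nonempty
  obtain ⟨U0, hU0, hx0, hU0C⟩ := chartc_open hd hcop hdeg hT0
  obtain ⟨U, hU, hUn, hUd⟩ := avoid_open hcont hfin hU0 ⟨x0, hx0⟩ hU0C
  obtain ⟨S, hS⟩ : ∃ S : Set (OnePoint ℂ), S =
      ({x : OnePoint ℂ | ∃ n : ℕ, 0 < n ∧ (Rf v0)^[n] x = x} ∪ {c | IsCrit (Rf v0) c}) ∪
      (⋃ c ∈ {c | IsCrit (Rf v0) c}, Set.range (fun j : ℕ => (Rf v0)^[j] c)) := ⟨_, rfl⟩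
  have hScount : S.Countable := by
    rw [hS]
    exact ((per_all_countable hcop hd2).union hfin.countable).union
      (hfin.countable.biUnion fun c _ => Set.countable_range _)
  obtain ⟨s, φ, hsS, hsU, hφs, hφ, hφi, hconj, hcop1, hdeg1⟩ := good_U hd hcop hdeg hScount hU hUn
  rw [hS] at hsS
  have hs0 : ∀ n : ℕ, 0 < n → (Rf v0)^[n] (s : OnePoint ℂ) ≠ s :=
    fun n hn hh => hsS (Or.inl (Or.inl ⟨n, hn, hh⟩))
  have hs1 : ¬ IsCrit (Rf v0) (s : OnePoint ℂ) :=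
    fun hh => hsS (Or.inl (Or.inr hh))
  have hs2 : ∀ c, IsCrit (Rf v0) c → ∀ j, (Rf v0)^[j] c ≠ (s : OnePoint ℂ) := by
    intro c hc j hj
    apply hsS
    refine Or.inr ?_
    rw [Set.mem_iUnion₂]
    exact ⟨c, hc, j, hj⟩
  have hne : ∀ x : OnePoint ℂ, x ≠ (s : OnePoint ℂ) → φ x ≠ OnePoint.infty := by
    intro x hx hh
    rw [← hφs] at hh
    exact hx (φ.injective hh)
  have hic : ∀ (j : ℕ) (x : OnePoint ℂ), (Rf (Lin s v0))^[j] (φ x) = φ ((Rf v0)^[j] x) :=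
    fun j x => iter_conj φ hconj j x
  -- the compact set
  obtain ⟨KK, hKKe⟩ : ∃ KK : Set (OnePoint ℂ), KK = ⋃ c ∈ {c | IsCrit (Rf v0) c},
    closure (Set.range (fun j : ℕ => (Rf v0)^[j] c)) := ⟨_, rfl⟩
  have hKKc : IsCompact KK := by
    rw [hKKe]
    exact (hfin.isClosed_biUnion fun c _ => isClosed_closure).isCompact
  have hsKK : (s : OnePoint ℂ) ∉ KK := by
    rw [hKKe, Set.mem_iUnion₂]
    rintro ⟨c, hc, hcs⟩
    exact Set.disjoint_left.1 (hUd c hc) hcs hsU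
  have hKKm : ∀ x ∈ KK, Rf v0 x ∈ KK := by
    intro x hx
    rw [hKKe, Set.mem_iUnion₂] at hx ⊢
    obtain ⟨c, hc, hx⟩ := hx
    refine ⟨c, hc, ?_⟩
    have h1 : MapsTo (Rf v0) (Set.range (fun j : ℕ => (Rf v0)^[j] c))
        (Set.range (fun j : ℕ => (Rf v0)^[j] c)) := by
      rintro _ ⟨j, rfl⟩
      exact ⟨j + 1, Function.iterate_succ_apply' _ _ _⟩
    exact h1.closure hcont hx
  have hKKi : ∀ c, IsCrit (Rf v0) c → ∀ j, (Rf v0)^[j] c ∈ KK := by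
    intro c hc j
    rw [hKKe, Set.mem_iUnion₂]
    exact ⟨c, hc, subset_closure ⟨j, rfl⟩⟩
  have hKKit : ∀ (n : ℕ), ∀ x ∈ KK, (Rf v0)^[n] x ∈ KK := by
    intro n
    induction n with
    | zero => intro x hx; exact hx
    | succ n ih =>
      intro x hx
      rw [Function.iterate_succ_apply']
      exact hKKm _ (ih x hx)
  have hKfin : ∀ x ∈ KK, φ x ≠ OnePoint.infty := by
    intro x hx
    apply hne
    intro hh
    rw [hh] at hx
    exact hsKK hx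
  have horb : ∀ w : ℂ, (∃ x ∈ KK, φ x = (w : OnePoint ℂ)) →
      (∀ n, Orb (Lin s v0) (fun j => it (Lin s v0) j w) n) ∧
      ∀ j, (Rf (Lin s v0))^[j] (w : OnePoint ℂ) = ((it (Lin s v0) j w : ℂ) : OnePoint ℂ) := by
    rintro w ⟨x, hx, hxw⟩
    apply orb_all
    intro j
    rw [← hxw, hic]
    exact hKfin _ (hKKit j x hx)
  have hcomp : IsCompact {w : ℂ | ∃ x ∈ KK, φ x = (w : OnePoint ℂ)} := by
    rw [OnePoint.isOpenEmbedding_coe.isInducing.isCompact_iff]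
    have h1 : ((fun w : ℂ => (w : OnePoint ℂ)) '' {w : ℂ | ∃ x ∈ KK, φ x = (w : OnePoint ℂ)})
        = φ '' KK := by
      ext y
      constructor
      · rintro ⟨w, ⟨x, hx, hxw⟩, rfl⟩
        exact ⟨x, hx, hxw⟩
      · rintro ⟨x, hx, rfl⟩
        obtain ⟨w, hw⟩ := OnePoint.ne_infty_iff_exists.1 (hKfin x hx)
        exact ⟨w, ⟨x, hx, hw.symm⟩, hw⟩
    have h2 : IsCompact (φ '' KK) := hKKc.image φ.continuous
    rw [← h1] at h2
    exact h2
  have hInv : Inv (Lin s v0) {w : ℂ | ∃ x ∈ KK, φ x = (w : OnePoint ℂ)} := by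
    refine ⟨hcomp, ?_, ?_⟩
    · intro w hw
      exact ((horb w hw).1 1 0 Nat.one_pos).1
    · intro w hw
      obtain ⟨x, hx, hxw⟩ := id hw
      refine ⟨Rf v0 x, hKKm x hx, ?_⟩
      have h1 := (horb w hw).2 1
      rw [← h1, ← hxw]
      exact (hconj x).symm
  refine ⟨s, {w : ℂ | ∃ x ∈ KK, φ x = (w : OnePoint ℂ)}, ⟨hcop1, hdeg1, ?_, ?_⟩, ?_, hInv, ?_, ?_⟩
  · intro n hn hcon
    rw [← hφs, hic] at hcon
    exact hs0 n hn (φ.injective hcon)
  · intro c hc j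
    obtain ⟨c', rfl⟩ := φ.surjective c
    rw [isCrit_conj φ hconj] at hc
    rw [hic]
    exact hne _ (hs2 c' hc j)
  · rw [← hφs, isCrit_conj φ hconj]
    exact hs1
  · rw [dense_iff_inter_open]
    intro V hV hVn
    obtain ⟨v, hv⟩ := hVn
    have hV' : IsOpen (φ ⁻¹' ((fun w : ℂ => (w : OnePoint ℂ)) '' V)) :=
      (OnePoint.isOpenEmbedding_coe.isOpenMap V hV).preimage φ.continuous
    have hVn' : (φ ⁻¹' ((fun w : ℂ => (w : OnePoint ℂ)) '' V)).Nonempty :=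
      ⟨φ.symm (v : OnePoint ℂ), ⟨v, hv, (φ.apply_symm_apply _).symm⟩⟩
    obtain ⟨x, hxV, z, n, hT⟩ := hbd.inter_open_nonempty _ hV' hVn'
    obtain ⟨U1, hU1, hxU1, hU1C⟩ := chartc_open hd hcop hdeg hT
    have hW : IsOpen (φ ⁻¹' ((fun w : ℂ => (w : OnePoint ℂ)) '' V) ∩ U1) := hV'.inter hU1
    have hWn : (φ ⁻¹' ((fun w : ℂ => (w : OnePoint ℂ)) '' V) ∩ U1).Nonempty := ⟨x, hxV, hxU1⟩
    have hden : DenseRange ((↑) : ℂ → OnePoint ℂ) := OnePoint.denseRange_coe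
    have hne2 : (((↑) : ℂ → OnePoint ℂ) ⁻¹'
        (φ ⁻¹' ((fun w : ℂ => (w : OnePoint ℂ)) '' V) ∩ U1)).Nonempty := by
      obtain ⟨y, hy⟩ := hden.exists_mem_open hW hWn
      exact ⟨y, hy⟩
    have hop : IsOpen (((↑) : ℂ → OnePoint ℂ) ⁻¹'
        (φ ⁻¹' ((fun w : ℂ => (w : OnePoint ℂ)) '' V) ∩ U1)) := hW.preimage OnePoint.continuous_coe
    have hbad : {b : ℂ | (b : OnePoint ℂ) ∈ ({x : OnePoint ℂ | ∃ j : ℕ, (Rf v0)^[j] x = s} ∪
        {x : OnePoint ℂ | ∃ j : ℕ, (Rf v0)^[j] x = z})}.Countable :=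
      countable_coe ((pre_countable hcop hd1 _).union (pre_countable hcop hd1 _))
    obtain ⟨y, ⟨hyV, hyU1⟩, hyS⟩ := (hbad.dense_compl ℂ).inter_open_nonempty _ hop hne2
    have hyS' : ¬ ((y : OnePoint ℂ) ∈ ({x : OnePoint ℂ | ∃ j : ℕ, (Rf v0)^[j] x = s} ∪
        {x : OnePoint ℂ | ∃ j : ℕ, (Rf v0)^[j] x = z})) := hyS
    rw [Set.mem_union, not_or] at hyS'
    obtain ⟨hy1, hy2⟩ := hyS'
    obtain ⟨w, hwV, hw⟩ := hyV
    refine ⟨w, hwV, ?_⟩
    have hTy : Ty12 (Rf v0) (y : OnePoint ℂ) z n := by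
      rcases hT with hT | hT
      · exact Or.inl ⟨hT.1, (hU1C _ hyU1).2.2⟩
      · exact Or.inr ⟨hT.1, hT.2.1, (hU1C _ hyU1).2.2, fun k hk => hy2 ⟨_, hk⟩⟩
    exact chartc_basin hφs hφ hφi hconj hs0 (x := (y : OnePoint ℂ)) (w := w) hw.symm hTy
      (fun j hj => hy1 ⟨j, hj⟩)
  · intro c hc
    obtain ⟨c', hc'⟩ := φ.surjective (c : OnePoint ℂ)
    have hcr : IsCrit (Rf v0) c' := by
      rw [← isCrit_conj φ hconj, hc']
      exact hc
    rcases h c' hcr with ⟨z, n, hT⟩ | ⟨m, hm⟩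
    · exact Or.inl (chartc_basin hφs hφ hφi hconj hs0 hc' hT (hs2 c' hcr))
    · have hcK : ∃ x ∈ KK, φ x = (c : OnePoint ℂ) := ⟨c', hKKi c' hcr 0, hc'⟩
      have hitK : ∀ j, ∃ x ∈ KK, φ x = ((it (Lin s v0) j c : ℂ) : OnePoint ℂ) := by
        intro j
        refine ⟨(Rf v0)^[j] c', hKKi c' hcr j, ?_⟩
        rw [← (horb c hcK).2 j, ← hc', hic]
      refine Or.inr ⟨hitK, m, ?_⟩
      have hxw : φ ((Rf v0)^[m] c') = ((it (Lin s v0) m c : ℂ) : OnePoint ℂ) := by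
        rw [← (horb c hcK).2 m, ← hc', hic]
      refine gr_conj hφs hφ hφi hconj hxw hm hcomp ?_ ?_
      · intro j
        have h1 := hitK (j + m)
        rw [it_add] at h1
        exact h1
      · intro j
        rw [← hxw, hic]
        exact hKfin _ (hKKit j _ (hKKi c' hcr m))

end Pool.Agent.H91.CE
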