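import Pool.Agent.H91.CE.CDefs
import Pool.Agent.H79.Par.CFinal

/-!
# Module HYPF: a criterion for hyperbolicity of a nearby map

PROOF. This is contained in the proof of `c_final` (H79/Par/CFinal): the finitely many zeros `c` of `wv v0` (critical points of `Rf v0`, `crit_of_wr`; finite since `crit_finite`), `no_crit_infty`,
the compact set `closedBall 0 R' \ ⋃ c, ball c (R c)` and `ev_compact`, `cop_near`: for `w` near `v0` the map is coprime of degree `d`, `∞` is not critical, and all zeros of `wv w` are in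
`⋃ c, ball c (R c)`. A critical point `z : ℂ` of `Rf w` satisfies `wv w z = 0` (`crit_coe`).
-/

set_option autoImplicit false

open Filter Topology Polynomial Metric Set

namespace Pool.Agent.H91.CE

open Pool.Agent.H44.Fatou Pool.Agent.H32.BT Pool.Agent.H79.Eul Pool.Agent.H79.Par
open Pool.Agent.H35.RL Pool.Agent.H35.EX

theorem hyp_near {d : ℕ} (hd : 2 ≤ d) {v0 : E d} (hcop : IsCoprime (pol v0.1) (pol v0.2))
    (hdeg : max (pol v0.1).natDegree (pol v0.2).natDegree = d)
    (hinf : ¬ IsCrit (Rf v0) OnePoint.infty) {R : ℂ → ℝ} (hR : ∀ c : ℂ, wv v0 c = 0 → 0 < R c) :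
    ∀ᶠ w in 𝓝 v0, (∀ c : ℂ, wv v0 c = 0 → ∀ z ∈ ball c (R c), wv w z = 0 →
      Att (Rf w) (z : OnePoint ℂ)) → HypDeg w := by
  have hd1 : 1 ≤ max (pol v0.1).natDegree (pol v0.2).natDegree := by rw [hdeg]; omega
  have h0 : wv (rv v0) 0 ≠ 0 := by
    intro h
    apply hinf
    apply crit_infty_of_wr hcop hd1
    have hdg : dg (pol v0.1) (pol v0.2) = d := hdeg
    rw [hdg, ← wv_cf (natDegree_reflect_le' (pol_deg _)) (natDegree_reflect_le' (pol_deg _)),
      ← rv_cf, cf_pol, cf_pol]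
    exact h
  obtain ⟨R', hR', hev⟩ := no_crit_infty v0 h0
  -- the compact set
  have hcomp : IsCompact (closedBall (0 : ℂ) R' \ ⋃ c : {c : ℂ // wv v0 c = 0}, ball (c : ℂ) (R c)) :=
    (isCompact_closedBall (0 : ℂ) R').diff (isOpen_iUnion fun c => isOpen_ball)
  have hloc : ∀ z ∈ closedBall (0 : ℂ) R' \ ⋃ c : {c : ℂ // wv v0 c = 0}, ball (c : ℂ) (R c),
      ∀ᶠ y : E d × ℂ in 𝓝 v0 ×ˢ 𝓝 z, wv y.1 y.2 ≠ 0 := by
    intro z hz
    have hz0 : wv v0 z ≠ 0 := by
      intro h
      apply hz.2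
      rw [mem_iUnion]
      exact ⟨⟨z, h⟩, mem_ball_self (hR z h)⟩
    rw [← nhds_prod_eq]
    have h1 := (wv_cont (d := d)).tendsto (v0, z)
    exact h1.eventually_ne hz0
  have hall := ev_compact (p := fun (w : E d) z => wv w z ≠ 0) hcomp hloc
  filter_upwards [hall, hev, cop_near hcop hdeg (by omega)] with w h1 h2 h3 hgood
  refine ⟨h3.1, h3.2, fun c hc => ?_⟩
  induction c using OnePoint.rec with
  | infty =>
    exfalso
    have h4 := crit_infty hc
    have h5 : dg (pol w.1) (pol w.2) = d := h3.2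
    rw [h5, ← wv_cf (natDegree_reflect_le' (pol_deg _)) (natDegree_reflect_le' (pol_deg _)),
      ← rv_cf, cf_pol, cf_pol] at h4
    exact h2.2 h4
  | coe z =>
    have hW := crit_coe hc
    rw [← wv_cf (pol_deg _) (pol_deg _), cf_pol, cf_pol] at hW
    by_cases hz : z ∈ ⋃ c : {c : ℂ // wv v0 c = 0}, ball (c : ℂ) (R c)
    · rw [mem_iUnion] at hz
      obtain ⟨c, hzc⟩ := hz
      exact hgood c c.2 z hzc hW
    · exfalso
      refine h1 z ⟨?_, hz⟩ hW
      rw [mem_closedBall_zero_iff]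
      by_contra hcon2
      exact h2.1 z (not_le.1 hcon2) hW

theorem wv_ne {d : ℕ} (hd : 2 ≤ d) {v0 : E d} (hcop : IsCoprime (pol v0.1) (pol v0.2))
    (hdeg : max (pol v0.1).natDegree (pol v0.2).natDegree = d) :
    {c : ℂ | wv v0 c = 0}.Finite := by
  have hd1 : 1 ≤ max (pol v0.1).natDegree (pol v0.2).natDegree := by rw [hdeg]; omega
  have hKf : {c : ℂ | IsCrit (Rf v0) (c : OnePoint ℂ)}.Finite :=
    (crit_finite hcop hd1).preimage (OnePoint.coe_injective.injOn)
  refine hKf.subset ?_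
  intro z hz
  apply crit_of_wr hcop hd1
  rw [← wv_cf (pol_deg _) (pol_deg _), cf_pol, cf_pol]
  exact hz

end Pool.Agent.H91.CE
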