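import Pool.Agent.H91.CE.SCALE
import Pool.Agent.H35.EX.Ascoli

/-!
# Module LIMS: limits of the rescaled runs

PROOF. `ρ0, r1, L` from `run_unif`, `s` from `scales`; for every `j` a scale `ρ_j < 1 / (j + 1)` and times `n k j` from `scales`. Let
`ρ'_j = 3 / 4 * ρ_j` and `Φ k j X = g k (n k j) (ρ'_j * X)`. On `ball 0 (4 / 3)` it is holomorphic with norm at most `R + 2 L r1`, so on `ball 0 1` its derivative is
at most `3 (R + 2 L r1)` (Cauchy, balls of radius `1 / 3`) and it is Lipschitz there (`Convex.norm_image_sub_le_of_norm_deriv_le`). `ascoli` for all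
`k` (finitely many: extract successively, or apply `ascoli` by induction on the finite type, or use one compactness argument for the
product) gives a common subsequence `σ` and limits `Ψ k` on `ball 0 1`. Replace `ρ`, `n k` by `ρ' ∘ σ`, `n k ∘ σ`. With the common Lipschitz constant the
pointwise convergence is `Tendsto .. (atTop ×ˢ 𝓝 η)` (`‖Φ j η' - Ψ η‖ ≤ Λ ‖η' - η‖ + ‖Φ j η - Ψ η‖`), so it is locally uniform and `Ψ k` is holomorphic
(`TendstoLocallyUniformlyOn.differentiableOn`; `tendstoLocallyUniformlyOn_iff..`). Not constant: the points `t_j ∈ ball 0 (ρ_j / 2)` of `scales` give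
`X_j = t_j / ρ'_j ∈ closedBall 0 (2 / 3)` with `‖Φ k j X_j - Φ k j 0‖ ≥ s`; a limit point `X` of the `X_j` has `‖Ψ k X - Ψ k 0‖ ≥ s`.
-/

set_option autoImplicit false

open Filter Topology Polynomial Metric Set

namespace Pool.Agent.H91.CE

open Pool.Agent.H44.Fatou Pool.Agent.H32.BT Pool.Agent.H79.Eul Pool.Agent.H79.Par
open Pool.Agent.H35.RL Pool.Agent.H35.EX

/-- a common subsequence for finitely many sequences -/
private theorem lims_ascoli {ι : Type} [DecidableEq ι] {Φ : ι → ℕ → ℂ → ℂ} {C Λ : ℝ}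
    (hb : ∀ k j, ∀ X ∈ ball (0 : ℂ) 1, ‖Φ k j X‖ ≤ C)
    (hL : ∀ k j, ∀ X ∈ ball (0 : ℂ) 1, ∀ Y ∈ ball (0 : ℂ) 1,
      ‖Φ k j X - Φ k j Y‖ ≤ Λ * ‖X - Y‖) (S : Finset ι) :
    ∃ (σ : ℕ → ℕ) (Ψ : ι → ℂ → ℂ), StrictMono σ ∧
      ∀ k ∈ S, ∀ X ∈ ball (0 : ℂ) 1, Tendsto (fun j => Φ k (σ j) X) atTop (𝓝 (Ψ k X)) := by
  induction S using Finset.induction_on with
  | empty => exact ⟨id, fun _ _ => 0, strictMono_id, fun k hk => absurd hk (Finset.notMem_empty k)⟩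
  | insert a S ha ih =>
    obtain ⟨σ, Ψ, hσ, hΨ⟩ := ih
    obtain ⟨τ, Ψ', hτ, hΨ'⟩ := ascoli (Φ := fun j => Φ a (σ j)) (R := 1) (C := C) (L := Λ) one_pos
      (Filter.Eventually.of_forall fun j => hb a (σ j))
      (Filter.Eventually.of_forall fun j => hL a (σ j))
    refine ⟨fun j => σ (τ j), fun k => if k = a then Ψ' else Ψ k, hσ.comp hτ, ?_⟩
    intro k hk X hX
    by_cases hka : k = a
    · subst hka
      beta_reduce
      rw [if_pos rfl]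
      exact hΨ' X hX
    · beta_reduce
      rw [if_neg hka]
      have hkS : k ∈ S := (Finset.mem_insert.mp hk).resolve_left hka
      exact (hΨ k hkS X hX).comp hτ.tendsto_atTop

theorem lims {ι : Type} [Finite ι] {g : ι → ℕ → ℂ → ℂ} {ok : ι → ℕ → ℂ → Prop} {M : ℕ} {R : ℝ}
    (h : ∀ k, ∃ ρ0 r1 L : ℝ, Run (g k) (ok k) M ρ0 r1 L) (hR : ∀ k n, ‖g k n 0‖ ≤ R) :
    ∃ (ρ : ℕ → ℝ) (n : ι → ℕ → ℕ) (Ψ : ι → ℂ → ℂ), Lim g ok ρ n Ψ := by
  classical
  have hft : Fintype ι := Fintype.ofFinite ι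
  obtain ⟨ρ0, r1, L, hrun⟩ := run_unif h
  obtain ⟨s, hs, hsc⟩ := scales hrun
  have key : ∀ j : ℕ, ∃ ρ : ℝ, 0 < ρ ∧ ρ < 1 / ((j : ℝ) + 1) ∧ ∀ k, ∃ n : ℕ,
      DifferentiableOn ℂ (g k n) (ball 0 ρ) ∧ (∀ i < n, ∀ t ∈ ball (0 : ℂ) ρ, ok k i t) ∧
      (∀ t ∈ ball (0 : ℂ) ρ, ‖g k n t - g k n 0‖ ≤ 2 * L * r1) ∧
      ∃ t ∈ ball (0 : ℂ) (ρ / 2), s ≤ ‖g k n t - g k n 0‖ := fun j => hsc _ (by positivity)
  choose r hr0 hr1 n hn using key
  -- the rescaled maps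
  set Φ : ι → ℕ → ℂ → ℂ := fun k j X => g k (n j k) (((3 / 4 * r j : ℝ) : ℂ) * X) with hΦ
  have hnorm : ∀ j, ‖((3 / 4 * r j : ℝ) : ℂ)‖ = 3 / 4 * r j := fun j => by
    rw [Complex.norm_real, Real.norm_eq_abs, abs_of_pos (by have := hr0 j; positivity)]
  have hmem : ∀ j X, X ∈ ball (0 : ℂ) (4 / 3) → ((3 / 4 * r j : ℝ) : ℂ) * X ∈ ball (0 : ℂ) (r j) := by
    intro j X hX
    rw [mem_ball_zero_iff] at hX ⊢
    rw [norm_mul, hnorm]
    have := hr0 j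
    nlinarith
  set B : ℝ := R + 2 * L * r1 with hB
  have hΦb : ∀ k j, ∀ X ∈ ball (0 : ℂ) (4 / 3), ‖Φ k j X‖ ≤ B := by
    intro k j X hX
    have h1 := (hn j k).2.2.1 _ (hmem j X hX)
    have h2 := hR k (n j k)
    calc ‖Φ k j X‖ = ‖(g k (n j k) (((3 / 4 * r j : ℝ) : ℂ) * X) - g k (n j k) 0)
          + g k (n j k) 0‖ := by rw [sub_add_cancel]
      _ ≤ ‖g k (n j k) (((3 / 4 * r j : ℝ) : ℂ) * X) - g k (n j k) 0‖ + ‖g k (n j k) 0‖ :=
          norm_add_le _ _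
      _ ≤ B := by rw [hB]; linarith
  have hΦd : ∀ k j, DifferentiableOn ℂ (Φ k j) (ball 0 (4 / 3)) := by
    intro k j
    have h1 : DifferentiableOn ℂ (fun X : ℂ => ((3 / 4 * r j : ℝ) : ℂ) * X) (ball 0 (4 / 3)) := by
      fun_prop
    exact (hn j k).1.comp h1 (fun X hX => hmem j X hX)
  have hsub : ball (0 : ℂ) 1 ⊆ ball (0 : ℂ) (4 / 3) := ball_subset_ball (by norm_num)
  have hΦderiv : ∀ k j, ∀ X ∈ ball (0 : ℂ) 1, ‖deriv (Φ k j) X‖ ≤ B / (1 / 4) := by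
    intro k j X hX
    have hcl : closedBall X (1 / 4) ⊆ ball (0 : ℂ) (4 / 3) := by
      intro Y hY
      rw [mem_closedBall, dist_eq_norm] at hY
      rw [mem_ball_zero_iff] at hX ⊢
      calc ‖Y‖ = ‖(Y - X) + X‖ := by rw [sub_add_cancel]
        _ ≤ ‖Y - X‖ + ‖X‖ := norm_add_le _ _
        _ < 4 / 3 := by linarith
    refine Complex.norm_deriv_le_of_forall_mem_sphere_norm_le (by norm_num) ?_ ?_
    · refine DifferentiableOn.diffContOnCl ?_
      refine (hΦd k j).mono ?_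
      rw [closure_ball _ (by norm_num)]
      exact hcl
    · intro Y hY
      exact hΦb k j Y (hcl (sphere_subset_closedBall hY))
  set Λ : ℝ := B / (1 / 4) with hΛ
  have hΦL : ∀ k j, ∀ X ∈ ball (0 : ℂ) 1, ∀ Y ∈ ball (0 : ℂ) 1,
      ‖Φ k j X - Φ k j Y‖ ≤ Λ * ‖X - Y‖ := by
    intro k j X hX Y hY
    refine Convex.norm_image_sub_le_of_norm_deriv_le (𝕜 := ℂ) (s := ball (0 : ℂ) 1) ?_
      (hΦderiv k j) (convex_ball 0 1) hY hX
    intro Z hZ
    exact (hΦd k j).differentiableAt (isOpen_ball.mem_nhds (hsub hZ))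
  obtain ⟨σ, Ψ, hσ, hΨ'⟩ := lims_ascoli (fun k j X hX => hΦb k j X (hsub hX)) hΦL
    (Finset.univ : Finset ι)
  have hΨ : ∀ k, ∀ X ∈ ball (0 : ℂ) 1, Tendsto (fun j => Φ k (σ j) X) atTop (𝓝 (Ψ k X)) :=
    fun k => hΨ' k (Finset.mem_univ k)
  -- the joint limit
  have hlim : ∀ k, ∀ η ∈ ball (0 : ℂ) 1,
      Tendsto (fun w : ℕ × ℂ => Φ k (σ w.1) w.2) (atTop ×ˢ 𝓝 η) (𝓝 (Ψ k η)) := by
    intro k η hη
    rw [tendsto_iff_norm_sub_tendsto_zero]
    have h1 : Tendsto (fun w : ℕ × ℂ => Λ * ‖w.2 - η‖ + ‖Φ k (σ w.1) η - Ψ k η‖)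
        (atTop ×ˢ 𝓝 η) (𝓝 (Λ * 0 + 0)) := by
      refine Tendsto.add (Tendsto.const_mul _ ?_) ?_
      · have h2 : Tendsto (fun x : ℂ => ‖x - η‖) (𝓝 η) (𝓝 0) :=
          tendsto_iff_norm_sub_tendsto_zero.1 tendsto_id
        exact h2.comp tendsto_snd
      · exact (tendsto_iff_norm_sub_tendsto_zero.1 (hΨ k η hη)).comp tendsto_fst
    rw [mul_zero, add_zero] at h1
    refine squeeze_zero' (Filter.Eventually.of_forall fun w => norm_nonneg _) ?_ h1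
    have h3 : ∀ᶠ x in 𝓝 η, x ∈ ball (0 : ℂ) 1 := isOpen_ball.mem_nhds hη
    filter_upwards [h3.prod_inr (atTop : Filter ℕ)] with w hw
    calc ‖Φ k (σ w.1) w.2 - Ψ k η‖
        = ‖(Φ k (σ w.1) w.2 - Φ k (σ w.1) η) + (Φ k (σ w.1) η - Ψ k η)‖ := by
          rw [sub_add_sub_cancel]
      _ ≤ ‖Φ k (σ w.1) w.2 - Φ k (σ w.1) η‖ + ‖Φ k (σ w.1) η - Ψ k η‖ := norm_add_le _ _
      _ ≤ Λ * ‖w.2 - η‖ + ‖Φ k (σ w.1) η - Ψ k η‖ :=
          add_le_add (hΦL k (σ w.1) w.2 hw η hη) le_rfl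
  have hΨL : ∀ k, ∀ X ∈ ball (0 : ℂ) 1, ∀ Y ∈ ball (0 : ℂ) 1,
      ‖Ψ k X - Ψ k Y‖ ≤ Λ * ‖X - Y‖ := by
    intro k X hX Y hY
    exact le_of_tendsto ((hΨ k X hX).sub (hΨ k Y hY)).norm
      (Filter.Eventually.of_forall fun j => hΦL k (σ j) X hX Y hY)
  have hn0 : ∀ j, (j : ℕ) ≤ σ j := fun j => hσ.le_apply
  refine ⟨fun j => 3 / 4 * r (σ j), fun k j => n (σ j) k, Ψ, ?_⟩
  refine ⟨?_, ?_, ?_, ?_, ?_, ?_, ?_⟩
  · intro j
    have := hr0 (σ j)
    positivity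
  · refine squeeze_zero (fun j => by have := hr0 (σ j); positivity) (fun j => ?_)
      tendsto_one_div_add_atTop_nhds_zero_nat
    have h1 := hr1 (σ j)
    have h2 : (1 : ℝ) / ((σ j : ℝ) + 1) ≤ 1 / ((j : ℝ) + 1) := by
      apply one_div_le_one_div_of_le (by positivity)
      have : (j : ℝ) ≤ (σ j : ℝ) := by exact_mod_cast hn0 j
      linarith
    have h3 := hr0 (σ j)
    linarith
  · intro k
    have hloc : TendstoLocallyUniformlyOn (fun j => Φ k (σ j)) (Ψ k) atTop (ball 0 1) := by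
      rw [Metric.tendstoLocallyUniformlyOn_iff]
      intro ε hε x hx
      have hδ : 0 < ε / (4 * (|Λ| + 1)) := by positivity
      refine ⟨ball x (ε / (4 * (|Λ| + 1))) ∩ ball 0 1,
        inter_mem (mem_nhdsWithin_of_mem_nhds (ball_mem_nhds x hδ)) self_mem_nhdsWithin, ?_⟩
      have h1 := (Metric.tendsto_atTop.1 (hΨ k x hx)) (ε / 2) (by positivity)
      obtain ⟨N, hN⟩ := h1
      filter_upwards [eventually_ge_atTop N] with j hj
      rintro y ⟨hy1, hy2⟩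
      have h2 := hN j hj
      rw [dist_eq_norm] at h2 ⊢
      rw [mem_ball, dist_eq_norm] at hy1
      have h3 := hΨL k y hy2 x hx
      have h4 := hΦL k (σ j) x hx y hy2
      have h5 : Λ * ‖y - x‖ ≤ ε / 4 := by
        calc Λ * ‖y - x‖ ≤ (|Λ| + 1) * ‖y - x‖ := by
              refine mul_le_mul_of_nonneg_right ?_ (norm_nonneg _)
              linarith [le_abs_self Λ]
          _ ≤ (|Λ| + 1) * (ε / (4 * (|Λ| + 1))) := by
              refine mul_le_mul_of_nonneg_left hy1.le (by positivity)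
          _ = ε / 4 := by field_simp
      have h6 : ‖x - y‖ = ‖y - x‖ := norm_sub_rev _ _
      rw [h6] at h4
      have h5' : Λ * ‖y - x‖ < ε / 4 ∨ Λ * ‖y - x‖ = ε / 4 := lt_or_eq_of_le h5
      calc ‖Ψ k y - Φ k (σ j) y‖
          = ‖(Ψ k y - Ψ k x) + (Ψ k x - Φ k (σ j) x) + (Φ k (σ j) x - Φ k (σ j) y)‖ := by
            congr 1
            ring
        _ ≤ ‖(Ψ k y - Ψ k x) + (Ψ k x - Φ k (σ j) x)‖ + ‖Φ k (σ j) x - Φ k (σ j) y‖ :=
            norm_add_le _ _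
        _ ≤ ‖Ψ k y - Ψ k x‖ + ‖Ψ k x - Φ k (σ j) x‖ + ‖Φ k (σ j) x - Φ k (σ j) y‖ :=
            add_le_add (norm_add_le _ _) le_rfl
        _ < ε := by
            rw [norm_sub_rev (Ψ k x)]
            linarith
    refine hloc.differentiableOn (Filter.Eventually.of_forall fun j => ?_) isOpen_ball
    exact (hΦd k (σ j)).mono hsub
  · intro k hcst
    have ht : ∀ j, ∃ t ∈ ball (0 : ℂ) (r j / 2), s ≤ ‖g k (n j k) t - g k (n j k) 0‖ :=
      fun j => (hn j k).2.2.2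
    choose t ht1 ht2 using ht
    set X : ℕ → ℂ := fun j => t j / ((3 / 4 * r j : ℝ) : ℂ) with hX
    have hne : ∀ j, ((3 / 4 * r j : ℝ) : ℂ) ≠ 0 := by
      intro j
      have := hr0 j
      rw [Ne, Complex.ofReal_eq_zero]
      positivity
    have hXm : ∀ j, X j ∈ closedBall (0 : ℂ) (2 / 3) := by
      intro j
      rw [mem_closedBall_zero_iff]
      show ‖t j / ((3 / 4 * r j : ℝ) : ℂ)‖ ≤ 2 / 3
      have h1 := ht1 j
      rw [mem_ball_zero_iff] at h1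
      have h2 := hr0 j
      rw [norm_div, hnorm, div_le_iff₀ (by positivity)]
      linarith
    have hΦX : ∀ j, Φ k j (X j) = g k (n j k) (t j) := by
      intro j
      show g k (n j k) (((3 / 4 * r j : ℝ) : ℂ) * (t j / ((3 / 4 * r j : ℝ) : ℂ))) = _
      rw [mul_div_cancel₀ _ (hne j)]
    have hΦ0 : ∀ j, Φ k j 0 = g k (n j k) 0 := by
      intro j
      show g k (n j k) (((3 / 4 * r j : ℝ) : ℂ) * 0) = _
      rw [mul_zero]
    obtain ⟨Y, hY, τ, hτ, hconv⟩ := (isCompact_closedBall (0 : ℂ) (2 / 3)).tendsto_subseq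
      (fun j => hXm (σ j))
    have hY1 : Y ∈ ball (0 : ℂ) 1 := by
      rw [mem_closedBall_zero_iff] at hY
      rw [mem_ball_zero_iff]
      linarith
    have h01 : (0 : ℂ) ∈ ball (0 : ℂ) 1 := mem_ball_self one_pos
    have h1 : Tendsto (fun j => Φ k (σ (τ j)) (X (σ (τ j)))) atTop (𝓝 (Ψ k Y)) :=
      (hlim k Y hY1).comp (hτ.tendsto_atTop.prodMk hconv)
    have h2 : Tendsto (fun j => Φ k (σ (τ j)) 0) atTop (𝓝 (Ψ k 0)) :=
      (hΨ k 0 h01).comp hτ.tendsto_atTop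
    have h3 := (h1.sub h2).norm
    have h4 : s ≤ ‖Ψ k Y - Ψ k 0‖ := by
      refine ge_of_tendsto h3 (Filter.Eventually.of_forall fun j => ?_)
      rw [hΦX, hΦ0]
      exact ht2 (σ (τ j))
    rw [hcst Y hY1, sub_self, norm_zero] at h4
    exact absurd h4 (not_le.mpr hs)
  · intro k j i hi t ht
    refine (hn (σ j) k).2.1 i hi t ?_
    refine ball_subset_ball ?_ ht
    have := hr0 (σ j)
    linarith
  · intro k j
    refine (hn (σ j) k).1.mono (ball_subset_ball ?_)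
    have := hr0 (σ j)
    linarith
  · intro k η hη
    exact hlim k η hη

end Pool.Agent.H91.CE
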