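import Pool.Agent.H91.CE.CDefs

/-!
# Module COUNT: good indices of finitely many slowly growing monotone sequences

PROOF. `C ≥ 0` may be assumed. Take `τ` with `(card ι) * C + 1 ≤ τ`. If the conclusion fails for `j0`, then for every `j ≥ j0` some `k`
has `n k (j + 1) ≥ n k j + τ + 1` and the others `n k (j + 1) ≥ n k j`; so `S j = ∑ k, n k j` satisfies
`S (j + 1) ≥ S j + τ`, `S (j0 + i) ≥ i τ`, while `S (j0 + i) ≤ card ι * C * (j0 + i + 1)`: a contradiction for large `i`.
-/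

set_option autoImplicit false

open Filter Topology Polynomial Metric Set

namespace Pool.Agent.H91.CE

open Pool.Agent.H44.Fatou Pool.Agent.H32.BT Pool.Agent.H79.Eul Pool.Agent.H79.Par
open Pool.Agent.H35.RL Pool.Agent.H35.EX

theorem count {ι : Type} [Finite ι] {n : ι → ℕ → ℕ} {C : ℝ} (hmono : ∀ k j, n k j ≤ n k (j + 1))
    (hC : ∀ k j, (n k j : ℝ) ≤ C * (j + 1)) :
    ∃ τ : ℕ, ∀ j0 : ℕ, ∃ j ≥ j0, ∀ k, n k (j + 1) ≤ n k j + τ := by
  classical
  haveI := Fintype.ofFinite ι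
  obtain ⟨τ, hτ⟩ := exists_nat_ge ((Fintype.card ι : ℝ) * |C| + 1)
  refine ⟨τ, fun j0 => ?_⟩
  by_contra hcon
  push Not at hcon
  have hS : ∀ i : ℕ, i * τ ≤ ∑ k, n k (j0 + i) := by
    intro i
    induction i with
    | zero => simp
    | succ i ih =>
      obtain ⟨k, hk⟩ := hcon (j0 + i) (by omega)
      have h1 : ∑ k, n k (j0 + i) + τ ≤ ∑ k, n k (j0 + i + 1) := by
        rw [← Finset.add_sum_erase _ _ (Finset.mem_univ k),
          ← Finset.add_sum_erase _ (fun k => n k (j0 + i + 1)) (Finset.mem_univ k)]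
        have h2 := Finset.sum_le_sum
          (fun k' (_ : k' ∈ Finset.univ.erase k) => hmono k' (j0 + i))
        omega
      have h3 : (i + 1) * τ = i * τ + τ := by ring
      have h4 : j0 + (i + 1) = j0 + i + 1 := by ring
      rw [h3, h4]
      omega
  have hK : 0 ≤ (Fintype.card ι : ℝ) * |C| := by positivity
  have hT : ∀ i : ℕ, (i : ℝ) * τ ≤ (Fintype.card ι : ℝ) * |C| * (j0 + i + 1) := by
    intro i
    have h1 : ((i * τ : ℕ) : ℝ) ≤ ((∑ k, n k (j0 + i) : ℕ) : ℝ) := by exact_mod_cast hS i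
    push_cast at h1
    refine h1.trans ?_
    have h2 : ∀ k ∈ (Finset.univ : Finset ι), (n k (j0 + i) : ℝ) ≤ |C| * (j0 + i + 1) := by
      intro k _
      have h3 := hC k (j0 + i)
      push_cast at h3
      refine h3.trans (mul_le_mul_of_nonneg_right (le_abs_self C) (by positivity))
    refine (Finset.sum_le_card_nsmul _ _ _ h2).trans ?_
    rw [Finset.card_univ, nsmul_eq_mul]
    linarith
  obtain ⟨i, hi⟩ := exists_nat_gt ((Fintype.card ι : ℝ) * |C| * (j0 + 1))
  have h1 := hT i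
  have hi0 : (0 : ℝ) ≤ i := Nat.cast_nonneg i
  nlinarith

end Pool.Agent.H91.CE
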