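import Pool.Agent.H91.CE.EXIT
import Pool.Agent.H91.CE.COUNT

/-!
# Module SCALE: good scales

PROOF. If `ι` is empty everything is trivial. Let `ρs = min ρ0 (r1 / L)` (positive, from any `Run`), `ρ_j = ρs / 2 ^ j`; `n k j` the exit time of `exit_time`
for `ρ_j` (the least `n` with `¬ ∀ t ∈ ball 0 ρ_j, .. ≤ r1`: characterised by the last two conditions, so unique and monotone in `j`: the ball
of `j + 1` is smaller). `n k j ≤ C (j + 1)` (a constant for all `k`, `ι` finite; `log (1 / ρ_j) = log (1 / ρs) + j log 2`). `count` gives `τ`. Take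
`s > 0` with `L ^ τ * (s + τ * s) ≤ r1`. Given `ρ'`, take `j0` with `ρ_j < ρ'` and `ρ_j ≤ s` for `j ≥ j0`, `j ≥ j0` from `count`, and `ρ = ρ_j`, `n = n k j`.
`stay_diff`, `exit_bound` give the first three conclusions. If the last one fails for `k`, then `‖g n t - g n 0‖ ≤ s` on
`ball 0 (ρ_j / 2) = ball 0 ρ_(j+1)`, `Stay g r1 ρ_(j+1) n` (smaller ball), so `exit_slow` (`L ^ τ * (s + τ * ρ_(j+1)) ≤ r1`) gives
`Stay g r1 ρ_(j+1) (n + τ + 1)`, so `n k (j + 1) ≥ n k j + τ + 1` against `count`. `Run.mono`: unfold, all conditions are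
inherited (in `start`, `step` use `ball_subset_ball` and monotonicity in `L`).
-/

set_option autoImplicit false

open Filter Topology Polynomial Metric Set

namespace Pool.Agent.H91.CE

open Pool.Agent.H44.Fatou Pool.Agent.H32.BT Pool.Agent.H79.Eul Pool.Agent.H79.Par
open Pool.Agent.H35.RL Pool.Agent.H35.EX

theorem Run.mono {g : ℕ → ℂ → ℂ} {ok : ℕ → ℂ → Prop} {M : ℕ} {ρ0 r1 L ρ0' r1' L' : ℝ}
    (h : Run g ok M ρ0 r1 L) (h1 : 0 < ρ0') (h2 : ρ0' ≤ ρ0) (h3 : 0 < r1') (h4 : r1' ≤ r1)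
    (h5 : L ≤ L') : Run g ok M ρ0' r1' L' where
  hρ0 := h1
  hρ1 := h2.trans h.hρ1
  hr1 := h3
  hL := h.hL.trans h5
  hM := h.hM
  start := h.start.mono (ball_subset_ball h2)
  start' t ht := (h.start' t (ball_subset_ball h2 ht)).trans
    (mul_le_mul_of_nonneg_right h5 (norm_nonneg t))
  step n ρ D hρ hρ0 hD hD1 hd hb := by
    obtain ⟨e1, e2, e3⟩ := h.step n ρ D hρ (hρ0.trans h2) hD (hD1.trans h4) hd hb
    exact ⟨e1, e2, fun t ht => (e3 t ht).trans (mul_le_mul_of_nonneg_right h5 (by positivity))⟩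
  grow := h.grow

theorem run_unif {ι : Type} [Finite ι] {g : ι → ℕ → ℂ → ℂ} {ok : ι → ℕ → ℂ → Prop} {M : ℕ}
    (h : ∀ k, ∃ ρ0 r1 L : ℝ, Run (g k) (ok k) M ρ0 r1 L) :
    ∃ ρ0 r1 L : ℝ, ∀ k, Run (g k) (ok k) M ρ0 r1 L := by
  rcases isEmpty_or_nonempty ι with hι | hι
  · exact ⟨0, 0, 0, fun k => hι.elim k⟩
  choose ρ0 r1 L hr using h
  obtain ⟨k1, hk1⟩ := Finite.exists_min ρ0
  obtain ⟨k2, hk2⟩ := Finite.exists_min r1
  obtain ⟨k3, hk3⟩ := Finite.exists_max L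
  exact ⟨ρ0 k1, r1 k2, L k3, fun k => (hr k).mono (hr k1).hρ0 (hk1 k) (hr k2).hr1 (hk2 k) (hk3 k)⟩

theorem scales {ι : Type} [Finite ι] {g : ι → ℕ → ℂ → ℂ} {ok : ι → ℕ → ℂ → Prop} {M : ℕ}
    {ρ0 r1 L : ℝ} (h : ∀ k, Run (g k) (ok k) M ρ0 r1 L) :
    ∃ s : ℝ, 0 < s ∧ ∀ ρ' : ℝ, 0 < ρ' → ∃ ρ : ℝ, 0 < ρ ∧ ρ < ρ' ∧ ∀ k, ∃ n : ℕ,
      DifferentiableOn ℂ (g k n) (ball 0 ρ) ∧ (∀ i < n, ∀ t ∈ ball (0 : ℂ) ρ, ok k i t) ∧
      (∀ t ∈ ball (0 : ℂ) ρ, ‖g k n t - g k n 0‖ ≤ 2 * L * r1) ∧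
      ∃ t ∈ ball (0 : ℂ) (ρ / 2), s ≤ ‖g k n t - g k n 0‖ := by
  classical
  rcases isEmpty_or_nonempty ι with hι | hι
  · exact ⟨1, one_pos, fun ρ' hρ' => ⟨ρ' / 2, by positivity, by linarith, fun k => hι.elim k⟩⟩
  obtain ⟨k0⟩ := id hι
  have hr1 := (h k0).hr1
  have hρ0 := (h k0).hρ0
  have hρ01 := (h k0).hρ1
  have hL := (h k0).hL
  have hL0 : 0 < L := by linarith
  set ρs := min ρ0 (r1 / L) with hρs
  have hρs0 : 0 < ρs := lt_min hρ0 (div_pos hr1 hL0)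
  have hρs1 : ρs ≤ ρ0 := min_le_left _ _
  have hρs2 : L * ρs ≤ r1 := by
    have h1 : ρs ≤ r1 / L := min_le_right _ _
    rw [le_div_iff₀ hL0] at h1
    linarith
  set R : ℕ → ℝ := fun j => ρs / 2 ^ j with hRdef
  have hR : ∀ j, 0 < R j := fun j => by positivity
  have hRs : ∀ j, R j ≤ ρs := fun j => div_le_self hρs0.le (one_le_pow₀ (by norm_num))
  have hRL : ∀ j, L * R j ≤ r1 := fun j =>
    (mul_le_mul_of_nonneg_left (hRs j) hL0.le).trans hρs2
  have hR2 : ∀ j, R (j + 1) = R j / 2 := by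
    intro j
    simp only [hRdef]
    rw [pow_succ, div_div]
  choose Ck hCk hex using fun k => exit_time (h k)
  choose n hn1 hn2 hn3 hn4 using fun k j => hex k (R j) (hR j) ((hRs j).trans hρs1) (hRL j)
  have hmono : ∀ k j, n k j ≤ n k (j + 1) := by
    intro k j
    by_contra hlt
    push Not at hlt
    refine hn4 k (j + 1) (fun t ht => hn3 k j _ hlt t (ball_subset_ball ?_ ht))
    rw [hR2]
    have := hR j
    linarith
  obtain ⟨k1, hk1⟩ := Finite.exists_max Ck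
  have hC : ∀ k j, (n k j : ℝ) ≤ Ck k1 * (2 + |Real.log (1 / ρs)|) * (j + 1) := by
    intro k j
    refine (hn2 k j).trans ?_
    have h1 : Real.log (1 / R j) = Real.log (1 / ρs) + j * Real.log 2 := by
      simp only [hRdef]
      rw [one_div_div, div_eq_mul_inv, mul_comm, ← one_div,
        Real.log_mul (by positivity) (by positivity), Real.log_pow]
    have h2 : Real.log 2 ≤ 1 := by
      have := Real.log_two_lt_d9
      linarith
    have h3 : 0 ≤ Real.log 2 := Real.log_nonneg (by norm_num)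
    have hj : (0 : ℝ) ≤ j := Nat.cast_nonneg j
    have h4 : 1 + Real.log (1 / R j) ≤ (2 + |Real.log (1 / ρs)|) * (j + 1) := by
      rw [h1]
      have h5 := le_abs_self (Real.log (1 / ρs))
      have h6 : (j : ℝ) * Real.log 2 ≤ j := by nlinarith
      nlinarith [mul_nonneg (abs_nonneg (Real.log (1 / ρs))) hj]
    have h7 : 0 ≤ (2 + |Real.log (1 / ρs)|) * (j + 1) := by positivity
    calc Ck k * (1 + Real.log (1 / R j)) ≤ Ck k * ((2 + |Real.log (1 / ρs)|) * (j + 1)) :=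
          mul_le_mul_of_nonneg_left h4 (hCk k).le
      _ ≤ Ck k1 * ((2 + |Real.log (1 / ρs)|) * (j + 1)) :=
          mul_le_mul_of_nonneg_right (hk1 k) h7
      _ = _ := by ring
  obtain ⟨τ, hτ⟩ := count hmono hC
  have hLτ : 0 < L ^ τ := by positivity
  have hs0 : 0 < r1 / (L ^ τ * (1 + τ)) := by positivity
  refine ⟨r1 / (L ^ τ * (1 + τ)), hs0, fun ρ' hρ' => ?_⟩
  set s := r1 / (L ^ τ * (1 + τ)) with hs
  have hsr : L ^ τ * (s + τ * s) = r1 := by
    rw [hs]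
    field_simp
  have hRt : Tendsto R atTop (𝓝 0) := by
    have h1 := (tendsto_pow_atTop_nhds_zero_of_lt_one (show (0 : ℝ) ≤ 1 / 2 by norm_num)
      (by norm_num)).const_mul ρs
    rw [mul_zero] at h1
    refine h1.congr fun j => ?_
    simp only [hRdef]
    rw [one_div, inv_pow, div_eq_mul_inv]
  obtain ⟨j0, hj0⟩ := eventually_atTop.1 (hRt.eventually (gt_mem_nhds (lt_min hρ' hs0)))
  obtain ⟨j, hj, hjk⟩ := hτ j0
  have hjm := hj0 j hj
  refine ⟨R j, hR j, hjm.trans_le (min_le_left _ _), fun k => ⟨n k j, ?_, ?_, ?_, ?_⟩⟩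
  · exact (stay_diff (h k) (hR j) ((hRs j).trans hρs1) (hn3 k j)).1 _ le_rfl
  · exact (stay_diff (h k) (hR j) ((hRs j).trans hρs1) (hn3 k j)).2
  · exact exit_bound (h k) (hR j) ((hRs j).trans hρs1) (hRL j) (hn1 k j) (hn3 k j)
  · by_contra hcon
    push Not at hcon
    have hlt : R (j + 1) ≤ R j := by
      rw [hR2]
      have := hR j
      linarith
    have h1 : Stay (g k) r1 (R (j + 1)) (n k j) := fun i hi t ht =>
      hn3 k j i hi t (ball_subset_ball hlt ht)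
    have h2 := exit_slow (h k) (s := s) (τ := τ) (hR (j + 1)) ((hRs (j + 1)).trans hρs1) h1
      hs0.le (fun t ht => (hcon t (by rw [← hR2]; exact ht)).le) (by
        rw [← hsr]
        have h3 : R (j + 1) ≤ s := hlt.trans (hjm.le.trans (min_le_right _ _))
        have h4 : (0 : ℝ) ≤ τ := Nat.cast_nonneg τ
        gcongr)
    have h3 := hjk k
    refine hn4 k (j + 1) (h2 _ (by omega))

end Pool.Agent.H91.CE
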