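import Pool.Agent.H91.CE.CDefs

/-!
# Module SELE: a common parameter for finitely many nonconstant holomorphic functions

PROOF. Let `O` be the set of the points `z` with an open `U ∋ z` and a countable `S` with `U \ S ⊆ B`: open, contains `B`, so dense; by the Lindelöf property
(`TopologicalSpace.isOpen_biUnion_countable` / `isOpen_sUnion_countable`) there is a countable `S0` with `O \ S0 ⊆ B`. For every `k` the set
`V k = {η ∈ ball 0 1 | Ψ k η ∈ O}` is open and dense in `ball 0 1`: for an open nonempty `W ⊆ ball 0 1` the function `Ψ k` is not constant on `W` (identity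
theorem, `ball 0 1` is preconnected), so `Ψ k '' W` contains a nonempty open set (`AnalyticOnNhd.is_constant_or_isOpen` on a small ball of `W`), which
meets `O`. Finite intersections of open dense sets are open and dense, so `⋂ k, V k` contains a nonempty open set (if `ι` is empty: `ball 0 1`), of positive
volume. `Ψ k ⁻¹' S0 ∩ ball 0 1` is countable: each fibre of a nonconstant holomorphic function on `ball 0 1` is countable (isolated zeros,
`AnalyticOnNhd.eqOn_of_preconnected_of_frequently_eq`; a discrete subset of the plane is countable), so of volume zero. So some `η` of the open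
set is outside `N ∪ {0} ∪ ⋃ k, Ψ k ⁻¹' S0`. `pre_cnt`: the statement on fibres.
-/

set_option autoImplicit false

open Filter Topology Polynomial Metric Set

namespace Pool.Agent.H91.CE

open Pool.Agent.H44.Fatou Pool.Agent.H32.BT Pool.Agent.H79.Eul Pool.Agent.H79.Par
open Pool.Agent.H35.RL Pool.Agent.H35.EX

theorem SELE_fib {F : ℂ → ℂ} {z0 : ℂ} {r : ℝ} (hF : DifferentiableOn ℂ F (ball z0 r))
    (hnc : ¬ ∀ η ∈ ball z0 r, F η = F z0) (s : ℂ) :
    {η : ℂ | η ∈ ball z0 r ∧ F η = s}.Countable := by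
  have hA : AnalyticOnNhd ℂ F (ball z0 r) := hF.analyticOnNhd isOpen_ball
  have hd : DiscreteTopology {η : ℂ | η ∈ ball z0 r ∧ F η = s} := by
    rw [discreteTopology_subtype_iff]
    intro x hx
    by_contra hne
    apply hnc
    have hfr : ∃ᶠ z in 𝓝[≠] x, F z = (fun _ => s) z := by
      intro hev
      apply hne
      rw [← Filter.empty_mem_iff_bot]
      rw [Filter.mem_inf_principal]
      filter_upwards [hev] with z hz hzA
      exact hz hzA.2
    have heq := hA.eqOn_of_preconnected_of_frequently_eq (analyticOnNhd_const (v := s))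
      (convex_ball z0 r).isPreconnected hx.1 hfr
    have hr : 0 < r := pos_of_mem_ball hx.1
    intro η hη
    rw [heq hη, heq (mem_ball_self hr)]
  exact Set.countable_coe_iff.mp (countable_of_Lindelof_of_discrete)

theorem pre_cnt {F : ℂ → ℂ} {z0 : ℂ} {r : ℝ} (hF : DifferentiableOn ℂ F (ball z0 r))
    (hnc : ¬ ∀ η ∈ ball z0 r, F η = F z0) {S : Set ℂ} (hS : S.Countable) :
    {η : ℂ | η ∈ ball z0 r ∧ F η ∈ S}.Countable := by
  have h : {η : ℂ | η ∈ ball z0 r ∧ F η ∈ S} = ⋃ s ∈ S, {η : ℂ | η ∈ ball z0 r ∧ F η = s} := by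
    ext η
    simp only [mem_ofPred_eq, mem_iUnion, exists_prop]
    constructor
    · rintro ⟨h1, h2⟩
      exact ⟨F η, h2, h1, rfl⟩
    · rintro ⟨s, hs, h1, h2⟩
      exact ⟨h1, h2 ▸ hs⟩
  rw [h]
  exact hS.biUnion (fun s _ => SELE_fib hF hnc s)

theorem SELE_lind {B O : Set ℂ}
    (hO : O = {z | ∃ U : Set ℂ, IsOpen U ∧ z ∈ U ∧ ∃ S : Set ℂ, S.Countable ∧
      ∀ w ∈ U, w ∉ S → w ∈ B}) :
    IsOpen O ∧ ∃ S0 : Set ℂ, S0.Countable ∧ ∀ w ∈ O, w ∉ S0 → w ∈ B := by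
  subst hO
  constructor
  · rw [isOpen_iff_forall_mem_open]
    rintro z ⟨U, hU, hz, S, hS, hB⟩
    exact ⟨U, fun w hw => ⟨U, hU, hw, S, hS, hB⟩, hU, hz⟩
  · let I := {p : Set ℂ × Set ℂ // IsOpen p.1 ∧ p.2.Countable ∧ ∀ w ∈ p.1, w ∉ p.2 → w ∈ B}
    obtain ⟨T, hT, hTU⟩ := TopologicalSpace.isOpen_iUnion_countable
      (fun i : I => i.1.1) (fun i => i.2.1)
    refine ⟨⋃ i ∈ T, i.1.2, hT.biUnion (fun i _ => i.2.2.1), ?_⟩
    rintro w ⟨U, hU, hw, S, hS, hB⟩ hwS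
    have hw2 : w ∈ ⋃ i : I, i.1.1 := mem_iUnion.mpr ⟨⟨(U, S), hU, hS, hB⟩, hw⟩
    rw [← hTU] at hw2
    simp only [mem_iUnion] at hw2 hwS
    obtain ⟨i, hi, hwi⟩ := hw2
    exact i.2.2.2 w hwi (fun h => hwS ⟨i, hi, h⟩)

open MeasureTheory in
theorem sele {ι : Type} [Finite ι] {B : Set ℂ} (hB : Dense B)
    (hnear : ∀ z ∈ B, ∃ U : Set ℂ, IsOpen U ∧ z ∈ U ∧ ∃ S : Set ℂ, S.Countable ∧
      ∀ w ∈ U, w ∉ S → w ∈ B) {Ψ : ι → ℂ → ℂ} (hΨ : ∀ k, DifferentiableOn ℂ (Ψ k) (ball 0 1))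
    (hnc : ∀ k, ¬ ∀ η ∈ ball (0 : ℂ) 1, Ψ k η = Ψ k 0) {N : Set ℂ} (hN : volume N = 0) :
    ∃ η ∈ ball (0 : ℂ) 1, η ≠ 0 ∧ η ∉ N ∧ ∀ k, Ψ k η ∈ B := by
  classical
  obtain ⟨O, hO⟩ : ∃ O : Set ℂ, O = {z | ∃ U : Set ℂ, IsOpen U ∧ z ∈ U ∧ ∃ S : Set ℂ,
    S.Countable ∧ ∀ w ∈ U, w ∉ S → w ∈ B} := ⟨_, rfl⟩
  obtain ⟨hOo, S0, hS0, hOB⟩ := SELE_lind hO
  have hOd : Dense O := by
    apply hB.mono
    intro z hz
    rw [hO]
    exact hnear z hz
  have hVo : ∀ k, IsOpen (ball (0 : ℂ) 1 ∩ Ψ k ⁻¹' O) := fun k =>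
    (hΨ k).continuousOn.isOpen_inter_preimage isOpen_ball hOo
  have hVd : ∀ k, ∀ W : Set ℂ, IsOpen W → W.Nonempty → W ⊆ ball 0 1 →
      (W ∩ (ball (0 : ℂ) 1 ∩ Ψ k ⁻¹' O)).Nonempty := by
    intro k W hW hWn hWb
    have hA : AnalyticOnNhd ℂ (Ψ k) (ball 0 1) := (hΨ k).analyticOnNhd isOpen_ball
    rcases hA.is_constant_or_isOpen (convex_ball _ _).isPreconnected with ⟨w, hw⟩ | hop
    · exact absurd (fun η hη => (hw η hη).trans (hw 0 (mem_ball_self one_pos)).symm) (hnc k)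
    · obtain ⟨y, hyO, hyW⟩ := hOd.inter_open_nonempty _ (hop W hWb hW) (hWn.image _) |>.imp
        (fun y hy => (⟨hy.2, hy.1⟩ : y ∈ O ∧ y ∈ Ψ k '' W))
      obtain ⟨x, hx, rfl⟩ := hyW
      exact ⟨x, hx, hWb hx, hyO⟩
  have hfin : ∀ s : Finset ι, ∃ W : Set ℂ, IsOpen W ∧ W.Nonempty ∧ W ⊆ ball 0 1 ∧
      ∀ k ∈ s, W ⊆ Ψ k ⁻¹' O := by
    intro s
    induction s using Finset.induction_on with
    | empty =>
      exact ⟨ball 0 1, isOpen_ball, ⟨0, mem_ball_self one_pos⟩, subset_rfl, by simp⟩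
    | insert a s _ ih =>
      obtain ⟨W, hW, hWn, hWb, hWs⟩ := ih
      refine ⟨W ∩ (ball (0 : ℂ) 1 ∩ Ψ a ⁻¹' O), hW.inter (hVo a), hVd a W hW hWn hWb,
        fun x hx => hWb hx.1, ?_⟩
      intro k hk
      rw [Finset.mem_insert] at hk
      rcases hk with rfl | hk
      · exact fun x hx => hx.2.2
      · exact fun x hx => hWs k hk hx.1
  have := Fintype.ofFinite ι
  obtain ⟨W, hW, hWn, hWb, hWs⟩ := hfin Finset.univ
  have hbad : volume (N ∪ ({0} ∪ ⋃ k, {η : ℂ | η ∈ ball (0 : ℂ) 1 ∧ Ψ k η ∈ S0})) = 0 := by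
    rw [measure_union_null_iff]
    refine ⟨hN, ?_⟩
    apply Set.Countable.measure_zero
    apply Set.Countable.union (Set.countable_singleton 0)
    exact Set.countable_iUnion (fun k => pre_cnt (hΨ k) (hnc k) hS0)
  have hex : ∃ η ∈ W, η ∉ N ∪ ({0} ∪ ⋃ k, {η : ℂ | η ∈ ball (0 : ℂ) 1 ∧ Ψ k η ∈ S0}) := by
    by_contra hcon
    push Not at hcon
    have h0 : volume W = 0 := measure_mono_null hcon hbad
    exact (hW.measure_pos volume hWn).ne' h0
  obtain ⟨η, hηW, hη⟩ := hex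
  simp only [mem_union, mem_singleton_iff, mem_iUnion, not_or, mem_ofPred_eq, not_exists,
    not_and] at hη
  refine ⟨η, hWb hηW, hη.2.1, hη.1, fun k => ?_⟩
  exact hOB _ (hWs k (Finset.mem_univ k) hηW) (hη.2.2 k (hWb hηW))

end Pool.Agent.H91.CE
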