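import Pool.Agent.H91.CE.CDefs

/-!
# Module FACT: the function `wv (v0 + t v) (c + s ζ)`

PROOFS. `wv_exp`: `ev`, `dev` are linear in the coefficients (`ke_ev_add`, `ke_ev_smul` in H35/EX/KapE; the same for `dev`), `wv v z = dev v.1 z * ev v.2 z - ev v.1 z * dev v.2 z` or the order used in H44 (unfold `wv`), `ring`.
`wv_fact`: `wv v0 z` is the value at `z` of a polynomial `W` (for example `W = Wr (pol v0.1) (pol v0.2)`: `wv_cf`, `cf_pol`, `pol_deg`, as used in H79/Par/RobNull), `W ≠ 0` by `hne`;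
`Polynomial.exists_eq_pow_rootMultiplicity_mul_and_not_dvd`: `W = (X - C c) ^ m * V`, `V.eval c ≠ 0`, `m ≥ 1` since `W.eval c = 0`.
`roots_list`: the `m`-th roots of `a ≠ 0`: `ζ_k = b * exp (2 π i k / m)`, `b ^ m = a` (`IsAlgClosed.exists_pow_nat_eq`, `Complex.isPrimitiveRoot_exp`; `IsPrimitiveRoot.nthRoots_..`, `card_nthRoots`), or index the finset of the roots.
`cd_ev`: polynomial functions of `(s, ζ)` are smooth (`ev`, `dev` unfold to finite sums; `fun_prop` / `ContDiff.sum`).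
-/

set_option autoImplicit false

open Filter Topology Polynomial Metric Set

namespace Pool.Agent.H91.CE

open Pool.Agent.H44.Fatou Pool.Agent.H32.BT Pool.Agent.H79.Eul Pool.Agent.H79.Par
open Pool.Agent.H35.RL Pool.Agent.H35.EX

private theorem fact_dev_add {d : ℕ} (p q : Fin (d + 1) → ℂ) (z : ℂ) :
    dev (p + q) z = dev p z + dev q z := by
  unfold dev
  rw [← Finset.sum_add_distrib]
  refine Finset.sum_congr rfl fun i _ => ?_
  rw [Pi.add_apply, add_mul]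

private theorem fact_dev_smul {d : ℕ} (c : ℂ) (p : Fin (d + 1) → ℂ) (z : ℂ) :
    dev (c • p) z = c * dev p z := by
  unfold dev
  rw [Finset.mul_sum]
  refine Finset.sum_congr rfl fun i _ => ?_
  rw [Pi.smul_apply, smul_eq_mul, mul_assoc]

private theorem fact_ev_add {d : ℕ} (p q : Fin (d + 1) → ℂ) (z : ℂ) :
    ev (p + q) z = ev p z + ev q z := by
  unfold ev
  rw [← Finset.sum_add_distrib]
  refine Finset.sum_congr rfl fun i _ => ?_
  rw [Pi.add_apply, add_mul]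

private theorem fact_ev_smul {d : ℕ} (c : ℂ) (p : Fin (d + 1) → ℂ) (z : ℂ) :
    ev (c • p) z = c * ev p z := by
  unfold ev
  rw [Finset.mul_sum]
  refine Finset.sum_congr rfl fun i _ => ?_
  rw [Pi.smul_apply, smul_eq_mul, mul_assoc]

theorem wv_exp {d : ℕ} (v0 v : E d) (t z : ℂ) :
    wv (v0 + t • v) z = wv v0 z + t * Dw v0 v z + t ^ 2 * wv v z := by
  unfold wv Dw
  rw [Prod.fst_add, Prod.snd_add, Prod.smul_fst, Prod.smul_snd, fact_dev_add, fact_dev_add,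
    fact_ev_add, fact_ev_add, fact_dev_smul, fact_dev_smul, fact_ev_smul, fact_ev_smul]
  ring

theorem wv_fact {d : ℕ} {v0 : E d} {c : ℂ} (hc : wv v0 c = 0) (hne : ¬ ∀ z, wv v0 z = 0) :
    ∃ (m : ℕ) (V : Polynomial ℂ), 1 ≤ m ∧ V.eval c ≠ 0 ∧
      ∀ z, wv v0 z = (z - c) ^ m * V.eval z := by
  have hW : ∀ z, wv v0 z = (Wr (pol v0.1) (pol v0.2)).eval z := by
    intro z
    rw [← wv_cf (pol_deg v0.1) (pol_deg v0.2), cf_pol, cf_pol]
  have hW0 : Wr (pol v0.1) (pol v0.2) ≠ 0 := by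
    intro h
    apply hne
    intro z
    rw [hW, h, eval_zero]
  obtain ⟨V, hV, hVd⟩ :=
    Polynomial.exists_eq_pow_rootMultiplicity_mul_and_not_dvd (Wr (pol v0.1) (pol v0.2)) hW0 c
  refine ⟨(Wr (pol v0.1) (pol v0.2)).rootMultiplicity c, V, ?_, ?_, ?_⟩
  · rw [Nat.one_le_iff_ne_zero, ← pos_iff_ne_zero, Polynomial.rootMultiplicity_pos hW0,
      Polynomial.IsRoot.def, ← hW]
    exact hc
  · intro h
    exact hVd (Polynomial.dvd_iff_isRoot.2 h)
  · intro z
    rw [hW]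
    conv_lhs => rw [hV]
    rw [eval_mul, eval_pow, eval_sub, eval_X, eval_C]

theorem roots_list {m : ℕ} (hm : 1 ≤ m) {a : ℂ} (ha : a ≠ 0) :
    ∃ r : Fin m → ℂ, (∀ i, r i ^ m = a) ∧ ∀ ζ : ℂ, ζ ^ m = a → ∃ i, ζ = r i := by
  have hm0 : m ≠ 0 := by omega
  obtain ⟨b, hb⟩ := IsAlgClosed.exists_pow_nat_eq a (by omega : 0 < m)
  have hb0 : b ≠ 0 := by
    rintro rfl
    rw [zero_pow hm0] at hb
    exact ha hb.symm
  have hp := Complex.isPrimitiveRoot_exp m hm0
  refine ⟨fun i => b * Complex.exp (2 * Real.pi * Complex.I / m) ^ (i : ℕ), fun i => ?_,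
    fun ζ hζ => ?_⟩
  · rw [mul_pow, ← pow_mul, mul_comm (i : ℕ) m, pow_mul, hp.pow_eq_one, one_pow, mul_one, hb]
  · have h1 : (ζ / b) ^ m = 1 := by
      rw [div_pow, hζ, hb, div_self ha]
    have : NeZero m := ⟨hm0⟩
    obtain ⟨i, hi, hi'⟩ := hp.eq_pow_of_pow_eq_one h1
    refine ⟨⟨i, hi⟩, ?_⟩
    simp only
    rw [hi', mul_div_cancel₀ _ hb0]

theorem cd_ev {d : ℕ} (p : Fin (d + 1) → ℂ) (c : ℂ) :
    ContDiff ℂ 1 (fun x : ℂ × ℂ => ev p (c + x.1 * x.2)) ∧
      ContDiff ℂ 1 (fun x : ℂ × ℂ => dev p (c + x.1 * x.2)) := by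
  have h : ContDiff ℂ 1 (fun x : ℂ × ℂ => c + x.1 * x.2) :=
    contDiff_const.add (contDiff_fst.mul contDiff_snd)
  constructor
  · unfold ev
    exact ContDiff.sum fun i _ => contDiff_const.mul (h.pow _)
  · unfold dev
    exact ContDiff.sum fun i _ => contDiff_const.mul (contDiff_const.mul (h.pow _))

end Pool.Agent.H91.CE
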