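import Pool.Agent.H91.CE.IFTC
import Pool.Agent.H91.CE.FACT

/-!
# Module BRANCH: the critical points near a critical point, parameter `t = s ^ M`

PROOF (`wv_fact`, `wv_exp`, `roots_list`, `cd_ev` in FACT, `iftc` in IFTC). `W z = wv v0 z = (z - c) ^ m * V z`, `V` a polynomial, `V c ≠ 0`, `m` the multiplicity (`wv v0 z` is the value of a polynomial: `wv_cf` / `wv_pol`, or
`Wr (pol v0.1) (pol v0.2)`, not the zero polynomial by `hne`; `Polynomial.exists_eq_pow_rootMultiplicity_mul_and_not_dvd`). Flatness: `‖W z‖ ≤ C ‖z - c‖ ^ m` near `c`.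
First `M = m`. `wv (v0 + t • v) z = W z + t * Dw v0 v z + t ^ 2 * wv v z` (ring, `ev`, `dev` are linear in the coefficients). With `t = s ^ m`, `z = c + s ζ`:
`wv (v0 + s ^ m • v) (c + s ζ) = s ^ m * F (s, ζ)`, `F (s, ζ) = ζ ^ m * V (c + s ζ) + Dw v0 v (c + s ζ) + s ^ m * wv v (c + s ζ)`, analytic in `(s, ζ)`. `F (0, ζ) = ζ ^ m V c + Dw v0 v c`
has exactly `m` simple roots `ζ_i`, `i : Fin m` (`m`-th roots of `- Dw / V c ≠ 0`; `IsAlgClosed`, `Polynomial.nthRoots` / roots of unity `exp (2 π i k / m)`). The implicit function theorem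
(for `(s, ζ) ↦ (s, F (s, ζ))`, `ContDiffAt.toOpenPartialHomeomorph` over `ℂ`, or `HasStrictFDerivAt.implicitFunction`) gives holomorphic `ζ_i (s)` near `0` with `F (s, ζ_i s) = 0`,
`ζ_i 0 = ζ_i`, and uniqueness: `F (s, ζ) = 0`, `(s, ζ)` near `(0, ζ_i)` imply `ζ = ζ_i s`. `b i s = c + s * ζ_i s`.
All zeros: if `wv (v0 + s ^ m • v) z = 0`, `z ∈ ball c R` (`‖V‖ ≥ δ` there), then `‖z - c‖ ^ m δ ≤ ‖s‖ ^ m C`, so (`s ≠ 0`) `z = c + s ζ` with `‖ζ‖ ≤ C'`, `F (s, ζ) = 0`; on the compact set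
`closedBall 0 C' \ ⋃ ball ζ_i ε` the function `F (0, ·)` is nonzero, so `F (s, ·)` too for small `s`; so `ζ ∈ ball ζ_i ε` and uniqueness applies. For `s = 0`: `z = c = b i 0` (`m ≥ 1`, `R` small).
General `M = m * M'`: replace `s` by `s ^ M'` (`(s ^ M') ^ m = s ^ M`): `b i (s ^ M')`; `‖b i (s ^ M') - c‖ ≤ C ‖s‖ ^ M'`, so `‖..‖ ^ (m + 1) ≤ C'' ‖s‖ ^ (M + M') ≤ C'' ‖s‖ ^ (M + 1)` for `‖s‖ ≤ 1`.
-/

set_option autoImplicit false

open Filter Topology Polynomial Metric Set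

namespace Pool.Agent.H91.CE

open Pool.Agent.H44.Fatou Pool.Agent.H32.BT Pool.Agent.H79.Eul Pool.Agent.H79.Par
open Pool.Agent.H35.RL Pool.Agent.H35.EX

/-- the rescaled function -/
noncomputable def Fz {d : ℕ} (v0 v : E d) (c : ℂ) (m : ℕ) (V : Polynomial ℂ) (x : ℂ × ℂ) : ℂ :=
  x.2 ^ m * V.eval (c + x.1 * x.2) + Dw v0 v (c + x.1 * x.2) + x.1 ^ m * wv v (c + x.1 * x.2)

theorem Fz_cd {d : ℕ} (v0 v : E d) (c : ℂ) (m : ℕ) (V : Polynomial ℂ) :
    ContDiff ℂ 1 (Fz v0 v c m V) := by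
  unfold Fz Dw wv
  have h1 := cd_ev v0.1 c
  have h2 := cd_ev v0.2 c
  have h3 := cd_ev v.1 c
  have h4 := cd_ev v.2 c
  have hV : ContDiff ℂ 1 (fun x : ℂ × ℂ => V.eval (c + x.1 * x.2)) := by
    have h5 : ContDiff ℂ 1 (fun z : ℂ => V.eval z) := by
      have h6 := Polynomial.contDiff_aeval (𝕜 := ℂ) V 1
      simpa [Polynomial.coe_aeval_eq_eval] using h6
    exact h5.comp (contDiff_const.add (contDiff_fst.mul contDiff_snd))
  refine ContDiff.add (ContDiff.add ((contDiff_snd.pow m).mul hV) ?_) ?_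
  · exact ((((h3.2.mul h2.1).add (h1.2.mul h4.1)).sub (h3.1.mul h2.2)).sub (h1.1.mul h4.2))
  · exact (contDiff_fst.pow m).mul ((h3.2.mul h4.1).sub (h3.1.mul h4.2))

theorem Fz_zero {d : ℕ} (v0 v : E d) (c : ℂ) {m : ℕ} (hm : 1 ≤ m) (V : Polynomial ℂ) (ζ : ℂ) :
    Fz v0 v c m V (0, ζ) = ζ ^ m * V.eval c + Dw v0 v c := by
  unfold Fz
  have : (0 : ℂ) ^ m = 0 := zero_pow (by omega)
  simp [this]

theorem Fz_wv {d : ℕ} {v0 : E d} (v : E d) {c : ℂ} {m : ℕ} {V : Polynomial ℂ}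
    (hfac : ∀ z, wv v0 z = (z - c) ^ m * V.eval z) (s ζ : ℂ) :
    wv (v0 + s ^ m • v) (c + s * ζ) = s ^ m * Fz v0 v c m V (s, ζ) := by
  rw [wv_exp, hfac]
  unfold Fz
  simp only
  rw [add_sub_cancel_left, mul_pow]
  ring

theorem branch_base {d : ℕ} {v0 v : E d} {c : ℂ} {m : ℕ} {V : Polynomial ℂ} (hm : 1 ≤ m)
    (hV : V.eval c ≠ 0) (hfac : ∀ z, wv v0 z = (z - c) ^ m * V.eval z) (hD : Dw v0 v c ≠ 0) :
    ∃ (ρ R : ℝ) (ζ : Fin m → ℂ → ℂ), 0 < ρ ∧ 0 < R ∧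
      (∀ i, DifferentiableOn ℂ (ζ i) (ball 0 ρ) ∧ ∃ C : ℝ, ∀ s ∈ ball (0 : ℂ) ρ, ‖ζ i s‖ ≤ C) ∧
      ∀ s ∈ ball (0 : ℂ) ρ, ∀ z ∈ ball c R, wv (v0 + s ^ m • v) z = 0 → ∃ i, z = c + s * ζ i s := by
  have ha : - Dw v0 v c / V.eval c ≠ 0 := div_ne_zero (neg_ne_zero.mpr hD) hV
  obtain ⟨r, hr, hr'⟩ := roots_list hm ha
  have hr0 : ∀ i, r i ≠ 0 := by
    intro i h
    have := hr i
    rw [h, zero_pow (by omega)] at this
    exact ha this.symm
  have hroot : ∀ ζ : ℂ, Fz v0 v c m V (0, ζ) = 0 ↔ ζ ^ m = - Dw v0 v c / V.eval c := by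
    intro ζ
    rw [Fz_zero v0 v c hm V ζ, eq_div_iff hV]
    constructor
    · intro h
      linear_combination h
    · intro h
      rw [h]; ring
  have hder : ∀ i, deriv (fun ζ : ℂ => Fz v0 v c m V (0, ζ)) (r i) ≠ 0 := by
    intro i
    have : HasDerivAt (fun ζ : ℂ => Fz v0 v c m V (0, ζ))
        ((m : ℂ) * (r i) ^ (m - 1) * V.eval c) (r i) := by
      have e : (fun ζ : ℂ => Fz v0 v c m V (0, ζ)) = fun ζ => ζ ^ m * V.eval c + Dw v0 v c := by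
        funext ζ
        exact Fz_zero v0 v c hm V ζ
      rw [e]
      exact ((hasDerivAt_pow m (r i)).mul_const _).add_const _
    rw [this.deriv]
    have hm' : (m : ℂ) ≠ 0 := by
      exact_mod_cast (by omega : m ≠ 0)
    exact mul_ne_zero (mul_ne_zero hm' (pow_ne_zero _ (hr0 i))) hV
  have hift : ∀ i : Fin m, ∃ (ρ ε : ℝ) (ζ : ℂ → ℂ), 0 < ρ ∧ 0 < ε ∧
      DifferentiableOn ℂ ζ (ball 0 ρ) ∧ ζ 0 = r i ∧
      (∀ s ∈ ball (0 : ℂ) ρ, ζ s ∈ ball (r i) ε ∧ Fz v0 v c m V (s, ζ s) = 0) ∧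
      ∀ s ∈ ball (0 : ℂ) ρ, ∀ z ∈ ball (r i) ε, Fz v0 v c m V (s, z) = 0 → z = ζ s :=
    fun i => iftc (Fz_cd v0 v c m V) ((hroot _).mpr (hr i)) (hder i)
  choose ρi ε ζ hρi hε hdif hζ0 hζ1 hζu using hift
  -- bounds near `c`
  have hVc : ∀ᶠ z in 𝓝 c, ‖V.eval c‖ / 2 < ‖V.eval z‖ := by
    have h1 : Tendsto (fun z => ‖V.eval z‖) (𝓝 c) (𝓝 ‖V.eval c‖) :=
      (V.continuous.norm).tendsto c
    have h2 : ‖V.eval c‖ / 2 < ‖V.eval c‖ := by
      have := norm_pos_iff.mpr hV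
      linarith
    exact h1.eventually (lt_mem_nhds h2)
  have hDc : Continuous (fun z : ℂ => Dw v0 v z) := by
    unfold Dw
    have k1 : ∀ p : Fin (d + 1) → ℂ, Continuous (fun z : ℂ => ev p z) := fun p =>
      ev_cont.comp (continuous_const.prodMk continuous_id)
    have k2 : ∀ p : Fin (d + 1) → ℂ, Continuous (fun z : ℂ => dev p z) := fun p =>
      dev_cont.comp (continuous_const.prodMk continuous_id)
    exact (((((k2 _).mul (k1 _)).add ((k2 _).mul (k1 _))).sub ((k1 _).mul (k2 _))).sub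
      ((k1 _).mul (k2 _)))
  have hwc : Continuous (fun z : ℂ => wv v z) := wv_cont.comp (continuous_const.prodMk continuous_id)
  have hB1 : ∀ᶠ z in 𝓝 c, ‖Dw v0 v z‖ < ‖Dw v0 v c‖ + 1 :=
    (hDc.norm.tendsto c).eventually (gt_mem_nhds (lt_add_one _))
  have hB2 : ∀ᶠ z in 𝓝 c, ‖wv v z‖ < ‖wv v c‖ + 1 :=
    (hwc.norm.tendsto c).eventually (gt_mem_nhds (lt_add_one _))
  obtain ⟨R, hR, hRb⟩ := Metric.eventually_nhds_iff_ball.mp (hVc.and (hB1.and hB2))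
  set δ : ℝ := ‖V.eval c‖ / 2 with hδ
  have hδ0 : 0 < δ := by
    have := norm_pos_iff.mpr hV
    positivity
  set B : ℝ := (‖Dw v0 v c‖ + 1) + (‖wv v c‖ + 1) with hB
  have hB0 : 0 < B := by positivity
  set C' : ℝ := B / δ + 1 with hC'
  have hC'1 : 1 ≤ C' := by
    have : 0 < B / δ := by positivity
    linarith
  -- the compact set
  have hKc : IsCompact (closedBall (0 : ℂ) C' \ ⋃ i, ball (r i) (ε i)) :=
    (isCompact_closedBall (0 : ℂ) C').diff (isOpen_iUnion fun i => isOpen_ball)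
  have hK0 : ∀ ζ' ∈ closedBall (0 : ℂ) C' \ ⋃ i, ball (r i) (ε i), ∀ᶠ x : ℂ × ℂ in 𝓝 ((0 : ℂ), ζ'),
      Fz v0 v c m V (x.1, x.2) ≠ 0 := by
    intro ζ' hζ'
    have h1 : Fz v0 v c m V (0, ζ') ≠ 0 := by
      intro h
      obtain ⟨i, hi⟩ := hr' ζ' ((hroot ζ').mp h)
      apply hζ'.2
      rw [mem_iUnion]
      exact ⟨i, by rw [hi]; exact mem_ball_self (hε i)⟩
    exact (Fz_cd v0 v c m V).continuous.continuousAt.eventually_ne h1
  have hKe := hKc.eventually_forall_of_forall_eventually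
    (P := fun a b => Fz v0 v c m V (a, b) ≠ 0) hK0
  obtain ⟨ρ1, hρ1, hρ1b⟩ := Metric.eventually_nhds_iff_ball.mp hKe
  -- the radius
  have hne : (Finset.univ : Finset (Fin m)).Nonempty := ⟨⟨0, hm⟩, Finset.mem_univ _⟩
  set ρ2 : ℝ := Finset.univ.inf' hne ρi with hρ2
  have hρ2p : 0 < ρ2 := by
    rw [hρ2, Finset.lt_inf'_iff]
    intro i _
    exact hρi i
  have hρ2le : ∀ i, ρ2 ≤ ρi i := fun i => Finset.inf'_le _ (Finset.mem_univ i)
  refine ⟨min (min ρ1 ρ2) 1, R, ζ, lt_min (lt_min hρ1 hρ2p) one_pos, hR, ?_, ?_⟩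
  · intro i
    refine ⟨(hdif i).mono (ball_subset_ball ((min_le_left _ _).trans
      ((min_le_right _ _).trans (hρ2le i)))), ‖r i‖ + ε i, ?_⟩
    intro s hs
    have hs' : s ∈ ball (0 : ℂ) (ρi i) := ball_subset_ball ((min_le_left _ _).trans
      ((min_le_right _ _).trans (hρ2le i))) hs
    have h1 := (hζ1 i s hs').1
    rw [mem_ball, dist_eq_norm] at h1
    calc ‖ζ i s‖ = ‖r i + (ζ i s - r i)‖ := by congr 1; ring
      _ ≤ ‖r i‖ + ‖ζ i s - r i‖ := norm_add_le _ _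
      _ ≤ ‖r i‖ + ε i := by linarith
  · intro s hs z hz hwz
    have hs1 : ‖s‖ < 1 := by
      have := (mem_ball_zero_iff.mp hs)
      exact this.trans_le (min_le_right _ _)
    have hsρ1 : s ∈ ball (0 : ℂ) ρ1 := ball_subset_ball ((min_le_left _ _).trans (min_le_left _ _)) hs
    obtain ⟨hVz, hD1, hw1⟩ := hRb z hz
    have heq : (z - c) ^ m * V.eval z = - (s ^ m * (Dw v0 v z + s ^ m * wv v z)) := by
      rw [wv_exp, hfac] at hwz
      linear_combination hwz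
    have hnorm : ‖z - c‖ ^ m * ‖V.eval z‖ ≤ ‖s‖ ^ m * B := by
      calc ‖z - c‖ ^ m * ‖V.eval z‖ = ‖(z - c) ^ m * V.eval z‖ := by rw [norm_mul, norm_pow]
        _ = ‖s‖ ^ m * ‖Dw v0 v z + s ^ m * wv v z‖ := by
            rw [heq, norm_neg, norm_mul, norm_pow]
        _ ≤ ‖s‖ ^ m * B := by
            apply mul_le_mul_of_nonneg_left _ (by positivity)
            have h1 : ‖s‖ ^ m ≤ 1 := pow_le_one₀ (norm_nonneg _) hs1.le
            calc ‖Dw v0 v z + s ^ m * wv v z‖ ≤ ‖Dw v0 v z‖ + ‖s ^ m * wv v z‖ := norm_add_le _ _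
              _ = ‖Dw v0 v z‖ + ‖s‖ ^ m * ‖wv v z‖ := by rw [norm_mul, norm_pow]
              _ ≤ ‖Dw v0 v z‖ + 1 * ‖wv v z‖ := by gcongr
              _ ≤ B := by rw [hB]; linarith
    have hle : ‖z - c‖ ^ m ≤ (C' * ‖s‖) ^ m := by
      have h1 : ‖z - c‖ ^ m * δ ≤ ‖s‖ ^ m * B :=
        (mul_le_mul_of_nonneg_left hVz.le (by positivity)).trans hnorm
      have h2 : ‖z - c‖ ^ m ≤ ‖s‖ ^ m * (B / δ) := by
        rw [← mul_div_assoc, le_div_iff₀ hδ0]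
        exact h1
      calc ‖z - c‖ ^ m ≤ ‖s‖ ^ m * (B / δ) := h2
        _ ≤ ‖s‖ ^ m * C' := by
            apply mul_le_mul_of_nonneg_left _ (by positivity)
            rw [hC']; linarith
        _ ≤ ‖s‖ ^ m * C' ^ m := by
            apply mul_le_mul_of_nonneg_left _ (by positivity)
            exact le_self_pow₀ hC'1 (by omega)
        _ = (C' * ‖s‖) ^ m := by rw [mul_pow]; ring
    have hle' : ‖z - c‖ ≤ C' * ‖s‖ :=
      (pow_le_pow_iff_left₀ (norm_nonneg _) (by positivity) (by omega)).mp hle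
    by_cases hs0 : s = 0
    · refine ⟨⟨0, hm⟩, ?_⟩
      rw [hs0] at hle' ⊢
      rw [norm_zero, mul_zero] at hle'
      have : z - c = 0 := norm_le_zero_iff.mp hle'
      rw [zero_mul, add_zero]
      exact sub_eq_zero.mp this
    · have hz' : z = c + s * ((z - c) / s) := by
        rw [mul_div_cancel₀ _ hs0]; ring
      have hns : 0 < ‖s‖ := norm_pos_iff.mpr hs0
      have hζn : ‖(z - c) / s‖ ≤ C' := by
        rw [norm_div, div_le_iff₀ hns]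
        exact hle'
      have hF0 : Fz v0 v c m V (s, (z - c) / s) = 0 := by
        have h1 := Fz_wv v hfac s ((z - c) / s)
        rw [← hz', hwz] at h1
        have h2 : s ^ m ≠ 0 := pow_ne_zero _ hs0
        exact (mul_eq_zero.mp h1.symm).resolve_left h2
      have hmem : (z - c) / s ∈ ⋃ i, ball (r i) (ε i) := by
        by_contra hcon
        exact hρ1b s hsρ1 ((z - c) / s) ⟨mem_closedBall_zero_iff.mpr hζn, hcon⟩ hF0
      rw [mem_iUnion] at hmem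
      obtain ⟨i, hi⟩ := hmem
      refine ⟨i, ?_⟩
      have hs' : s ∈ ball (0 : ℂ) (ρi i) := ball_subset_ball ((min_le_left _ _).trans
        ((min_le_right _ _).trans (hρ2le i))) hs
      have := hζu i s hs' _ hi hF0
      rw [← this]
      exact hz'

theorem crit_branch {d : ℕ} {v0 : E d} {c : ℂ} (hc : wv v0 c = 0) (hne : ¬ ∀ z, wv v0 z = 0) :
    ∃ m : ℕ, 1 ≤ m ∧ (∃ C : ℝ, ∀ᶠ z in 𝓝 c, ‖wv v0 z‖ ≤ C * ‖z - c‖ ^ m) ∧
      ∀ v : E d, Dw v0 v c ≠ 0 → ∀ M : ℕ, 1 ≤ M → m ∣ M →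
        ∃ (ρ R : ℝ) (b : Fin m → ℂ → ℂ), 0 < ρ ∧ 0 < R ∧
          (∀ i, DifferentiableOn ℂ (b i) (ball 0 ρ) ∧ b i 0 = c ∧
            ∃ C : ℝ, ∀ s ∈ ball (0 : ℂ) ρ, ‖b i s - c‖ ^ (m + 1) ≤ C * ‖s‖ ^ (M + 1)) ∧
          ∀ s ∈ ball (0 : ℂ) ρ, ∀ z ∈ ball c R, wv (v0 + s ^ M • v) z = 0 → ∃ i, z = b i s := by
  obtain ⟨m, V, hm, hV, hfac⟩ := wv_fact hc hne
  refine ⟨m, hm, ?_, ?_⟩
  · refine ⟨‖V.eval c‖ + 1, ?_⟩
    have h1 : ∀ᶠ z in 𝓝 c, ‖V.eval z‖ < ‖V.eval c‖ + 1 :=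
      (V.continuous.norm.tendsto c).eventually (gt_mem_nhds (lt_add_one _))
    filter_upwards [h1] with z hz
    rw [hfac, norm_mul, norm_pow, mul_comm]
    exact mul_le_mul_of_nonneg_right hz.le (by positivity)
  · intro v hD M hM hmM
    obtain ⟨M', rfl⟩ := hmM
    have hM' : 1 ≤ M' := by
      rcases Nat.eq_zero_or_pos M' with h | h
      · subst h
        simp at hM
      · exact h
    obtain ⟨ρ, R, ζ, hρ, hR, hζ, huniq⟩ := branch_base hm hV hfac hD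
    have hpow : ∀ s ∈ ball (0 : ℂ) (min ρ 1), s ^ M' ∈ ball (0 : ℂ) ρ := by
      intro s hs
      rw [mem_ball_zero_iff] at hs ⊢
      rw [norm_pow]
      calc ‖s‖ ^ M' ≤ ‖s‖ := pow_le_of_le_one (norm_nonneg _) (hs.trans_le (min_le_right _ _)).le
            (by omega)
        _ < ρ := hs.trans_le (min_le_left _ _)
    refine ⟨min ρ 1, R, fun i s => c + s ^ M' * ζ i (s ^ M'), lt_min hρ one_pos, hR, ?_, ?_⟩
    · intro i
      obtain ⟨hd, C, hC⟩ := hζ i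
      have hC0 : 0 ≤ C := (norm_nonneg _).trans (hC 0 (mem_ball_self hρ))
      refine ⟨?_, ?_, C ^ (m + 1), ?_⟩
      · have h1 : DifferentiableOn ℂ (fun s : ℂ => s ^ M') (ball 0 (min ρ 1)) :=
          (differentiable_pow M').differentiableOn
        exact (h1.mul (hd.comp h1 hpow)).const_add c
      · simp only
        rw [zero_pow (by omega), zero_mul, add_zero]
      · intro s hs
        simp only
        have hs1 : ‖s‖ ≤ 1 := ((mem_ball_zero_iff.mp hs).trans_le (min_le_right _ _)).le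
        rw [add_sub_cancel_left, norm_mul, norm_pow, mul_pow]
        have h1 : ‖ζ i (s ^ M')‖ ^ (m + 1) ≤ C ^ (m + 1) :=
          pow_le_pow_left₀ (norm_nonneg _) (hC _ (hpow s hs)) _
        have h2 : (‖s‖ ^ M') ^ (m + 1) ≤ ‖s‖ ^ (m * M' + 1) := by
          rw [← pow_mul]
          apply pow_le_pow_of_le_one (norm_nonneg _) hs1
          calc m * M' + 1 ≤ m * M' + M' := by omega
            _ = M' * (m + 1) := by ring
        calc (‖s‖ ^ M') ^ (m + 1) * ‖ζ i (s ^ M')‖ ^ (m + 1)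
            ≤ ‖s‖ ^ (m * M' + 1) * C ^ (m + 1) := mul_le_mul h2 h1 (by positivity) (by positivity)
          _ = C ^ (m + 1) * ‖s‖ ^ (m * M' + 1) := mul_comm _ _
    · intro s hs z hz hw
      have e : s ^ (m * M') = (s ^ M') ^ m := by rw [← pow_mul, mul_comm]
      rw [e] at hw
      exact huniq (s ^ M') (hpow s hs) z hz hw

end Pool.Agent.H91.CE
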