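import Pool.Agent.H91.CE.EXPN

/-!
# Module CRIT1: expansion of the orbit of a moving critical point

PROOF. First step: `F (t, z) = ev (v0 + t • v).1 z / ev (v0 + t • v).2 z`. With `z = b s → c`, `t = s ^ M`:
`F (t, z) - F (0, c) = (F (t, z) - F (0, z)) + (F (0, z) - F (0, c))`. First difference: `t * xi v0 v c + o(t)` (differentiability of `F` at `(0, c)` gives only
`o(|t| + |z - c|)`, so write it out: `F (t, z) - F (0, z) = t (ev v.1 z * ev v0.2 z - ev v0.1 z * ev v.2 z) / (ev v0.2 z * ev (v0 + t • v).2 z)`, and the factor of `t` tends to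
`xi v0 v c`). Second difference: the derivative of `z ↦ F (0, z)` is `wv v0 z / ev v0.2 z ^ 2`, of norm at most `C' ‖z - c‖ ^ m / δ ^ 2` near `c` (`hfl`), so by the mean value
inequality on `closedBall c ‖z - c‖` it is at most `C'' ‖z - c‖ ^ (m + 1) ≤ C''' ‖s‖ ^ (M + 1) = o(s ^ M)`. So `w s = it (v0 + s ^ M • v) 1 (b s)` satisfies
`w s - it v0 1 c - s ^ M * xi v0 v c = o(s ^ M)`. Then `exp_n` with `n = k - 1`, `x = it v0 1 c`, `α = xi v0 v c = XX v0 v 1 c`: `it _ (k - 1) (it _ 1 z) = it _ k z` (`it_add`, H79/Par/It),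
`XX v0 v k c = XX v0 v (k - 1) (it v0 1 c) + trD v0 (k - 1) (it v0 1 c) * XX v0 v 1 c` (`XX_cocycle`, H35/RL/Cocyc).
-/

set_option autoImplicit false

open Filter Topology Polynomial Metric Set

namespace Pool.Agent.H91.CE

open Pool.Agent.H44.Fatou Pool.Agent.H32.BT Pool.Agent.H79.Eul Pool.Agent.H79.Par
open Pool.Agent.H35.RL Pool.Agent.H35.EX

private theorem CRIT1_ev1 {d : ℕ} (v0 v : E d) (t z : ℂ) :
    ev (v0 + t • v).1 z = ev v0.1 z + t * ev v.1 z := by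
  unfold ev
  rw [Finset.mul_sum, ← Finset.sum_add_distrib]
  refine Finset.sum_congr rfl fun i _ => ?_
  simp only [Prod.fst_add, Prod.smul_fst, Pi.add_apply, Pi.smul_apply, smul_eq_mul]
  ring

private theorem CRIT1_ev2 {d : ℕ} (v0 v : E d) (t z : ℂ) :
    ev (v0 + t • v).2 z = ev v0.2 z + t * ev v.2 z := by
  unfold ev
  rw [Finset.mul_sum, ← Finset.sum_add_distrib]
  refine Finset.sum_congr rfl fun i _ => ?_
  simp only [Prod.snd_add, Prod.smul_snd, Pi.add_apply, Pi.smul_apply, smul_eq_mul]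
  ring

private theorem CRIT1_cont {d : ℕ} (p : Fin (d + 1) → ℂ) : Continuous (fun z : ℂ => ev p z) := by
  unfold ev
  fun_prop

/-- flatness of the map at `c` -/
private theorem CRIT1_flat {d : ℕ} {v0 : E d} {c : ℂ} {m : ℕ} (hc : ev v0.2 c ≠ 0)
    (hfl : ∃ C' : ℝ, ∀ᶠ z in 𝓝 c, ‖wv v0 z‖ ≤ C' * ‖z - c‖ ^ m) :
    ∃ C : ℝ, ∀ᶠ z in 𝓝 c, ‖ev v0.1 z / ev v0.2 z - ev v0.1 c / ev v0.2 c‖ ≤
      C * ‖z - c‖ ^ (m + 1) := by
  obtain ⟨C', hC'⟩ := hfl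
  have hpos : 0 < ‖ev v0.2 c‖ := norm_pos_iff.2 hc
  have hcont : Tendsto (fun z : ℂ => ‖ev v0.2 z‖) (𝓝 c) (𝓝 ‖ev v0.2 c‖) :=
    ((CRIT1_cont v0.2).tendsto c).norm
  have h1 : ∀ᶠ z in 𝓝 c, ‖ev v0.2 c‖ / 2 < ‖ev v0.2 z‖ :=
    hcont.eventually (lt_mem_nhds (by linarith))
  obtain ⟨r, hr, hball⟩ := Metric.eventually_nhds_iff_ball.1 (hC'.and h1)
  set δ : ℝ := ‖ev v0.2 c‖ / 2 with hδ
  have hδ0 : 0 < δ := by rw [hδ]; linarith
  refine ⟨|C'| / δ ^ 2, ?_⟩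
  filter_upwards [Metric.ball_mem_nhds c hr] with z hz
  have hsub : ∀ x ∈ closedBall c ‖z - c‖, x ∈ ball c r := by
    intro x hx
    rw [mem_closedBall, dist_eq_norm] at hx
    rw [mem_ball, dist_eq_norm] at hz ⊢
    linarith
  have hmv := (convex_closedBall c ‖z - c‖).norm_image_sub_le_of_norm_hasDerivWithin_le
    (f := fun x : ℂ => ev v0.1 x / ev v0.2 x) (f' := fun x => wv v0 x / ev v0.2 x ^ 2)
    (C := |C'| / δ ^ 2 * ‖z - c‖ ^ m) (x := c) (y := z)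
    (fun x hx => ?_) (fun x hx => ?_) (mem_closedBall_self (norm_nonneg _))
    (by rw [mem_closedBall, dist_eq_norm])
  · rw [pow_succ _ m, ← mul_assoc]
    exact hmv
  · have h2 := (hball x (hsub x hx)).2
    have h3 : ev v0.2 x ≠ 0 := norm_pos_iff.1 (hδ0.trans h2)
    exact (tr_hasDerivAt_ev v0 x h3).hasDerivWithinAt
  · obtain ⟨h2, h3⟩ := hball x (hsub x hx)
    rw [norm_div, norm_pow]
    have h4 : ‖x - c‖ ≤ ‖z - c‖ := by
      rw [mem_closedBall, dist_eq_norm] at hx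
      exact hx
    have h5 : ‖wv v0 x‖ ≤ |C'| * ‖z - c‖ ^ m :=
      calc ‖wv v0 x‖ ≤ C' * ‖x - c‖ ^ m := h2
        _ ≤ |C'| * ‖x - c‖ ^ m := mul_le_mul_of_nonneg_right (le_abs_self C') (by positivity)
        _ ≤ |C'| * ‖z - c‖ ^ m := mul_le_mul_of_nonneg_left
            (pow_le_pow_left₀ (norm_nonneg _) h4 m) (abs_nonneg C')
    calc ‖wv v0 x‖ / ‖ev v0.2 x‖ ^ 2 ≤ (|C'| * ‖z - c‖ ^ m) / δ ^ 2 :=
          div_le_div₀ (by positivity) h5 (by positivity)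
            (pow_le_pow_left₀ hδ0.le h3.le 2)
      _ = |C'| / δ ^ 2 * ‖z - c‖ ^ m := by ring

theorem crit_start {d : ℕ} {v0 v : E d} {c : ℂ} {m M k : ℕ} (hM : 1 ≤ M) (hk : 1 ≤ k)
    (hden : ∀ i < k, ev v0.2 (it v0 i c) ≠ 0) {b : ℂ → ℂ} (hbc : ContinuousAt b 0) (hb0 : b 0 = c)
    (hbC : ∃ C : ℝ, ∀ᶠ s in 𝓝 (0 : ℂ), ‖b s - c‖ ^ (m + 1) ≤ C * ‖s‖ ^ (M + 1))
    (hfl : ∃ C' : ℝ, ∀ᶠ z in 𝓝 c, ‖wv v0 z‖ ≤ C' * ‖z - c‖ ^ m) :
    (fun s : ℂ => it (v0 + s ^ M • v) k (b s) - it v0 k c - s ^ M * XX v0 v k c) =o[𝓝 0]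
      fun s : ℂ => s ^ M := by
  have hy : ev v0.2 c ≠ 0 := hden 0 (by omega)
  have hGy : Tendsto b (𝓝 0) (𝓝 c) := by
    have h1 := hbc.tendsto
    rwa [hb0] at h1
  have hs : Tendsto (fun s : ℂ => s ^ M) (𝓝 0) (𝓝 0) := by
    have h1 : Continuous fun s : ℂ => s ^ M := continuous_pow M
    have h2 := h1.tendsto 0
    rwa [zero_pow (by omega)] at h2
  -- the second difference
  obtain ⟨C2, hC2⟩ := CRIT1_flat hy hfl
  obtain ⟨C, hC⟩ := hbC
  have h3 : (fun s : ℂ => ev v0.1 (b s) / ev v0.2 (b s) - ev v0.1 c / ev v0.2 c)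
      =o[𝓝 0] fun s : ℂ => s ^ M := by
    have h4 : (fun s : ℂ => ev v0.1 (b s) / ev v0.2 (b s) - ev v0.1 c / ev v0.2 c)
        =O[𝓝 0] fun s : ℂ => s ^ (M + 1) := by
      refine Asymptotics.IsBigO.of_bound (|C2| * C) ?_
      filter_upwards [hGy.eventually hC2, hC] with s hs1 hs2
      rw [norm_pow]
      calc ‖ev v0.1 (b s) / ev v0.2 (b s) - ev v0.1 c / ev v0.2 c‖
          ≤ C2 * ‖b s - c‖ ^ (m + 1) := hs1
        _ ≤ |C2| * ‖b s - c‖ ^ (m + 1) :=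
            mul_le_mul_of_nonneg_right (le_abs_self C2) (by positivity)
        _ ≤ |C2| * (C * ‖s‖ ^ (M + 1)) := mul_le_mul_of_nonneg_left hs2 (abs_nonneg C2)
        _ = |C2| * C * ‖s‖ ^ (M + 1) := by ring
    exact h4.trans_isLittleO (Asymptotics.isLittleO_pow_pow (Nat.lt_succ_self M))
  -- the first difference
  have hA : Tendsto (fun s : ℂ => ev v.1 (b s)) (𝓝 0) (𝓝 (ev v.1 c)) :=
    ((CRIT1_cont v.1).tendsto c).comp hGy
  have hB : Tendsto (fun s : ℂ => ev v.2 (b s)) (𝓝 0) (𝓝 (ev v.2 c)) :=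
    ((CRIT1_cont v.2).tendsto c).comp hGy
  have ha : Tendsto (fun s : ℂ => ev v0.1 (b s)) (𝓝 0) (𝓝 (ev v0.1 c)) :=
    ((CRIT1_cont v0.1).tendsto c).comp hGy
  have hb : Tendsto (fun s : ℂ => ev v0.2 (b s)) (𝓝 0) (𝓝 (ev v0.2 c)) :=
    ((CRIT1_cont v0.2).tendsto c).comp hGy
  have hbt : Tendsto (fun s : ℂ => ev v0.2 (b s) + s ^ M * ev v.2 (b s)) (𝓝 0)
      (𝓝 (ev v0.2 c)) := by
    have h5 := hb.add (hs.mul hB)
    rwa [zero_mul, add_zero] at h5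
  have hX : Tendsto (fun s : ℂ => (ev v.1 (b s) * ev v0.2 (b s) - ev v0.1 (b s) * ev v.2 (b s)) /
      (ev v0.2 (b s) * (ev v0.2 (b s) + s ^ M * ev v.2 (b s))) - xi v0 v c) (𝓝 0) (𝓝 0) := by
    have h5 := ((hA.mul hb).sub (ha.mul hB)).div (hb.mul hbt) (mul_ne_zero hy hy)
    have h6 := h5.sub_const (xi v0 v c)
    have h7 : (ev v.1 c * ev v0.2 c - ev v0.1 c * ev v.2 c) / (ev v0.2 c * ev v0.2 c) -
        xi v0 v c = 0 := by
      unfold xi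
      rw [pow_two, sub_self]
    rwa [h7] at h6
  have h8 : (fun s : ℂ => s ^ M * ((ev v.1 (b s) * ev v0.2 (b s) - ev v0.1 (b s) * ev v.2 (b s)) /
      (ev v0.2 (b s) * (ev v0.2 (b s) + s ^ M * ev v.2 (b s))) - xi v0 v c))
      =o[𝓝 0] fun s : ℂ => s ^ M := by
    have h9 := (Asymptotics.isBigO_refl (fun s : ℂ => s ^ M) (𝓝 0)).mul_isLittleO
      ((Asymptotics.isLittleO_one_iff ℂ).2 hX)
    simpa using h9
  have hw : (fun s : ℂ => ev (v0 + s ^ M • v).1 (b s) / ev (v0 + s ^ M • v).2 (b s) - it v0 1 c -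
      s ^ M * xi v0 v c) =o[𝓝 0] fun s : ℂ => s ^ M := by
    refine (h8.add h3).congr' ?_ EventuallyEq.rfl
    filter_upwards [hb.eventually_ne hy, hbt.eventually_ne hy] with s hs1 hs2
    rw [CRIT1_ev1, CRIT1_ev2]
    change _ = (ev v0.1 (b s) + s ^ M * ev v.1 (b s)) / (ev v0.2 (b s) + s ^ M * ev v.2 (b s)) -
      ev v0.1 c / ev v0.2 c - s ^ M * xi v0 v c
    generalize ev v0.1 c / ev v0.2 c = q
    generalize xi v0 v c = X
    generalize s ^ M = t at *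
    generalize ev v0.1 (b s) = a' at *
    generalize ev v0.2 (b s) = b' at *
    generalize ev v.1 (b s) = A at *
    generalize ev v.2 (b s) = B at *
    field_simp
    ring
  obtain ⟨n, rfl⟩ : ∃ n, k = n + 1 := ⟨k - 1, by omega⟩
  have hden' : ∀ i < n, ev v0.2 (it v0 i (it v0 1 c)) ≠ 0 := by
    intro i hi
    rw [← it_add]
    exact hden (i + 1) (by omega)
  have h10 := exp_n (v := v) hM n hden' hw
  refine h10.congr_left fun s => ?_
  have h11 : it (v0 + s ^ M • v) n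
      (ev (v0 + s ^ M • v).1 (b s) / ev (v0 + s ^ M • v).2 (b s)) =
      it (v0 + s ^ M • v) (n + 1) (b s) := by
    rw [it_add]
    rfl
  have h12 : XX v0 v (n + 1) c = XX v0 v n (it v0 1 c) + trD v0 n (it v0 1 c) * XX v0 v 1 c :=
    XX_cocycle v0 v n 1 c
  have h13 : XX v0 v 1 c = xi v0 v c := by
    change xi v0 v c + wv v0 c / ev v0.2 c ^ 2 * 0 = _
    rw [mul_zero, add_zero]
  rw [h11, h12, h13, ← it_add]

end Pool.Agent.H91.CE
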