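import Pool.Agent.H91.CE.CDefs
import Pool.Agent.H79.Par.KerNull

/-!
# Module DWN: the critical points move in almost every direction

PROOF. `Dw v0 v c` is linear in `v` (`ev`, `dev` are linear in the coefficients). It is not identically zero: `v = (coefficients of X - c, 0)` (the vector `cf d (X - C c)` of H79/Eul or
H44/Fatou, `ev` and `dev` of it are the values of `X - c` and of its derivative at `c`: `0` and `1`; `d ≥ 1`), so `Dw v0 v c = ev v0.2 c ≠ 0`. `ker_null` (H79/Par/KerNull).
-/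

set_option autoImplicit false

open Filter Topology Polynomial Metric Set

namespace Pool.Agent.H91.CE

open Pool.Agent.H44.Fatou Pool.Agent.H32.BT Pool.Agent.H79.Eul Pool.Agent.H79.Par
open Pool.Agent.H35.RL Pool.Agent.H35.EX

private theorem dwn_ev_add {d : ℕ} (p q : Fin (d + 1) → ℂ) (z : ℂ) :
    ev (p + q) z = ev p z + ev q z := by
  unfold ev
  rw [← Finset.sum_add_distrib]
  refine Finset.sum_congr rfl fun i _ => ?_
  rw [Pi.add_apply]
  ring

private theorem dwn_dev_add {d : ℕ} (p q : Fin (d + 1) → ℂ) (z : ℂ) :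
    dev (p + q) z = dev p z + dev q z := by
  unfold dev
  rw [← Finset.sum_add_distrib]
  refine Finset.sum_congr rfl fun i _ => ?_
  rw [Pi.add_apply]
  ring

private theorem dwn_ev_smul {d : ℕ} (c : ℂ) (p : Fin (d + 1) → ℂ) (z : ℂ) :
    ev (c • p) z = c * ev p z := by
  unfold ev
  rw [Finset.mul_sum]
  refine Finset.sum_congr rfl fun i _ => ?_
  rw [Pi.smul_apply, smul_eq_mul]
  ring

private theorem dwn_dev_smul {d : ℕ} (c : ℂ) (p : Fin (d + 1) → ℂ) (z : ℂ) :
    dev (c • p) z = c * dev p z := by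
  unfold dev
  rw [Finset.mul_sum]
  refine Finset.sum_congr rfl fun i _ => ?_
  rw [Pi.smul_apply, smul_eq_mul]
  ring

open MeasureTheory in
theorem dw_null {d : ℕ} (hd : 1 ≤ d) {v0 : E d} {c : ℂ} (hc : ev v0.2 c ≠ 0) :
    volume {v : E d | Dw v0 v c = 0} = 0 := by
  refine ker_null (fun v => Dw v0 v c) ?_ ?_ ?_
  · intro v w
    simp only [Dw, Prod.fst_add, Prod.snd_add, dwn_ev_add, dwn_dev_add]
    ring
  · intro a v
    simp only [Dw, Prod.smul_fst, Prod.smul_snd, dwn_ev_smul, dwn_dev_smul]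
    ring
  · refine ⟨((cf d (X - C c) : Fin (d + 1) → ℂ), (0 : Fin (d + 1) → ℂ)), ?_⟩
    have hdeg : (X - C c : Polynomial ℂ).natDegree ≤ d := by
      rw [natDegree_X_sub_C]
      exact hd
    have h1 : ev (cf d (X - C c)) c = 0 := by
      rw [ev_cf hdeg]
      simp
    have h2 : dev (cf d (X - C c)) c = 1 := by
      rw [dev_cf hdeg]
      simp
    have h3 : ev (0 : Fin (d + 1) → ℂ) c = 0 := by simp [ev]
    have h4 : dev (0 : Fin (d + 1) → ℂ) c = 0 := by simp [dev]
    simp only [Dw, h1, h2, h3, h4]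
    simpa using hc

end Pool.Agent.H91.CE
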