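import Pool.Agent.H91.CE.CDefs
import Pool.Agent.H79.Eul.NullB

/-!
# Module ROBL: almost all complex multiples of almost every direction

PROOF. Let `N = toMeasurable volume {v | ¬ T v}`, measurable, `volume N = 0`. For `η ≠ 0` the set `{v | η ^ M • v ∈ N}` is null (`null_lin`, H79/Par/KerNull, or
`Measure.addHaar_preimage_smul` / `addHaar_preimage_linearMap`, `volume_haar` in H79/Eul/NullB). The set `{(η, v) | η ^ M • v ∈ N}` is measurable (`measurable_pow`, `Measurable.smul`; the map is
continuous) and its sections over `η ≠ 0` are null, so it is null in the product and almost all sections over `v` are null (`Measure.measure_prod_null`,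
`Measure.ae_ae_of_ae_prod`, `Measure.prod_swap`; `volume` on `E d` is σ-finite).
-/

set_option autoImplicit false

open Filter Topology Polynomial Metric Set

namespace Pool.Agent.H91.CE

open Pool.Agent.H44.Fatou Pool.Agent.H32.BT Pool.Agent.H79.Eul Pool.Agent.H79.Par
open Pool.Agent.H35.RL Pool.Agent.H35.EX

open MeasureTheory in
theorem rob_line {d : ℕ} {T : E d → Prop} (hT : volume {v : E d | ¬ T v} = 0) (M : ℕ) :
    ∀ᵐ v : E d, ∀ᵐ η : ℂ, T (η ^ M • v) := by
  have _hv := volume_haar d
  have hNm : MeasurableSet (toMeasurable volume {v : E d | ¬ T v}) := measurableSet_toMeasurable _ _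
  have hN0 : volume (toMeasurable volume {v : E d | ¬ T v}) = 0 := by rw [measure_toMeasurable, hT]
  have hsub : {v : E d | ¬ T v} ⊆ toMeasurable volume {v : E d | ¬ T v} := subset_toMeasurable _ _
  generalize toMeasurable volume {v : E d | ¬ T v} = N at hNm hN0 hsub
  have hcont : Continuous (fun p : ℂ × E d => p.1 ^ M • p.2) := by fun_prop
  have hS : MeasurableSet {p : ℂ × E d | p.1 ^ M • p.2 ∉ N} := hcont.measurable hNm.compl
  have h0 : ∀ᵐ η : ℂ, η ≠ 0 := by
    rw [ae_iff]
    simp
  have h1 : ∀ᵐ η : ℂ, ∀ᵐ v : E d, η ^ M • v ∉ N := by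
    filter_upwards [h0] with η hη
    have h2 := null_lin (fun v : E d => η ^ M • v) (fun v w => smul_add _ _ _)
      (fun c v => smul_comm _ _ _) (smul_right_injective _ (pow_ne_zero _ hη)) hN0
    rw [ae_iff]
    simp only [not_not]
    exact h2
  have h3 : ∀ᵐ v : E d, ∀ᵐ η : ℂ, η ^ M • v ∉ N :=
    (Measure.ae_ae_comm (p := fun (η : ℂ) (v : E d) => η ^ M • v ∉ N) hS).1 h1
  filter_upwards [h3] with v hv
  filter_upwards [hv] with η hη
  by_contra hcon
  exact hη (hsub hcon)

end Pool.Agent.H91.CE
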