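import Pool.Agent.H91.CE.CDefs
import Pool.Agent.H79.Par.KerNull

/-!
# Module KLIN: the transversality functional is linear

PROOFS. Copies of `kapE_summable`, `kapE_add` (H35/EX/KapE), `kapE_sum` (H35/EX/KapS), where `ExpK v0 K` is used only through the compactness, the invariance and the
growth at the point `x m`; `kapE_smul` needs no hypothesis. `kap_null`: `ker_null` (H79/Par/KerNull). `gr_ne`: the growth. `inv_it`: induction (`it v0 (n+1) z = it v0 1 (it v0 n z)`).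
-/

set_option autoImplicit false

open Filter Topology Polynomial Metric Set

namespace Pool.Agent.H91.CE

open Pool.Agent.H44.Fatou Pool.Agent.H32.BT Pool.Agent.H79.Eul Pool.Agent.H79.Par
open Pool.Agent.H35.RL Pool.Agent.H35.EX

theorem inv_it {d : ℕ} {v0 : E d} {K : Set ℂ} (hK : Inv v0 K) {z : ℂ} (hz : z ∈ K) (n : ℕ) :
    it v0 n z ∈ K := by
  induction n with
  | zero => exact hz
  | succ n ih => exact hK.maps _ ih

theorem gr_ne {d : ℕ} {v0 : E d} {x : ℂ} (hg : Gr v0 x) (n : ℕ) : trD v0 n x ≠ 0 := by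
  obtain ⟨c, q, hc, hq, h⟩ := hg
  intro h0
  have h1 := h n
  rw [h0, norm_zero] at h1
  have hq0 : 0 < q := by linarith
  have h2 : 0 < c * q ^ n := by positivity
  linarith

theorem kap_summable {d : ℕ} {v0 : E d} {K : Set ℂ} (hK : Inv v0 K) {x : ℕ → ℂ}
    (ho : ∀ j, Orb v0 x j) {m : ℕ} (hm : x m ∈ K) (hg : Gr v0 (x m)) (v : E d) :
    Summable (fun i : ℕ => xi v0 v (x (m + i)) / trD v0 (i + 1) (x m)) := by
  obtain ⟨c, q, hc, hq, hexp⟩ := hg
  have hq0 : 0 < q := by linarith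
  have hcont : ContinuousOn (fun z => xi v0 v z) K := by
    unfold xi
    refine ContinuousOn.div ?_ ?_ ?_
    · exact (((ke_ev_cont v.1).mul (ke_ev_cont v0.2)).sub
        ((ke_ev_cont v0.1).mul (ke_ev_cont v.2))).continuousOn
    · exact ((ke_ev_cont v0.2).pow 2).continuousOn
    · intro z hz
      exact pow_ne_zero 2 (hK.den z hz)
  obtain ⟨M, hM⟩ := hK.compact.exists_bound_of_continuousOn hcont
  have hM0 : 0 ≤ M := (norm_nonneg _).trans (hM (x m) hm)
  have hgs : Summable (fun i : ℕ => (M / (c * q)) * (q⁻¹) ^ i) :=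
    (summable_geometric_of_lt_one (inv_nonneg.2 hq0.le) (inv_lt_one_of_one_lt₀ hq)).mul_left _
  refine Summable.of_norm_bounded hgs fun i => ?_
  have h1 : x (m + i) ∈ K := by
    rw [← ke_shift ho m i]
    exact inv_it hK hm i
  have h2 := hexp (i + 1)
  have h3 : 0 < c * q ^ (i + 1) := by positivity
  rw [norm_div]
  calc ‖xi v0 v (x (m + i))‖ / ‖trD v0 (i + 1) (x m)‖ ≤ M / (c * q ^ (i + 1)) :=
        div_le_div₀ hM0 (hM _ h1) h3 h2
    _ = (M / (c * q)) * (q⁻¹) ^ i := by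
        rw [inv_pow, pow_succ]
        field_simp

private theorem klin_add {d : ℕ} {v0 : E d} {K : Set ℂ} (hK : Inv v0 K) {x : ℕ → ℂ}
    (ho : ∀ j, Orb v0 x j) {m : ℕ} (hm : x m ∈ K) (hg : Gr v0 (x m)) (v w : E d) :
    kapE v0 (v + w) x m = kapE v0 v x m + kapE v0 w x m := by
  unfold kapE
  have h : ∑' i : ℕ, xi v0 (v + w) (x (m + i)) / trD v0 (i + 1) (x m) =
      ∑' i : ℕ, xi v0 v (x (m + i)) / trD v0 (i + 1) (x m) +
      ∑' i : ℕ, xi v0 w (x (m + i)) / trD v0 (i + 1) (x m) := by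
    rw [← (kap_summable hK ho hm hg v).tsum_add (kap_summable hK ho hm hg w)]
    exact tsum_congr fun i => by rw [ke_xi_add, add_div]
  rw [XX_add, h]
  ring

theorem kap_sum {d : ℕ} {v0 : E d} {K : Set ℂ} (hK : Inv v0 K) {x : ℕ → ℂ}
    (ho : ∀ j, Orb v0 x j) {m : ℕ} (hm : 1 ≤ m) (hxm : x m ∈ K) (hg : Gr v0 (x m))
    (hne : trD v0 (m - 1) (x 1) ≠ 0) (v : E d) :
    kapE v0 v x m = trD v0 (m - 1) (x 1) * ∑' k : ℕ, xi v0 v (x k) / trD v0 k (x 1) := by
  obtain ⟨D, hD⟩ : ∃ D : ℕ → ℂ, D = fun i => Pool.Agent.H61.TT.dg (pol v0.1) (pol v0.2) (x i) :=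
    ⟨_, rfl⟩
  have htr : ∀ k n : ℕ, trD v0 n (x k) = ∏ i ∈ Finset.Ico k (k + n), D i := by
    intro k n
    rw [kapS_trD ho k n, hD]
  obtain ⟨T, hT⟩ : ∃ T : ℂ, T = trD v0 (m - 1) (x 1) := ⟨_, rfl⟩
  rw [← hT] at hne ⊢
  have hT1 : T = ∏ i ∈ Finset.Ico 1 m, D i := by
    rw [hT, htr]
    congr 2
    omega
  -- the first m terms
  have hsplit : ∀ j < m, T = trD v0 j (x 1) * Pool.Agent.H61.TT.cc v0 x m j := by
    intro j hj
    have h1 : Pool.Agent.H61.TT.cc v0 x m j = ∏ i ∈ Finset.Ico (j + 1) m, D i := by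
      unfold Pool.Agent.H61.TT.cc
      rw [hD]
    rw [h1, hT1, htr, add_comm 1 j]
    exact (Finset.prod_Ico_consecutive D (by omega) (by omega)).symm
  have hfirst : XX v0 v m (x 0) = T * ∑ k ∈ Finset.range m, xi v0 v (x k) / trD v0 k (x 1) := by
    rw [Pool.Agent.H61.TT.XX_eq, Pool.Agent.H61.TT.XV_val (ho m), Finset.mul_sum]
    refine Finset.sum_congr rfl fun j hj => ?_
    have h1 := hsplit j (Finset.mem_range.1 hj)
    have h2 : trD v0 j (x 1) ≠ 0 := by
      intro h0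
      apply hne
      rw [h1, h0, zero_mul]
    rw [h1]
    field_simp
  have htail : ∀ i : ℕ, trD v0 (i + m) (x 1) = T * trD v0 (i + 1) (x m) := by
    intro i
    rw [hT1, htr, htr, Finset.prod_Ico_consecutive D (by omega) (by omega)]
    congr 2
    omega
  have hterm : ∀ i : ℕ, xi v0 v (x (i + m)) / trD v0 (i + m) (x 1) =
      T⁻¹ * (xi v0 v (x (m + i)) / trD v0 (i + 1) (x m)) := by
    intro i
    rw [htail, add_comm i m]
    have h1 := gr_ne hg (i + 1)
    field_simp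
  have hs0 := kap_summable hK ho hxm hg v
  have hs1 : Summable fun i : ℕ => xi v0 v (x (i + m)) / trD v0 (i + m) (x 1) := by
    refine (hs0.mul_left T⁻¹).congr fun i => ?_
    rw [hterm]
  have hs2 : Summable fun k : ℕ => xi v0 v (x k) / trD v0 k (x 1) :=
    (summable_nat_add_iff (f := fun k : ℕ => xi v0 v (x k) / trD v0 k (x 1)) m).1 hs1
  rw [← hs2.sum_add_tsum_nat_add m, mul_add, ← hfirst]
  unfold kapE
  congr 1
  rw [tsum_congr hterm, tsum_mul_left, ← mul_assoc, mul_inv_cancel₀ hne, one_mul]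

open MeasureTheory in
theorem kap_null {d : ℕ} {v0 : E d} {K : Set ℂ} (hK : Inv v0 K) {x : ℕ → ℂ}
    (ho : ∀ j, Orb v0 x j) {m : ℕ} (hm : x m ∈ K) (hg : Gr v0 (x m))
    (hne : ∃ v : E d, kapE v0 v x m ≠ 0) : volume {v : E d | kapE v0 v x m = 0} = 0 :=
  ker_null (fun v => kapE v0 v x m) (fun v w => klin_add hK ho hm hg v w)
    (fun c v => kapE_smul c v) hne

end Pool.Agent.H91.CE
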