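import Pool.Agent.H91.CE.EXPN
import Pool.Agent.H91.CE.KLIN

/-!
# Module RUNP: the run of the parameter plane

PROOF. `r1, τ, L` from `lip_K hK v`. `it v0 n x ∈ K` for all `n`. At `s = 0`: `it (v0 + 0 ^ M • v) n (w 0) = it v0 n x` (`M ≥ 1`, `hw0`). `w` is differentiable on a
ball and `‖w s - w 0‖ ≤ L' ‖s‖` there (`hasDerivAt` at `0`, `HasDerivAt.isBigO_sub` or the mean value inequality on a smaller ball); replace `L` by `max L L'`. `ρ0` small:
`ρ0 ≤ 1`, `ρ0 ≤ τ`, the ball of `w`; for `‖s‖ < ρ ≤ ρ0`: `‖s ^ M‖ ≤ ‖s‖ < ρ`. `step`: `lip_K` at `y = it v0 n x`, `z = g n s`, `t = s ^ M`: the denominator is not zero and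
`‖g (n+1) s - it v0 (n+1) x‖ ≤ L (D + ρ)`; `lip_diff`. (`it` unfolds: `it v (n+1) z = ev v.1 (it v n z) / ev v.2 (it v n z)`.)
`grow`: by `exp_n` the coefficient of `s ^ M` is `a_n = XX v0 v n x + trD v0 n x * α`, and `XX v0 v n x = trD v0 n x * ∑ i < n, xi v0 v (it v0 i x) / trD v0 (i+1) x` (induction;
all `trD v0 i x ≠ 0` by `hg`), so `a_n = trD v0 n x * κ_n`, `κ_n → κ = α + ∑' ..` (the series converges absolutely: `xi v0 v` is bounded on `K`, `hg`, geometric series, compare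
`kapE_summable` in H35/EX/KapE). So `‖κ_n‖ ≥ ‖κ‖ / 2` for `n ≥ N` and `‖a_n‖ ≥ c q ^ n ‖κ‖ / 2`.
-/

set_option autoImplicit false

open Filter Topology Polynomial Metric Set

namespace Pool.Agent.H91.CE

open Pool.Agent.H44.Fatou Pool.Agent.H32.BT Pool.Agent.H79.Eul Pool.Agent.H79.Par
open Pool.Agent.H35.RL Pool.Agent.H35.EX

theorem rp_XX {d : ℕ} {v0 v : E d} {x : ℂ} (hg : ∀ n, trD v0 n x ≠ 0) (n : ℕ) :
    XX v0 v n x = trD v0 n x *
      ∑ i ∈ Finset.range n, xi v0 v (it v0 i x) / trD v0 (i + 1) x := by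
  induction n with
  | zero => simp [XX]
  | succ n ih =>
    have h1 : trD v0 (n + 1) x = trD v0 n x * (wv v0 (it v0 n x) / ev v0.2 (it v0 n x) ^ 2) := by
      unfold trD
      rw [Finset.prod_range_succ]
    have h2 := hg (n + 1)
    rw [Finset.sum_range_succ, mul_add, mul_div_cancel₀ _ h2]
    show xi v0 v (it v0 n x) + wv v0 (it v0 n x) / ev v0.2 (it v0 n x) ^ 2 * XX v0 v n x = _
    rw [ih, h1]
    ring

theorem run_par {d : ℕ} {v0 v : E d} {K : Set ℂ} (hK : Inv v0 K) {M : ℕ} (hM : 1 ≤ M) {x α : ℂ}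
    (hx : x ∈ K) (hg : Gr v0 x) {w : ℂ → ℂ} (hwd : ∀ᶠ s in 𝓝 (0 : ℂ), DifferentiableAt ℂ w s)
    (hw0 : w 0 = x) (hw : (fun s : ℂ => w s - x - s ^ M * α) =o[𝓝 0] fun s : ℂ => s ^ M)
    (hκ : α + ∑' i : ℕ, xi v0 v (it v0 i x) / trD v0 (i + 1) x ≠ 0) :
    ∃ ρ0 r1 L : ℝ, Run (fun n s => it (v0 + s ^ M • v) n (w s))
      (fun n s => ev (v0 + s ^ M • v).2 (it (v0 + s ^ M • v) n (w s)) ≠ 0) M ρ0 r1 L := by
  obtain ⟨r1, τ, L, hr1, hτ, hL, hlip⟩ := lip_K hK v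
  have hKn : ∀ n, it v0 n x ∈ K := fun n => inv_it hK hx n
  have hz : ∀ n, it (v0 + (0 : ℂ) ^ M • v) n (w 0) = it v0 n x := by
    intro n
    rw [zero_pow (by omega), zero_smul, add_zero, hw0]
  have hO : (fun s : ℂ => w s - w 0) =O[𝓝 0] fun s : ℂ => s - 0 :=
    (hwd.self_of_nhds).isBigO_sub
  obtain ⟨c, hc0, hc⟩ := hO.exists_pos
  rw [Asymptotics.isBigOWith_iff] at hc
  obtain ⟨δ, hδ, hball⟩ := Metric.eventually_nhds_iff_ball.1 (hwd.and hc)
  have hρ0 : 0 < min 1 (min τ δ) := lt_min one_pos (lt_min hτ hδ)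
  have hρ1 : min 1 (min τ δ) ≤ 1 := min_le_left _ _
  have hρτ : min 1 (min τ δ) ≤ τ := (min_le_right _ _).trans (min_le_left _ _)
  have hρδ : min 1 (min τ δ) ≤ δ := (min_le_right _ _).trans (min_le_right _ _)
  have hkey : ∀ (n : ℕ) (ρ D : ℝ), ρ ≤ min 1 (min τ δ) → D ≤ r1 →
      (∀ t ∈ ball (0 : ℂ) ρ, ‖it (v0 + t ^ M • v) n (w t) - it (v0 + (0 : ℂ) ^ M • v) n (w 0)‖ ≤ D) →
      ∀ t ∈ ball (0 : ℂ) ρ, ev (v0 + t ^ M • v).2 (it (v0 + t ^ M • v) n (w t)) ≠ 0 ∧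
        ‖it (v0 + t ^ M • v) (n + 1) (w t) - it v0 (n + 1) x‖ ≤ L * (D + ρ) := by
    intro n ρ D h1 h2 h3 t ht
    have h4 := h3 t ht
    rw [hz n] at h4
    have ht' : ‖t‖ < ρ := by simpa using ht
    have h5 : ‖t ^ M‖ ≤ ‖t‖ := by
      rw [norm_pow]
      exact pow_le_of_le_one (norm_nonneg _) (by linarith) (by omega)
    have h6 := hlip (it v0 n x) (hKn n) (it (v0 + t ^ M • v) n (w t))
      (by rw [mem_closedBall, dist_eq_norm]; linarith) (t ^ M) (by linarith)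
    refine ⟨h6.1, h6.2.trans ?_⟩
    refine mul_le_mul_of_nonneg_left ?_ (by linarith)
    linarith
  refine ⟨min 1 (min τ δ), r1, max L c, ⟨hρ0, hρ1, hr1, hL.trans (le_max_left _ _), hM, ?_, ?_,
    ?_, ?_⟩⟩
  · intro s hs
    exact ((hball s (ball_subset_ball hρδ hs)).1).differentiableWithinAt
  · intro s hs
    have h1 := (hball s (ball_subset_ball hρδ hs)).2
    rw [sub_zero] at h1
    exact h1.trans (mul_le_mul_of_nonneg_right (le_max_right _ _) (norm_nonneg _))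
  · intro n ρ D hρ hρ' hD hD' hdiff hbd
    have hk := hkey n ρ D hρ' hD' hbd
    refine ⟨?_, fun t ht => (hk t ht).1, ?_⟩
    · intro t ht
      have h1 : DifferentiableAt ℂ (fun s => it (v0 + s ^ M • v) n (w s)) t :=
        (hdiff t ht).differentiableAt (isOpen_ball.mem_nhds ht)
      exact (lip_diff h1 (hk t ht).1).differentiableWithinAt
    · intro t ht
      have h1 := (hk t ht).2
      show ‖it (v0 + t ^ M • v) (n + 1) (w t) - it (v0 + (0 : ℂ) ^ M • v) (n + 1) (w 0)‖ ≤ _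
      rw [hz (n + 1)]
      exact h1.trans (mul_le_mul_of_nonneg_right (le_max_left _ _) (by linarith))
  · have hne : ∀ n, trD v0 n x ≠ 0 := fun n => gr_ne hg n
    have ho : ∀ j, Orb v0 (fun i => it v0 i x) j := fun j i _ =>
      ⟨hK.den _ (hKn i), rfl⟩
    have hsum := kap_summable hK ho (m := 0) (hKn 0) hg v
    simp only [zero_add] at hsum
    have hlim := (hsum.hasSum.tendsto_sum_nat).const_add α
    obtain ⟨c, q, hc, hq, hexp⟩ := hg
    have hκ' : ‖α + ∑' i : ℕ, xi v0 v (it v0 i x) / trD v0 (i + 1) x‖ / 2 <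
        ‖α + ∑' i : ℕ, xi v0 v (it v0 i x) / trD v0 (i + 1) x‖ := by
      have := norm_pos_iff.2 hκ
      linarith
    have hev := hlim.norm.eventually_const_lt hκ'
    obtain ⟨N, hN⟩ := eventually_atTop.1 hev
    refine ⟨c * (‖α + ∑' i : ℕ, xi v0 v (it v0 i x) / trD v0 (i + 1) x‖ / 2), q,
      mul_pos hc (half_pos (norm_pos_iff.2 hκ)), hq, N, fun n hn => ?_⟩
    refine ⟨trD v0 n x * (α + ∑ i ∈ Finset.range n, xi v0 v (it v0 i x) / trD v0 (i + 1) x),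
      ?_, ?_⟩
    · rw [norm_mul]
      have h1 := hexp n
      have h2 := (hN n hn).le
      have h3 : 0 ≤ ‖α + ∑' i : ℕ, xi v0 v (it v0 i x) / trD v0 (i + 1) x‖ / 2 := by positivity
      calc c * (‖α + ∑' i : ℕ, xi v0 v (it v0 i x) / trD v0 (i + 1) x‖ / 2) * q ^ n
          = (c * q ^ n) * (‖α + ∑' i : ℕ, xi v0 v (it v0 i x) / trD v0 (i + 1) x‖ / 2) := by
            ring
        _ ≤ ‖trD v0 n x‖ *
            ‖α + ∑ i ∈ Finset.range n, xi v0 v (it v0 i x) / trD v0 (i + 1) x‖ :=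
            mul_le_mul h1 h2 h3 (norm_nonneg _)
    · have h1 := exp_n (v := v) hM n (fun i _ => hK.den _ (hKn i)) hw
      refine h1.congr_left fun s => ?_
      show _ = it (v0 + s ^ M • v) n (w s) - it (v0 + (0 : ℂ) ^ M • v) n (w 0) - _
      rw [hz n, rp_XX hne n]
      ring

end Pool.Agent.H91.CE
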