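import Pool.Agent.H91.CE.KAPN
import Pool.Agent.H91.CE.RUNP
import Pool.Agent.H91.CE.BRANCH
import Pool.Agent.H91.CE.CRIT1
import Pool.Agent.H91.CE.DWN
import Pool.Agent.H91.CE.ROBL
import Pool.Agent.H91.CE.HYPF
import Pool.Agent.H35.RL.PullAtt

/-!
# Module CORE: the theorem in a good chart
-/

set_option autoImplicit false

open Filter Topology Polynomial Metric Set

namespace Pool.Agent.H91.CE

open Pool.Agent.H44.Fatou Pool.Agent.H32.BT Pool.Agent.H79.Eul Pool.Agent.H79.Par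
open Pool.Agent.H35.RL Pool.Agent.H35.EX

/-- the moving starting point of the run of a critical point -/
private noncomputable def strt {d : ℕ} (v0 v : E d) (M k : ℕ) (b : ℂ → ℂ) (s : ℂ) : ℂ :=
  it (v0 + s ^ M • v) k (b s)

/-- the run of a critical point -/
private theorem core_run {d : ℕ} {v0 v : E d} {K : Set ℂ} (hK : Inv v0 K) {c : ℂ} {m M k : ℕ}
    (hM : 1 ≤ M) (hk : 1 ≤ k) (hcK : ∀ j, it v0 j c ∈ K) (hG : Gr v0 (it v0 k c)) {b : ℂ → ℂ}
    {ρ : ℝ} (hρ : 0 < ρ) (hb : DifferentiableOn ℂ b (ball 0 ρ)) (hb0 : b 0 = c)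
    (hbC : ∃ C : ℝ, ∀ s ∈ ball (0 : ℂ) ρ, ‖b s - c‖ ^ (m + 1) ≤ C * ‖s‖ ^ (M + 1))
    (hfl : ∃ C' : ℝ, ∀ᶠ z in 𝓝 c, ‖wv v0 z‖ ≤ C' * ‖z - c‖ ^ m)
    (hκ : kapE v0 v (fun j => it v0 j c) k ≠ 0) :
    ∃ ρ0 r1 L : ℝ, Run (fun n s => it (v0 + s ^ M • v) n (strt v0 v M k b s))
      (fun n s => ev (v0 + s ^ M • v).2 (it (v0 + s ^ M • v) n (strt v0 v M k b s)) ≠ 0)
      M ρ0 r1 L := by
  have hden : ∀ i, ev v0.2 (it v0 i c) ≠ 0 := fun i => hK.den _ (hcK i)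
  have hball : ball (0 : ℂ) ρ ∈ 𝓝 (0 : ℂ) := ball_mem_nhds _ hρ
  have hbd : ∀ᶠ s in 𝓝 (0 : ℂ), DifferentiableAt ℂ b s := by
    filter_upwards [isOpen_ball.mem_nhds (mem_ball_self hρ)] with s hs
    exact hb.differentiableAt (isOpen_ball.mem_nhds hs)
  have h0M : (0 : ℂ) ^ M = 0 := zero_pow (by omega)
  have hs0 : strt v0 v M k b 0 = it v0 k c := by
    unfold strt
    rw [h0M, zero_smul, add_zero, hb0]
  refine run_par hK hM (x := it v0 k c) (α := XX v0 v k c) (hcK k) hG ?_ hs0 ?_ ?_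
  · have h1 := diff_n (v0 := v0) (v := v) hM (w := b) k (fun i _ => by rw [hb0]; exact hden i) hbd
    filter_upwards [h1] with s hs
    exact hs.1
  · refine crit_start hM hk (fun i _ => hden i) (hbd.self_of_nhds.continuousAt) hb0 ?_ hfl
    obtain ⟨C, hC⟩ := hbC
    refine ⟨C, ?_⟩
    filter_upwards [hball] with s hs
    exact hC s hs
  · intro hcon
    apply hκ
    unfold kapE
    rw [← hcon]
    congr 1
    refine tsum_congr fun i => ?_
    show xi v0 v (it v0 (k + i) c) / _ = xi v0 v (it v0 i (it v0 k c)) / _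
    rw [← it_add, add_comm k i]

open MeasureTheory in
theorem ce_core {d : ℕ} (hd : 2 ≤ d) {v0 : E d} (h0 : Chart0 v0)
    (h1 : ¬ IsCrit (Rf v0) OnePoint.infty) {K : Set ℂ} (hK : Inv v0 K)
    (hbd : Dense {z : ℂ | Basin v0 z})
    (hc : ∀ c : ℂ, IsCrit (Rf v0) (c : OnePoint ℂ) → Basin v0 c ∨
      ((∀ j, it v0 j c ∈ K) ∧ ∃ m : ℕ, Gr v0 (it v0 m c))) {ε : ℝ} (hε : 0 < ε) :
    ∃ w ∈ ball v0 ε, HypDeg w := by
  classical
  have hcop := h0.1
  have hdeg := h0.2.1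
  have hd1 : 1 ≤ max (pol v0.1).natDegree (pol v0.2).natDegree := by rw [hdeg]; omega
  have hzf : {c : ℂ | wv v0 c = 0}.Finite := wv_ne hd hcop hdeg
  have hne : ¬ ∀ z, wv v0 z = 0 := by
    intro h
    have h2 : {c : ℂ | wv v0 c = 0} = Set.univ := by
      ext z
      simp [h z]
    rw [h2] at hzf
    exact Set.infinite_univ hzf
  have hcrit : ∀ c : ℂ, wv v0 c = 0 → IsCrit (Rf v0) (c : OnePoint ℂ) := by
    intro c h
    apply crit_of_wr hcop hd1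
    rw [← wv_cf (pol_deg _) (pol_deg _), cf_pol, cf_pol]
    exact h
  obtain ⟨Fs, hFs⟩ : ∃ Fs : Finset ℂ, ∀ c, c ∈ Fs ↔ (wv v0 c = 0 ∧ ¬ Basin v0 c) := by
    have h2 : {c : ℂ | wv v0 c = 0 ∧ ¬ Basin v0 c}.Finite := hzf.subset fun c h => h.1
    exact ⟨h2.toFinset, fun c => h2.mem_toFinset⟩
  have hw : ∀ c : Fs, wv v0 (c : ℂ) = 0 := fun c => ((hFs c).1 c.2).1
  have hCE : ∀ c : Fs, (∀ j, it v0 j (c : ℂ) ∈ K) ∧ ∃ k : ℕ, 1 ≤ k ∧ Gr v0 (it v0 k (c : ℂ)) := by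
    intro c
    rcases hc c (hcrit c (hw c)) with h | ⟨h, k, hk⟩
    · exact absurd h ((hFs c).1 c.2).2
    · refine ⟨h, k, ?_, hk⟩
      by_contra hcon
      have hk0 : k = 0 := by omega
      subst hk0
      apply gr_ne hk 1
      simp [trD, it, hw c]
  choose hcK kk hkk1 hkkG using hCE
  have hbr := fun c : Fs => crit_branch (hw c) hne
  choose mm hmm1 hmmfl hmmbr using hbr
  obtain ⟨M, hM⟩ : ∃ M : ℕ, M = ∏ c : Fs, mm c := ⟨_, rfl⟩
  have hM1 : 1 ≤ M := by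
    rw [hM]
    exact Nat.one_le_iff_ne_zero.2 (Finset.prod_ne_zero_iff.2 fun c _ => by
      have := hmm1 c
      omega)
  have hdvd : ∀ c : Fs, mm c ∣ M := by
    intro c
    rw [hM]
    exact Finset.dvd_prod_of_mem _ (Finset.mem_univ c)
  have hden : ∀ (c : Fs) i, ev v0.2 (it v0 i (c : ℂ)) ≠ 0 := fun c i => hK.den _ (hcK c i)
  have horb : ∀ c : Fs, ∀ j, Orb v0 (fun j => it v0 j (c : ℂ)) j :=
    fun c j i _ => ⟨hden c i, rfl⟩
  -- the direction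
  have := volume_haar d
  have hnb : (ae (volume : Measure (E d))).NeBot := by
    rw [ae_neBot]
    intro h
    have h2 := isOpen_univ.measure_pos (volume : Measure (E d)) ⟨0, Set.mem_univ _⟩
    rw [h] at h2
    simp at h2
  have a1 : ∀ᵐ v : E d, ∀ c : Fs, kapE v0 v (fun j => it v0 j (c : ℂ)) (kk c) ≠ 0 := by
    rw [ae_all_iff]
    intro c
    have h2 := kap_ne hd h0 hK (x := fun j => it v0 j (c : ℂ)) (horb c) (hcK c) (hw c) (hkk1 c)
      (hkkG c) hbd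
    have h3 := kap_null hK (x := fun j => it v0 j (c : ℂ)) (horb c) (hcK c _) (hkkG c) h2
    exact measure_eq_zero_iff_ae_notMem.1 h3
  have a2 : ∀ᵐ v : E d, ∀ c : Fs, Dw v0 v (c : ℂ) ≠ 0 := by
    rw [ae_all_iff]
    intro c
    exact measure_eq_zero_iff_ae_notMem.1 (dw_null (by omega) (hden c 0))
  have a3 : ∀ᵐ v : E d, ∀ᵐ η : ℂ, RobDir v0 (η ^ M • v) := rob_line (rob_null hd hcop hdeg) M
  obtain ⟨v, ⟨hv1, hv2⟩, hv3⟩ := ((a1.and a2).and a3).exists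
  have hbr2 := fun c : Fs => hmmbr c v (hv2 c) M hM1 (hdvd c)
  choose ρb Rb bb hρb hRb hbb huniq using hbr2
  -- the runs
  have h0M : (0 : ℂ) ^ M = 0 := zero_pow (by omega)
  obtain ⟨Rk, hRk⟩ := hK.compact.isBounded.exists_norm_le
  obtain ⟨G, hG⟩ : ∃ G : (Σ c : Fs, Fin (mm c)) → ℕ → ℂ → ℂ, ∀ k n s, G k n s =
      it (v0 + s ^ M • v) n (strt v0 v M (kk k.1) (bb k.1 k.2) s) := ⟨_, fun _ _ _ => rfl⟩
  obtain ⟨ok, hok⟩ : ∃ ok : (Σ c : Fs, Fin (mm c)) → ℕ → ℂ → Prop, ∀ k n s, ok k n s ↔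
      ev (v0 + s ^ M • v).2 (G k n s) ≠ 0 := ⟨_, fun _ _ _ => Iff.rfl⟩
  have hrun : ∀ k : (Σ c : Fs, Fin (mm c)), ∃ ρ0 r1 L : ℝ, Run (G k) (ok k) M ρ0 r1 L := by
    rintro ⟨c, i⟩
    have h2 := core_run hK hM1 (hkk1 c) (hcK c) (hkkG c) (hρb c) (hbb c i).1 (hbb c i).2.1
      (hbb c i).2.2 (hmmfl c) (hv1 c)
    have e1 : (fun n s => it (v0 + s ^ M • v) n (strt v0 v M (kk c) (bb c i) s)) = G ⟨c, i⟩ := by
      funext n s
      exact (hG ⟨c, i⟩ n s).symm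
    have e2 : (fun n s => ev (v0 + s ^ M • v).2
        (it (v0 + s ^ M • v) n (strt v0 v M (kk c) (bb c i) s)) ≠ 0) = ok ⟨c, i⟩ := by
      funext n s
      rw [← hG ⟨c, i⟩ n s]
      exact propext (hok ⟨c, i⟩ n s).symm
    rw [e1, e2] at h2
    exact h2
  have hbound : ∀ (k : (Σ c : Fs, Fin (mm c))) (n : ℕ), ‖G k n (0 : ℂ)‖ ≤ Rk := by
    rintro ⟨c, i⟩ n
    rw [hG]
    show ‖it (v0 + (0 : ℂ) ^ M • v) n (it (v0 + (0 : ℂ) ^ M • v) (kk c) (bb c i 0))‖ ≤ Rk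
    rw [h0M, zero_smul, add_zero, (hbb c i).2.1, ← it_add]
    exact hRk _ (hcK c _)
  obtain ⟨ρ, n, Ψ, hL⟩ := lims hrun hbound
  -- the parameter
  obtain ⟨η, hη1, hη0, hηN, hηB⟩ := sele (N := {η : ℂ | ¬ RobDir v0 (η ^ M • v)}) hbd
    (fun z hz => basin_near hd h0 hz) hL.diff hL.ncst (ae_iff.1 hv3)
  have hrob : RobDir v0 (η ^ M • v) := by
    by_contra h
    exact hηN h
  have hηn : ‖η‖ < 1 := by rwa [mem_ball_zero_iff] at hη1
  obtain ⟨τ, hτ⟩ : ∃ τ : ℕ → E d × ℝ, ∀ j, τ j = (η ^ M • v, ρ j ^ M) := ⟨_, fun _ => rfl⟩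
  have hτl : Tendsto τ atTop (flt (η ^ M • v)) := by
    have h2 : Tendsto (fun j => ρ j ^ M) atTop (𝓝[>] 0) := by
      rw [tendsto_nhdsWithin_iff]
      constructor
      · have h3 := hL.zero.pow M
        rwa [zero_pow (by omega : M ≠ 0)] at h3
      · exact Eventually.of_forall fun j => pow_pos (hL.pos j) M
    have h3 : Tendsto (fun j : ℕ => ((η ^ M • v, ρ j ^ M) : E d × ℝ)) atTop
        (𝓝 (η ^ M • v) ×ˢ 𝓝[>] 0) := tendsto_const_nhds.prodMk h2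
    exact h3.congr fun j => (hτ j).symm
  have hpv : ∀ j, pv v0 (τ j) = v0 + ((ρ j : ℂ) * η) ^ M • v := by
    intro j
    rw [hτ]
    unfold pv
    simp only
    congr 1
    rw [mul_pow, mul_smul, ← Complex.ofReal_pow, Complex.coe_smul]
  have hwl : Tendsto (fun j => pv v0 (τ j)) atTop (𝓝 v0) := (pv_lim v0 _).comp hτl
  have hsl : Tendsto (fun j => (ρ j : ℂ) * η) atTop (𝓝 0) := by
    have h2 : Tendsto (fun j => (ρ j : ℂ)) atTop (𝓝 ((0 : ℝ) : ℂ)) :=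
      (Complex.continuous_ofReal.tendsto 0).comp hL.zero
    have h3 := h2.mul_const η
    rwa [Complex.ofReal_zero, zero_mul] at h3
  have hloc : ∀ c : ℂ, ∃ R : ℝ, 0 < R ∧ (wv v0 c = 0 → ∀ᶠ j in atTop, ∀ z ∈ ball c R,
      wv (pv v0 (τ j)) z = 0 → Att (Rf (pv v0 (τ j))) (z : OnePoint ℂ)) := by
    intro c
    by_cases hw0 : wv v0 c = 0
    swap
    · exact ⟨1, one_pos, fun h => absurd h hw0⟩
    by_cases hB : Basin v0 c
    · have h2 := hrob c hB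
      rw [Filter.eventually_prod_iff] at h2
      obtain ⟨pa, hpa, pb, hpb, hab⟩ := h2
      obtain ⟨R, hR, hRb⟩ := Metric.eventually_nhds_iff_ball.1 hpb
      refine ⟨R, hR, fun _ => ?_⟩
      filter_upwards [hτl.eventually hpa] with j hj z hz _
      exact hab hj (hRb z hz)
    · have hcF : c ∈ Fs := (hFs c).2 ⟨hw0, hB⟩
      obtain ⟨c', hc'⟩ : ∃ c' : Fs, (c' : ℂ) = c := ⟨⟨c, hcF⟩, rfl⟩
      refine ⟨Rb c', hRb c', fun _ => ?_⟩
      have hi : ∀ i : Fin (mm c'), ∀ᶠ j in atTop,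
          Att (Rf (pv v0 (τ j))) ((bb c' i ((ρ j : ℂ) * η) : ℂ) : OnePoint ℂ) := by
        intro i
        have h2 := hrob _ (hηB ⟨c', i⟩)
        obtain ⟨k, hk⟩ : ∃ k : (Σ c : Fs, Fin (mm c)), k = ⟨c', i⟩ := ⟨_, rfl⟩
        rw [← hk] at h2
        have h3 : Tendsto (fun j : ℕ => (τ j, G k (n k j) ((ρ j : ℂ) * η))) atTop
            (flt (η ^ M • v) ×ˢ 𝓝 (Ψ k η)) := by
          refine hτl.prodMk ?_
          have h5 : Tendsto (fun j : ℕ => (j, η)) atTop (atTop ×ˢ 𝓝 η) :=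
            tendsto_id.prodMk tendsto_const_nhds
          exact (hL.lim k η hη1).comp h5
        have h4 : ∀ᶠ j in atTop, Att (Rf (pv v0 (τ j)))
            ((G k (n k j) ((ρ j : ℂ) * η) : ℂ) : OnePoint ℂ) := h3.eventually h2
        have hbd' : ∀ᶠ s in 𝓝 (0 : ℂ), DifferentiableAt ℂ (bb c' i) s := by
          filter_upwards [isOpen_ball.mem_nhds (mem_ball_self (hρb c'))] with s hs
          exact (hbb c' i).1.differentiableAt (isOpen_ball.mem_nhds hs)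
        have h5 := diff_n (v0 := v0) (v := v) hM1 (w := bb c' i) (kk c')
          (fun i' _ => by rw [(hbb c' i).2.1]; exact hden c' i') hbd'
        have h5' : ∀ᶠ s in 𝓝 (0 : ℂ), ∀ i' < kk c',
            ev (v0 + s ^ M • v).2 (it (v0 + s ^ M • v) i' (bb c' i s)) ≠ 0 := by
          filter_upwards [h5] with s hs
          exact hs.2
        have h6 := hwl.eventually (cop_near hcop hdeg (by omega))
        filter_upwards [h4, hsl.eventually h5', h6] with j k1 k2 k3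
        have hsj : (ρ j : ℂ) * η ∈ ball (0 : ℂ) (ρ j) := by
          rw [mem_ball_zero_iff, norm_mul, Complex.norm_real, Real.norm_of_nonneg (hL.pos j).le]
          calc ρ j * ‖η‖ < ρ j * 1 := mul_lt_mul_of_pos_left hηn (hL.pos j)
            _ = ρ j := mul_one _
        have hGj : ∀ i', G k i' ((ρ j : ℂ) * η) =
            it (pv v0 (τ j)) i' (it (pv v0 (τ j)) (kk c') (bb c' i ((ρ j : ℂ) * η))) := by
          intro i'
          rw [hG, hk, hpv]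
          rfl
        have k4 : Att (Rf (pv v0 (τ j)))
            ((it (pv v0 (τ j)) (kk c') (bb c' i ((ρ j : ℂ) * η)) : ℂ) : OnePoint ℂ) := by
          refine pull_one k3.1 (n := n k j) ?_ ?_
          · intro i' hi'
            rw [← hGj, hpv]
            exact (hok k i' _).1 (hL.hok k j i' hi' _ hsj)
          · rw [← hGj]
            exact k1
        refine pull_one k3.1 (n := kk c') ?_ k4
        intro i' hi'
        rw [hpv]
        exact k2 i' hi'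
      have hall := Filter.eventually_all.2 hi
      have h7 : ∀ᶠ j in atTop, (ρ j : ℂ) * η ∈ ball (0 : ℂ) (ρb c') :=
        hsl.eventually (ball_mem_nhds _ (hρb c'))
      filter_upwards [hall, h7] with j k1 k2 z hz hwz
      rw [hpv] at hwz
      obtain ⟨i, hzi⟩ := huniq c' _ k2 z (by rw [hc']; exact hz) hwz
      rw [hzi]
      exact k1 i
  choose R hR0 hR using hloc
  have h2 := hwl.eventually (hyp_near hd hcop hdeg h1 (R := R) fun c _ => hR0 c)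
  have h3 : ∀ᶠ j in atTop, ∀ c ∈ hzf.toFinset, ∀ z ∈ ball c (R c),
      wv (pv v0 (τ j)) z = 0 → Att (Rf (pv v0 (τ j))) (z : OnePoint ℂ) := by
    rw [Filter.eventually_all_finset]
    intro c hc
    exact hR c (hzf.mem_toFinset.1 hc)
  have h4 := hwl.eventually (ball_mem_nhds v0 hε)
  obtain ⟨j, ⟨k1, k2⟩, k3⟩ := ((h2.and h3).and h4).exists
  refine ⟨pv v0 (τ j), k3, k1 fun c hc z hz hwz => ?_⟩
  exact k2 c (hzf.mem_toFinset.2 hc) z hz hwz

end Pool.Agent.H91.CE
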