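import Pool.Agent.H91.CE.DYNB
import Pool.Agent.H91.CE.SELE

/-!
# Module CRB: the attracted points are fat at a point mapped to a point of exponential growth

PROOF. `η0, r, ρ, n, S` from `dyn_balls` for `x = it v0 1 c`. `F u = it v0 1 (c + u) - x` is holomorphic near `0` (`hc`), `F 0 = 0`, not locally constant (the map is not constant near `c`:
`wv v0` is the value of a nonzero polynomial since `d ≥ 2` and the map is coprime of degree `d` -- `wv_ne` in HYPF says its zeros are finitely many -- so `F' (u) = wv v0 (c + u) / ev v0.2 (c + u) ^ 2` is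
not zero for small `u ≠ 0`). So `F u = u ^ m * G u`, `m ≥ 1`, `G` holomorphic near `0`, `a = G 0 ≠ 0` (`AnalyticAt.exists_eventuallyEq_pow_smul_nonzero_iff`). Let `δ j > 0` with
`‖a‖ * δ j ^ m = ρ j` (real `m`-th root), `δ j → 0`; choose `ζ0` with `(a / ‖a‖) * ζ0 ^ m = η0` (`IsAlgClosed.exists_pow_nat_eq`), `‖ζ0‖ ^ m = ‖η0‖ < 1`, so `‖ζ0‖ < 1`. The functions
`ζ ↦ F (δ j ζ) / ρ j = (a / ‖a‖) ζ ^ m * (G (δ j ζ) / a)` tend to `(a / ‖a‖) ζ ^ m` uniformly on `ball 0 1`; so for a small `r' > 0` (`ball ζ0 r' ⊆ ball 0 1`) and `j ≥ J`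
`F (δ j ζ) = ρ j η` with `η ∈ ball η0 r`, for all `ζ ∈ ball ζ0 r'`. Then `it v0 (n j + 1) (c + δ j ζ) = it v0 (n j) (x + ρ j η)` (`it_add`, H79/Par/It) is in the basin unless it is in `S`; the
set of these `ζ` is countable by `pre_cnt` (SELE) for the function `ζ ↦ it v0 (n j + 1) (c + δ j ζ)`, holomorphic on `ball ζ0 r'` (`tr_hasDerivAt`, denominators nonzero by `dyn_balls`) and not constant
(if it were constant, its derivative `δ j * trD v0 (n j + 1) (c + δ j ζ)` would vanish on the ball; `trD` is a product of `wv v0 (it v0 i (..)) / ..`; a zero on an open set means that some `it v0 i (c + δ j ζ)` is a zero of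
`wv v0` for uncountably many `ζ`, so one of the finitely many zeros for uncountably many `ζ`; by induction on `i` the iterates are not constant on any open set. Or: use `pre_countable`, H79/Par/PerFin: the set of
the points of the sphere whose orbit hits a given point is countable, applied to every point of the countable set `S`, with `rat_it`.) A countable set has volume zero; shift the sequences by `J`.
-/

set_option autoImplicit false

open Filter Topology Polynomial Metric Set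

namespace Pool.Agent.H91.CE

open Pool.Agent.H44.Fatou Pool.Agent.H32.BT Pool.Agent.H79.Eul Pool.Agent.H79.Par
open Pool.Agent.H35.RL Pool.Agent.H35.EX

theorem fat_crit {d : ℕ} (hd : 2 ≤ d) {v0 : E d} (h0 : Chart0 v0) {K : Set ℂ} (hK : Inv v0 K)
    (hbd : Dense {z : ℂ | Basin v0 z}) {c : ℂ} (hc : ev v0.2 c ≠ 0) (hx : it v0 1 c ∈ K)
    (hg : Gr v0 (it v0 1 c)) : Fat {z : ℂ | ∃ m : ℕ, Basin v0 (it v0 m z)} c := by
  have hd1 : 1 ≤ max (pol v0.1).natDegree (pol v0.2).natDegree := by rw [h0.2.1]; omega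
  obtain ⟨η0, r0, ρ, n, S, hr0, hrs, hρ, hρ0, hS, hden, hbas⟩ := dyn_balls hd h0 hK hbd hx hg
  obtain ⟨x, hxe⟩ : ∃ x : ℂ, x = it v0 1 c := ⟨_, rfl⟩
  rw [← hxe] at hden hbas
  have hη0 : ‖η0‖ < 1 := mem_ball_zero_iff.1 (hrs (mem_ball_self hr0))
  -- points whose orbit hits a countable set
  have hcnt : ∀ {S' : Set ℂ}, S'.Countable →
      {z : ℂ | ∃ s ∈ S', ∃ j : ℕ, (Rf v0)^[j] (z : OnePoint ℂ) = (s : OnePoint ℂ)}.Countable := by
    intro S' hS'
    have h1 : {z : ℂ | ∃ s ∈ S', ∃ j : ℕ, (Rf v0)^[j] (z : OnePoint ℂ) = (s : OnePoint ℂ)} =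
        ⋃ s ∈ S', {z : ℂ | (z : OnePoint ℂ) ∈
          {y : OnePoint ℂ | ∃ j : ℕ, (Rf v0)^[j] y = (s : OnePoint ℂ)}} := by
      ext z
      simp only [mem_ofPred_eq, mem_iUnion, exists_prop]
    rw [h1]
    exact hS'.biUnion fun s _ => countable_coe (pre_countable h0.1 hd1 _)
  -- continuity of the denominator
  have hevc : ∀ p : Fin (d + 1) → ℂ, Continuous (fun z : ℂ => ev p z) := fun p =>
    ev_cont.comp (continuous_const.prodMk continuous_id)
  have hevd : ∀ p : Fin (d + 1) → ℂ, Differentiable ℂ (fun z => ev p z) := by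
    intro p
    unfold ev
    fun_prop
  -- the local expansion
  have hdn : ∀ᶠ u : ℂ in 𝓝 0, ev v0.2 (c + u) ≠ 0 := by
    have h1 : ContinuousAt (fun u : ℂ => ev v0.2 (c + u)) 0 :=
      ((hevc v0.2).comp (continuous_const.add continuous_id)).continuousAt
    exact h1.eventually_ne (by rw [add_zero]; exact hc)
  have hFa : AnalyticAt ℂ (fun u : ℂ => it v0 1 (c + u) - x) 0 := by
    rw [Complex.analyticAt_iff_eventually_differentiableAt]
    filter_upwards [hdn] with u hu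
    have h1 : DifferentiableAt ℂ (fun u : ℂ => ev v0.1 (c + u) / ev v0.2 (c + u)) u := by
      refine DifferentiableAt.div ?_ ?_ hu
      · exact ((hevd v0.1).comp (differentiable_id.const_add c)).differentiableAt
      · exact ((hevd v0.2).comp (differentiable_id.const_add c)).differentiableAt
    exact h1.sub_const x
  have hFn : ¬ ∀ᶠ u : ℂ in 𝓝 0, it v0 1 (c + u) - x = 0 := by
    intro hcon
    obtain ⟨ε, hε, hb⟩ := Metric.eventually_nhds_iff_ball.1 (hcon.and hdn)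
    have hc1 := hcnt (S' := {x}) (Set.countable_singleton x)
    obtain ⟨y, hy1, hy2⟩ := (hc1.dense_compl ℂ).inter_open_nonempty (ball c ε) isOpen_ball
      ⟨c, mem_ball_self hε⟩
    apply hy2
    have h1 : y - c ∈ ball (0 : ℂ) ε := by
      rw [mem_ball_zero_iff, ← dist_eq_norm]
      exact hy1
    obtain ⟨h2, h3⟩ := hb _ h1
    rw [add_sub_cancel] at h2 h3
    refine ⟨x, rfl, 1, ?_⟩
    have h4 : ∀ i < 1, ev v0.2 (it v0 i y) ≠ 0 := by
      intro i hi
      obtain rfl : i = 0 := by omega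
      exact h3
    rw [rat_it h4, sub_eq_zero.1 h2]
  obtain ⟨m, G, hGa, hG0, hGe⟩ := hFa.exists_eventuallyEq_pow_smul_nonzero_iff.2 hFn
  have hm : 0 < m := by
    rcases Nat.eq_zero_or_pos m with h | h
    · exfalso
      have h1 := hGe.self_of_nhds
      rw [h, pow_zero, one_smul, add_zero, ← hxe, sub_self] at h1
      exact hG0 h1.symm
    · exact h
  obtain ⟨a, ha⟩ : ∃ a : ℂ, a = G 0 := ⟨_, rfl⟩
  rw [← ha] at hG0
  have hap : 0 < ‖a‖ := norm_pos_iff.2 hG0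
  obtain ⟨ζ0, hζ0⟩ := IsAlgClosed.exists_pow_nat_eq (η0 * ‖a‖ / a) hm
  have hζn : ‖ζ0‖ ^ m = ‖η0‖ := by
    rw [← norm_pow, hζ0, norm_div, norm_mul, Complex.norm_real, norm_norm, mul_div_assoc,
      div_self hap.ne', mul_one]
  have hζ1 : ‖ζ0‖ < 1 := by
    by_contra hcon
    have h1 : 1 ≤ ‖ζ0‖ ^ m := one_le_pow₀ (not_lt.1 hcon)
    rw [hζn] at h1
    linarith
  -- the scales
  obtain ⟨δ, hδ⟩ : ∃ δ : ℕ → ℝ, ∀ j, δ j = (ρ j / ‖a‖) ^ ((m : ℝ)⁻¹) := ⟨_, fun _ => rfl⟩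
  have hδp : ∀ j, 0 < δ j := by
    intro j
    rw [hδ]
    exact Real.rpow_pos_of_pos (div_pos (hρ j) hap) _
  have hδm : ∀ j, δ j ^ m = ρ j / ‖a‖ := by
    intro j
    rw [hδ]
    exact Real.rpow_inv_natCast_pow (div_pos (hρ j) hap).le hm.ne'
  have hδ0 : Tendsto δ atTop (𝓝 0) := by
    have hminv : 0 < ((m : ℝ)⁻¹) := by positivity
    have h1 : Tendsto (fun j => ρ j / ‖a‖) atTop (𝓝 0) := by
      have := hρ0.div_const ‖a‖
      rwa [zero_div] at this
    have h2 := h1.rpow_const (p := (m : ℝ)⁻¹) (Or.inr hminv.le)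
    rw [Real.zero_rpow hminv.ne'] at h2
    exact h2.congr fun j => (hδ j).symm
  -- the local picture
  have hprod : Tendsto (fun p : ℝ × ℂ => (p.1 : ℂ) * p.2) (𝓝 0 ×ˢ 𝓝 ζ0) (𝓝 0) := by
    rw [← nhds_prod_eq]
    have h1 : Continuous (fun p : ℝ × ℂ => (p.1 : ℂ) * p.2) :=
      (Complex.continuous_ofReal.comp continuous_fst).mul continuous_snd
    have h2 := h1.tendsto ((0 : ℝ), ζ0)
    simpa using h2
  have hΦ : Tendsto (fun p : ℝ × ℂ => p.2 ^ m * G ((p.1 : ℂ) * p.2) / ‖a‖) (𝓝 0 ×ˢ 𝓝 ζ0)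
      (𝓝 η0) := by
    have h1 : Tendsto (fun p : ℝ × ℂ => G ((p.1 : ℂ) * p.2)) (𝓝 0 ×ˢ 𝓝 ζ0) (𝓝 a) := by
      rw [ha]
      exact hGa.continuousAt.tendsto.comp hprod
    have h2 : Tendsto (fun p : ℝ × ℂ => p.2 ^ m) (𝓝 0 ×ˢ 𝓝 ζ0) (𝓝 (ζ0 ^ m)) :=
      tendsto_snd.pow m
    have h3 := (h2.mul h1).div_const (‖a‖ : ℂ)
    have h4 : ζ0 ^ m * a / (‖a‖ : ℂ) = η0 := by
      rw [hζ0]
      have h5 : (‖a‖ : ℂ) ≠ 0 := by exact_mod_cast hap.ne'
      field_simp
    rw [h4] at h3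
    exact h3
  have hall := (hΦ.eventually (ball_mem_nhds η0 hr0)).and
    ((hprod.eventually hGe).and (hprod.eventually hdn))
  rw [Filter.eventually_prod_iff] at hall
  obtain ⟨pa, hpa, pb, hpb, hab⟩ := hall
  obtain ⟨J, hJ⟩ := Filter.eventually_atTop.1 (hδ0.eventually hpa)
  obtain ⟨r', hr', hrb⟩ := Metric.eventually_nhds_iff_ball.1 hpb
  refine ⟨ζ0, min r' (1 - ‖ζ0‖), fun j => δ (j + J), lt_min hr' (by linarith), ?_,
    fun j => hδp _, hδ0.comp (tendsto_add_atTop_nat J), ?_⟩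
  · intro z hz
    rw [mem_ball, dist_eq_norm] at hz
    rw [mem_ball_zero_iff]
    have h1 : ‖z - ζ0‖ < 1 - ‖ζ0‖ := hz.trans_le (min_le_right _ _)
    calc ‖z‖ = ‖(z - ζ0) + ζ0‖ := by rw [sub_add_cancel]
      _ ≤ ‖z - ζ0‖ + ‖ζ0‖ := norm_add_le _ _
      _ < 1 := by linarith
  · intro j
    have hj := hJ (j + J) (Nat.le_add_left _ _)
    have hcS := hcnt hS
    have hcp : {ζ : ℂ | c + (δ (j + J) : ℂ) * ζ ∈ {z : ℂ | ∃ s ∈ S, ∃ j : ℕ,
        (Rf v0)^[j] (z : OnePoint ℂ) = (s : OnePoint ℂ)}}.Countable := by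
      refine hcS.preimage_of_injOn (f := fun ζ : ℂ => c + (δ (j + J) : ℂ) * ζ) ?_
      intro ζ _ ζ' _ h
      have h1 : (δ (j + J) : ℂ) ≠ 0 := by exact_mod_cast (hδp (j + J)).ne'
      exact mul_left_cancel₀ h1 (add_left_cancel h)
    filter_upwards [hcp.ae_notMem MeasureTheory.volume] with ζ hζ hζb
    have hζ' : ζ ∈ ball ζ0 r' := ball_subset_ball (min_le_left _ _) hζb
    obtain ⟨h1, h2, h3⟩ := hab hj (hrb ζ hζ')
    simp only at h1 h2 h3
    obtain ⟨η, hη⟩ : ∃ η : ℂ, η = ζ ^ m * G ((δ (j + J) : ℂ) * ζ) / ‖a‖ := ⟨_, rfl⟩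
    rw [← hη] at h1
    have hval : it v0 1 (c + (δ (j + J) : ℂ) * ζ) = x + (ρ (j + J) : ℂ) * η := by
      have h4 : ((δ (j + J) : ℂ)) ^ m = (ρ (j + J) : ℂ) / (‖a‖ : ℂ) := by
        rw [← Complex.ofReal_pow, hδm, Complex.ofReal_div]
      rw [sub_zero, mul_pow, h4, smul_eq_mul] at h2
      have h5 : it v0 1 (c + (δ (j + J) : ℂ) * ζ) =
          x + (ρ (j + J) : ℂ) / (‖a‖ : ℂ) * ζ ^ m * G ((δ (j + J) : ℂ) * ζ) := by
        rw [← h2]
        ring
      rw [h5, hη]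
      ring
    have hηb : ‖η‖ < 1 := mem_ball_zero_iff.1 (hrs h1)
    have hyb : x + (ρ (j + J) : ℂ) * η ∈ ball x (ρ (j + J)) := by
      rw [mem_ball, dist_eq_norm, add_sub_cancel_left, norm_mul, Complex.norm_real,
        Real.norm_of_nonneg (hρ _).le]
      calc ρ (j + J) * ‖η‖ < ρ (j + J) * 1 := mul_lt_mul_of_pos_left hηb (hρ _)
        _ = ρ (j + J) := mul_one _
    have hitn : it v0 (n (j + J) + 1) (c + (δ (j + J) : ℂ) * ζ) =
        it v0 (n (j + J)) (x + (ρ (j + J) : ℂ) * η) := by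
      rw [it_add, hval]
    have hdens : ∀ i < n (j + J) + 1, ev v0.2 (it v0 i (c + (δ (j + J) : ℂ) * ζ)) ≠ 0 := by
      intro i hi
      rcases Nat.eq_zero_or_pos i with h | h
      · rw [h]
        exact h3
      · obtain ⟨i', rfl⟩ : ∃ i', i = i' + 1 := ⟨i - 1, by omega⟩
        rw [it_add, hval]
        exact hden _ _ hyb i' (by omega)
    refine ⟨n (j + J) + 1, ?_⟩
    rw [hitn]
    refine hbas _ η h1 fun hS' => hζ ?_
    refine ⟨_, hS', n (j + J) + 1, ?_⟩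
    rw [← hitn]
    exact rat_it hdens

end Pool.Agent.H91.CE
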