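import Pool.Agent.H91.CE.SERF
import Pool.Agent.H91.CE.CRB

/-!
# Module KAPN: transversality

PROOFS. `bas_cv`: `P` = the periodic points of `Rf v0` in the plane; the proof of `bas_gg` (H35/EX/KapNe) shows that `Basin v0 y` gives `w ∈ P`, `n > 0` with `(gg ..)^[n * k] y → w`; apply it to
`y = it v0 m z = (gg ..)^[m] z` (`kn_it_gg`), `(gg ..)^[n * k] ((gg ..)^[m] z) = (gg ..)^[n * k + m] z`.
`kap_ne1`: copy of `kapE_ne1` (H35/EX/KapNe): by contradiction all `kapE v0 v x m = 0`, so by `kap_sum` `∑' k, xi v0 v (x k) / trD v0 k (x 1) = 0` for all `v`; `Ser d (pol v0.1) (pol v0.2) x (fun k => 1 / trD v0 k (x 1))`: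
boundedness and `bb` from `∀ k, x k ∈ K` (`K` compact, `hK.den`), `dg (x (k+1)) ≠ 0`: for `k + 1 < m` by `hcr`, for `k + 1 ≥ m` by `hg` (`gr_ne`: a factor of `trD v0 n (x m) ≠ 0`); `sm` from `hg` (`kn_T2`).
Then `ser_falseD` with `fat_crit` (`c = x 0`; `it v0 1 (x 0) = x 1 ∈ K`; `Gr v0 (x 1)`: `trD v0 n (x 1)` for `n ≥ m - 1` is `trD v0 (n - (m - 1)) (x m) * trD v0 (m - 1) (x 1)` (`kn_T2`), and the finitely many smaller `n` are
nonzero: a smaller constant `c`) and `bas_cv` (`Fat` is monotone in the set). `kap_ne`: as `kapE_ne`: last critical index `k < m`, `kapE_shift`.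
-/

set_option autoImplicit false

open Filter Topology Polynomial Metric Set

namespace Pool.Agent.H91.CE

open Pool.Agent.H44.Fatou Pool.Agent.H32.BT Pool.Agent.H79.Eul Pool.Agent.H79.Par
open Pool.Agent.H35.RL Pool.Agent.H35.EX

open Pool.Agent.H61.TT

theorem bas_cv {d : ℕ} {v0 : E d} (hd : 2 ≤ d) (hcop : IsCoprime (pol v0.1) (pol v0.2))
    (hdeg : max (pol v0.1).natDegree (pol v0.2).natDegree = d) :
    ∃ P : Set ℂ, P.Countable ∧ ∀ z : ℂ, (∃ m : ℕ, Basin v0 (it v0 m z)) →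
      Cv (gg (pol v0.1) (pol v0.2)) P z := by
  have hcnt := per_all_countable hcop (by rw [hdeg]; exact hd)
  refine ⟨(fun z : ℂ => (z : OnePoint ℂ)) ⁻¹' {x : OnePoint ℂ | ∃ n : ℕ, 0 < n ∧
    (rat (pol v0.1) (pol v0.2))^[n] x = x}, hcnt.preimage OnePoint.coe_injective, ?_⟩
  rintro z ⟨m, z', n, hT, h1, h2⟩
  have hn : 0 < n := by
    rcases hT with hT | hT
    · exact hT.1.1
    · exact hT.1
  have hlim : Tendsto (fun k : ℕ => (gg (pol v0.1) (pol v0.2))^[n * k] (it v0 m z)) atTop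
      (𝓝 z') := by
    rcases hT with hT | hT
    · exact kn_lim h1 hT.2
    · exact kn_lim h1 hT.2.2.1
  refine ⟨m, n, hn, z', ?_, ?_⟩
  · show ∃ n : ℕ, 0 < n ∧ (rat (pol v0.1) (pol v0.2))^[n] (z' : OnePoint ℂ) = (z' : OnePoint ℂ)
    rcases hT with hT | hT
    · exact ⟨n, hT.1.1, hT.1.2.1⟩
    · refine ⟨n, hT.1, ?_⟩
      have h3 := (orb_all h2).1 n
      have h4 := (fix_trD h3 (a := 1) hT.2.1).1
      have h5 := (orb_all h2).2 n
      have h6 : it v0 n z' = z' := h4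
      rw [h6] at h5
      exact h5
  · refine hlim.congr fun k => ?_
    rw [kn_it_gg, ← Function.iterate_add_apply]

private theorem kn2_low {T : ℕ → ℂ} (hT : ∀ k, T k ≠ 0) {q : ℝ} (hq : 0 < q) (N : ℕ) :
    ∃ c : ℝ, 0 < c ∧ ∀ n < N, c * q ^ n ≤ ‖T n‖ := by
  induction N with
  | zero => exact ⟨1, one_pos, fun n hn => absurd hn (Nat.not_lt_zero n)⟩
  | succ N ih =>
    obtain ⟨c, hc, h⟩ := ih
    have h1 : 0 < ‖T N‖ / q ^ N := div_pos (norm_pos_iff.2 (hT N)) (by positivity)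
    refine ⟨min c (‖T N‖ / q ^ N), lt_min hc h1, fun n hn => ?_⟩
    rcases Nat.lt_succ_iff_lt_or_eq.1 hn with hn | rfl
    · exact (mul_le_mul_of_nonneg_right (min_le_left _ _) (by positivity)).trans (h n hn)
    · calc min c (‖T n‖ / q ^ n) * q ^ n ≤ ‖T n‖ / q ^ n * q ^ n :=
            mul_le_mul_of_nonneg_right (min_le_right _ _) (by positivity)
        _ = ‖T n‖ := by
            have : q ^ n ≠ 0 := by positivity
            field_simp

private theorem kn2_gr {d : ℕ} {v0 : E d} {x : ℕ → ℂ} (ho : ∀ j, Orb v0 x j) {m : ℕ} (hm : 1 ≤ m)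
    (hg : Gr v0 (x m)) (hT : ∀ k, trD v0 k (x 1) ≠ 0) : Gr v0 (x 1) := by
  obtain ⟨c, q, hc, hq, h⟩ := hg
  have hq0 : 0 < q := by linarith
  obtain ⟨c1, hc1, h1⟩ := kn2_low hT hq0 (m - 1)
  have hTm : 0 < ‖trD v0 (m - 1) (x 1)‖ := norm_pos_iff.2 (hT _)
  have h2 : 0 < c * ‖trD v0 (m - 1) (x 1)‖ / q ^ (m - 1) := by positivity
  refine ⟨min c1 (c * ‖trD v0 (m - 1) (x 1)‖ / q ^ (m - 1)), q, lt_min hc1 h2, hq, fun n => ?_⟩
  by_cases hn : n < m - 1
  · exact (mul_le_mul_of_nonneg_right (min_le_left _ _) (by positivity)).trans (h1 n hn)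
  · obtain ⟨i, rfl⟩ := Nat.exists_eq_add_of_le (not_lt.1 hn)
    rw [kn_T2 ho, Nat.sub_add_cancel hm, norm_mul]
    calc min c1 (c * ‖trD v0 (m - 1) (x 1)‖ / q ^ (m - 1)) * q ^ (m - 1 + i)
        ≤ c * ‖trD v0 (m - 1) (x 1)‖ / q ^ (m - 1) * q ^ (m - 1 + i) :=
          mul_le_mul_of_nonneg_right (min_le_right _ _) (by positivity)
      _ = c * q ^ i * ‖trD v0 (m - 1) (x 1)‖ := by
          rw [pow_add]
          have : q ^ (m - 1) ≠ 0 := by positivity
          field_simp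
      _ ≤ ‖trD v0 i (x m)‖ * ‖trD v0 (m - 1) (x 1)‖ :=
          mul_le_mul_of_nonneg_right (h i) hTm.le

private theorem kn2_fat {A B : Set ℂ} {c : ℂ} (h : Fat A c) (hAB : ∀ z ∈ A, z ∈ B) : Fat B c := by
  obtain ⟨ζ0, r, δ, hr, hs, hδ, hδ0, hA⟩ := h
  exact ⟨ζ0, r, δ, hr, hs, hδ, hδ0, fun j => (hA j).mono fun ζ h1 h2 => hAB _ (h1 h2)⟩

theorem kap_ne1 {d : ℕ} {v0 : E d} (hd : 2 ≤ d) (h0 : Chart0 v0) {K : Set ℂ} (hK : Inv v0 K)
    {x : ℕ → ℂ} (ho : ∀ j, Orb v0 x j) (hxK : ∀ j, x j ∈ K) (hc : wv v0 (x 0) = 0) {m : ℕ}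
    (hm : 1 ≤ m) (hg : Gr v0 (x m)) (hcr : ∀ i, 0 < i → i < m → wv v0 (x i) ≠ 0)
    (hbd : Dense {z : ℂ | Basin v0 z}) : ∃ v : E d, kapE v0 v x m ≠ 0 := by
  by_contra hcon
  push Not at hcon
  have hR : RatD d (pol v0.1) (pol v0.2) := ⟨hd, h0.1, h0.2.1⟩
  have hden : ∀ k, ev v0.2 (x k) ≠ 0 := fun k => (ho (k + 1) k (Nat.lt_succ_self _)).1
  have hval : ∀ k, ev v0.1 (x k) / ev v0.2 (x k) = x (k + 1) :=
    fun k => (ho (k + 1) k (Nat.lt_succ_self _)).2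
  have hdg : ∀ k, dg (pol v0.1) (pol v0.2) (x (k + 1)) ≠ 0 := by
    intro k
    by_cases h : k + 1 < m
    · rw [← dg_eq]
      exact div_ne_zero (hcr (k + 1) (Nat.succ_pos _) h) (pow_ne_zero 2 (hden _))
    · obtain ⟨i, hi⟩ := Nat.exists_eq_add_of_le (not_lt.1 h)
      rw [hi]
      have h1 := gr_ne hg (i + 1)
      rw [trD_succ, ke_shift ho m i] at h1
      exact left_ne_zero_of_mul h1
  have hT0 : trD v0 0 (x 1) = 1 := by simp [trD]
  have hT : ∀ k, trD v0 k (x 1) ≠ 0 := by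
    intro k
    induction k with
    | zero => rw [hT0]; exact one_ne_zero
    | succ k ih =>
      rw [kn_T ho k]
      exact mul_ne_zero (hdg k) ih
  have hsum : ∀ v : E d, ∑' k : ℕ, xi v0 v (x k) / trD v0 k (x 1) = 0 := by
    intro v
    have h1 := kap_sum hK ho hm (hxK m) hg (hT (m - 1)) v
    rw [hcon v] at h1
    rcases mul_eq_zero.1 h1.symm with h2 | h2
    · exact absurd h2 (hT _)
    · exact h2
  have hbK : ∀ z ∈ K, (pol v0.2).eval z ≠ 0 := by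
    intro z hz
    rw [← ev_pol]
    exact hK.den z hz
  have hser : Ser d (pol v0.1) (pol v0.2) x (fun k => 1 / trD v0 k (x 1)) := by
    refine ⟨?_, ?_, ?_, ?_, ?_, ?_, ?_, ?_⟩
    · obtain ⟨R, hR1⟩ := hK.compact.isBounded.exists_norm_le
      exact ⟨R, fun k => hR1 _ (hxK k)⟩
    · obtain ⟨z0, hz0, hmin⟩ := hK.compact.exists_isMinOn ⟨x m, hxK m⟩
        (f := fun z => ‖(pol v0.2).eval z‖) ((pol v0.2).continuous.norm.continuousOn)
      exact ⟨‖(pol v0.2).eval z0‖, norm_pos_iff.2 (hbK z0 hz0), fun k => hmin (hxK k)⟩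
    · intro k
      unfold gg
      rw [← ev_pol, ← ev_pol]
      exact hval k
    · intro k
      show 1 / trD v0 (k + 1) (x 1) * dg (pol v0.1) (pol v0.2) (x (k + 1)) = 1 / trD v0 k (x 1)
      rw [kn_T ho k]
      have h1 := hT k
      have h2 := hdg k
      field_simp
    · rw [← dg_eq, hc, zero_div]
    · show 1 / trD v0 0 (x 1) = 1
      rw [hT0, div_one]
    · obtain ⟨c, q, hc0, hq, hexp⟩ := hg
      have hq0 : 0 < q := by linarith
      rw [← summable_nat_add_iff (m - 1)]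
      have hTm : 0 < ‖trD v0 (m - 1) (x 1)‖ := norm_pos_iff.2 (hT _)
      have hg : Summable (fun i : ℕ => (1 / (c * ‖trD v0 (m - 1) (x 1)‖)) * (q⁻¹) ^ i) :=
        (summable_geometric_of_lt_one (inv_nonneg.2 hq0.le) (inv_lt_one_of_one_lt₀ hq)).mul_left _
      refine Summable.of_nonneg_of_le (fun i => norm_nonneg _) (fun i => ?_) hg
      rw [norm_div, norm_one, add_comm i (m - 1), kn_T2 ho, Nat.sub_add_cancel hm, norm_mul]
      have h2 := hexp i
      have h3 : 0 < c * q ^ i := by positivity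
      calc 1 / (‖trD v0 i (x m)‖ * ‖trD v0 (m - 1) (x 1)‖)
          ≤ 1 / (c * q ^ i * ‖trD v0 (m - 1) (x 1)‖) := by
            apply one_div_le_one_div_of_le (by positivity)
            exact mul_le_mul_of_nonneg_right h2 hTm.le
        _ = (1 / (c * ‖trD v0 (m - 1) (x 1)‖)) * (q⁻¹) ^ i := by
            rw [inv_pow]
            field_simp
    · intro η hη
      obtain ⟨v, hv⟩ := xi_surj hR hη
      rw [← hsum v]
      refine tsum_congr fun k => ?_
      rw [hv]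
      ring
  have hx1 : it v0 1 (x 0) = x 1 := ke_shift ho 0 1
  have hfat := fat_crit hd h0 hK hbd (hden 0) (by rw [hx1]; exact hxK 1)
    (by rw [hx1]; exact kn2_gr ho hm hg hT)
  obtain ⟨P, hP, hbas⟩ := bas_cv hd h0.1 h0.2.1
  exact ser_falseD hR hser hP (kn2_fat hfat fun z hz => hbas z hz)

theorem kap_ne {d : ℕ} {v0 : E d} (hd : 2 ≤ d) (h0 : Chart0 v0) {K : Set ℂ} (hK : Inv v0 K)
    {x : ℕ → ℂ} (ho : ∀ j, Orb v0 x j) (hxK : ∀ j, x j ∈ K) (hc : wv v0 (x 0) = 0) {m : ℕ}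
    (hm : 1 ≤ m) (hg : Gr v0 (x m))
    (hbd : Dense {z : ℂ | Basin v0 z}) : ∃ v : E d, kapE v0 v x m ≠ 0 := by
  classical
  obtain ⟨k, hkm, hck, hlast⟩ : ∃ k, k < m ∧ wv v0 (x k) = 0 ∧
      ∀ i, k < i → i < m → wv v0 (x i) ≠ 0 := by
    refine ⟨Nat.findGreatest (fun i => wv v0 (x i) = 0) (m - 1), ?_, ?_, ?_⟩
    · have h := Nat.findGreatest_le (P := fun i => wv v0 (x i) = 0) (m - 1)
      omega
    · exact Nat.findGreatest_spec (P := fun i => wv v0 (x i) = 0) (Nat.zero_le (m - 1)) hc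
    · intro i hi him
      exact Nat.findGreatest_is_greatest hi (by omega)
  have hy : Gr v0 ((fun j => x (k + j)) (m - k)) := by
    show Gr v0 (x (k + (m - k)))
    rw [Nat.add_sub_cancel' hkm.le]
    exact hg
  obtain ⟨v, hv⟩ := kap_ne1 hd h0 hK (kn_shift ho k) (x := fun j => x (k + j))
    (m := m - k) (fun j => hxK (k + j)) hck (by omega) hy
    (fun i hi him => hlast (k + i) (by omega) (by omega)) hbd
  exact ⟨v, by rw [kapE_shift ho hkm hck v]; exact hv⟩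

end Pool.Agent.H91.CE
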