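import Pool.Agent.H91.CE.CDefs

/-!
# Module CAU: Cauchy estimate for a Taylor coefficient given by an expansion

PROOF. For `0 < r < ρ` the integral `∮ z in C(0, r), h z / z ^ (M + 1)` does not depend on `r`
(`Complex.circleIntegral_eq_of_differentiable_on_annulus_off_countable`), its norm is at most `2 π D / r ^ M`
(`circleIntegral.norm_integral_le_of_norm_le_const`), and it tends to `2 π i a` as `r → 0` by `ha` (the integral of
`(h z - a z ^ M) / z ^ (M + 1)` has norm at most `2 π ε`, and `∮ a / z = 2 π i a`). So `‖a‖ ≤ D / r ^ M` for all `r < ρ`;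
let `r → ρ`. Alternative: induction on `M` with `dslope`, or the Cauchy estimates for iterated derivatives
(`Complex.norm_iteratedDeriv_le_of_forall_mem_sphere_norm_le`) once `a = iteratedDeriv M h 0 / M !` is known.
-/

set_option autoImplicit false

open Filter Topology Polynomial Metric Set

namespace Pool.Agent.H91.CE

open Pool.Agent.H44.Fatou Pool.Agent.H32.BT Pool.Agent.H79.Eul Pool.Agent.H79.Par
open Pool.Agent.H35.RL Pool.Agent.H35.EX

private theorem cau_aux {ρ : ℝ} {a : ℂ} (hρ : 0 < ρ) (M : ℕ) : ∀ (h : ℂ → ℂ) (D : ℝ),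
    DifferentiableOn ℂ h (ball 0 ρ) → (∀ t ∈ ball (0 : ℂ) ρ, ‖h t‖ ≤ D) →
    ((fun t : ℂ => h t - a * t ^ M) =o[𝓝[≠] 0] fun t : ℂ => t ^ M) → ‖a‖ * ρ ^ M ≤ D := by
  induction M with
  | zero =>
    intro h D hd hb ha
    simp only [pow_zero, mul_one] at ha ⊢
    rw [Asymptotics.isLittleO_one_iff] at ha
    have h1 : Tendsto h (𝓝[≠] 0) (𝓝 a) := by
      have := ha.add_const a
      simpa using this
    refine le_of_tendsto h1.norm ?_
    filter_upwards [mem_nhdsWithin_of_mem_nhds (ball_mem_nhds (0 : ℂ) hρ)] with t ht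
    exact hb t ht
  | succ M ih =>
    intro h D hd hb ha
    have hc : ContinuousAt h 0 := (hd.differentiableAt (ball_mem_nhds (0 : ℂ) hρ)).continuousAt
    have h2 : Tendsto (fun t : ℂ => t ^ (M + 1)) (𝓝[≠] 0) (𝓝 0) := by
      have : Tendsto (fun t : ℂ => t ^ (M + 1)) (𝓝 0) (𝓝 (0 ^ (M + 1))) :=
        (continuous_pow (M + 1)).tendsto 0
      rw [zero_pow (Nat.succ_ne_zero M)] at this
      exact this.mono_left nhdsWithin_le_nhds
    have h0 : h 0 = 0 := by
      have h1 : Tendsto (fun t : ℂ => h t - a * t ^ (M + 1)) (𝓝[≠] 0) (𝓝 0) := ha.trans_tendsto h2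
      have h3 : Tendsto h (𝓝[≠] 0) (𝓝 0) := by
        have := h1.add (h2.const_mul a)
        simpa using this
      exact tendsto_nhds_unique (hc.tendsto.mono_left nhdsWithin_le_nhds) h3
    have hg : ‖a‖ * ρ ^ M ≤ D / ρ := by
      refine ih (dslope h 0) (D / ρ) ?_ ?_ ?_
      · exact (Complex.differentiableOn_dslope (ball_mem_nhds (0 : ℂ) hρ)).2 hd
      · intro t ht
        refine Complex.norm_dslope_le_div_of_mapsTo_ball hd ?_ ht
        intro z hz
        rw [h0, mem_closedBall_zero_iff]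
        exact hb z hz
      · have h4 : (fun t : ℂ => t⁻¹ * (h t - a * t ^ (M + 1))) =o[𝓝[≠] 0]
            fun t : ℂ => t⁻¹ * t ^ (M + 1) :=
          (Asymptotics.isBigO_refl _ _).mul_isLittleO ha
        refine (h4.congr' ?_ ?_)
        · filter_upwards [self_mem_nhdsWithin] with t ht
          have ht' : t ≠ 0 := ht
          rw [dslope_of_ne _ ht', slope_def_field, h0]
          field_simp
          ring
        · filter_upwards [self_mem_nhdsWithin] with t ht
          have ht' : t ≠ 0 := ht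
          rw [pow_succ', inv_mul_cancel_left₀ ht']
    rw [le_div_iff₀ hρ] at hg
    rw [pow_succ, ← mul_assoc]
    exact hg

theorem cau {h : ℂ → ℂ} {M : ℕ} {ρ D : ℝ} {a : ℂ} (hρ : 0 < ρ)
    (hd : DifferentiableOn ℂ h (ball 0 ρ)) (hb : ∀ t ∈ ball (0 : ℂ) ρ, ‖h t‖ ≤ D)
    (ha : (fun t : ℂ => h t - a * t ^ M) =o[𝓝 0] fun t : ℂ => t ^ M) : ‖a‖ * ρ ^ M ≤ D :=
  cau_aux hρ M h D hd hb (ha.mono nhdsWithin_le_nhds)

end Pool.Agent.H91.CE
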