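import Pool.Agent.H91.CE.LIPK
import Pool.Agent.H35.RL.Cocyc

/-!
# Module EXPN: first order expansion of the perturbed iterates, parameter `t = s ^ M`

PROOFS. `exp_one`: one step. `F (t, z) = ev (v0 + t • v).1 z / ev (v0 + t • v).2 z` is differentiable at `(0, y)` with partial derivatives `xi v0 v y` (in `t`) and
`wv v0 y / ev v0.2 y ^ 2` (in `z`, `tr_hasDerivAt_ev`, H32/BT/Trap; in `t`: the quotient rule, `ev (v0 + t • v).i y = ev v0.i y + t * ev v.i y`); compose with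
`s ↦ (s ^ M, G s)`: `F (s ^ M, G s) - F (0, y) - s ^ M xi v0 v y - (wv v0 y / ev v0.2 y ^ 2) (G s - y) = o(|s ^ M| + |G s - y|) = o(s ^ M)` since
`G s - y = s ^ M β + o(s ^ M) = O(s ^ M)`, and `G s → y` as `M ≥ 1`.
`exp_n`: induction on `n` with `exp_one` for `y = it v0 n x`, `β = XX v0 v n x + trD v0 n x * α`; `XX v0 v (n+1) x = xi v0 v y + (wv v0 y / ev v0.2 y ^ 2) * XX v0 v n x`
(definition) and `trD v0 (n+1) x = trD v0 n x * (wv v0 y / ev v0.2 y ^ 2)` (`Finset.prod_range_succ`).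
`diff_n`: induction with `lip_diff`; near `s = 0` the denominators are nonzero by continuity (`exp_n` or differentiability gives continuity at `0`, the values at
`s = 0` are `it v0 i x`, `hw0`, `0 ^ M = 0`).
-/

set_option autoImplicit false

open Filter Topology Polynomial Metric Set

namespace Pool.Agent.H91.CE

open Pool.Agent.H44.Fatou Pool.Agent.H32.BT Pool.Agent.H79.Eul Pool.Agent.H79.Par
open Pool.Agent.H35.RL Pool.Agent.H35.EX

private theorem EXPN_ev1 {d : ℕ} (v0 v : E d) (t z : ℂ) :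
    ev (v0 + t • v).1 z = ev v0.1 z + t * ev v.1 z := by
  unfold ev
  rw [Finset.mul_sum, ← Finset.sum_add_distrib]
  refine Finset.sum_congr rfl fun i _ => ?_
  simp only [Prod.fst_add, Prod.smul_fst, Pi.add_apply, Pi.smul_apply, smul_eq_mul]
  ring

private theorem EXPN_ev2 {d : ℕ} (v0 v : E d) (t z : ℂ) :
    ev (v0 + t • v).2 z = ev v0.2 z + t * ev v.2 z := by
  unfold ev
  rw [Finset.mul_sum, ← Finset.sum_add_distrib]
  refine Finset.sum_congr rfl fun i _ => ?_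
  simp only [Prod.snd_add, Prod.smul_snd, Pi.add_apply, Pi.smul_apply, smul_eq_mul]
  ring

private theorem EXPN_cont {d : ℕ} (p : Fin (d + 1) → ℂ) : Continuous (fun z : ℂ => ev p z) := by
  unfold ev
  fun_prop

theorem exp_one {d : ℕ} {v0 v : E d} {M : ℕ} (hM : 1 ≤ M) {y β : ℂ} {G : ℂ → ℂ}
    (hy : ev v0.2 y ≠ 0)
    (hG : (fun s : ℂ => G s - y - s ^ M * β) =o[𝓝 0] fun s : ℂ => s ^ M) :
    (fun s : ℂ => ev (v0 + s ^ M • v).1 (G s) / ev (v0 + s ^ M • v).2 (G s) - it v0 1 y -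
      s ^ M * (xi v0 v y + wv v0 y / ev v0.2 y ^ 2 * β)) =o[𝓝 0] fun s : ℂ => s ^ M := by
  have hO : (fun s : ℂ => G s - y) =O[𝓝 0] fun s : ℂ => s ^ M := by
    have h1 : (fun s : ℂ => s ^ M * β) =O[𝓝 0] fun s : ℂ => s ^ M := by
      have h2 := (Asymptotics.isBigO_refl (fun s : ℂ => s ^ M) (𝓝 0)).const_mul_left β
      refine h2.congr_left fun s => ?_
      ring
    refine (hG.isBigO.add h1).congr_left fun s => ?_
    ring
  have hs : Tendsto (fun s : ℂ => s ^ M) (𝓝 0) (𝓝 0) := by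
    have h1 : Continuous fun s : ℂ => s ^ M := continuous_pow M
    have h2 := h1.tendsto 0
    rwa [zero_pow (by omega)] at h2
  have hGy : Tendsto G (𝓝 0) (𝓝 y) := by
    have h1 : Tendsto (fun s : ℂ => G s - y) (𝓝 0) (𝓝 0) := hO.trans_tendsto hs
    have h2 := h1.add_const y
    simpa using h2
  have hder := tr_hasDerivAt_ev v0 y hy
  have h3 : (fun s : ℂ => ev v0.1 (G s) / ev v0.2 (G s) - ev v0.1 y / ev v0.2 y -
      (G s - y) * (wv v0 y / ev v0.2 y ^ 2)) =o[𝓝 0] fun s : ℂ => s ^ M := by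
    have h4 := (hasDerivAt_iff_isLittleO.1 hder).comp_tendsto hGy
    exact h4.trans_isBigO hO
  have hA : Tendsto (fun s : ℂ => ev v.1 (G s)) (𝓝 0) (𝓝 (ev v.1 y)) :=
    ((EXPN_cont v.1).tendsto y).comp hGy
  have hB : Tendsto (fun s : ℂ => ev v.2 (G s)) (𝓝 0) (𝓝 (ev v.2 y)) :=
    ((EXPN_cont v.2).tendsto y).comp hGy
  have ha : Tendsto (fun s : ℂ => ev v0.1 (G s)) (𝓝 0) (𝓝 (ev v0.1 y)) :=
    ((EXPN_cont v0.1).tendsto y).comp hGy
  have hb : Tendsto (fun s : ℂ => ev v0.2 (G s)) (𝓝 0) (𝓝 (ev v0.2 y)) :=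
    ((EXPN_cont v0.2).tendsto y).comp hGy
  have hbt : Tendsto (fun s : ℂ => ev v0.2 (G s) + s ^ M * ev v.2 (G s)) (𝓝 0)
      (𝓝 (ev v0.2 y)) := by
    have h5 := hb.add (hs.mul hB)
    rwa [zero_mul, add_zero] at h5
  have hX : Tendsto (fun s : ℂ => (ev v.1 (G s) * ev v0.2 (G s) - ev v0.1 (G s) * ev v.2 (G s)) /
      (ev v0.2 (G s) * (ev v0.2 (G s) + s ^ M * ev v.2 (G s))) - xi v0 v y) (𝓝 0) (𝓝 0) := by
    have h5 := ((hA.mul hb).sub (ha.mul hB)).div (hb.mul hbt) (mul_ne_zero hy hy)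
    have h6 := h5.sub_const (xi v0 v y)
    have h7 : (ev v.1 y * ev v0.2 y - ev v0.1 y * ev v.2 y) / (ev v0.2 y * ev v0.2 y) -
        xi v0 v y = 0 := by
      unfold xi
      rw [pow_two, sub_self]
    rwa [h7] at h6
  have h8 : (fun s : ℂ => s ^ M * ((ev v.1 (G s) * ev v0.2 (G s) - ev v0.1 (G s) * ev v.2 (G s)) /
      (ev v0.2 (G s) * (ev v0.2 (G s) + s ^ M * ev v.2 (G s))) - xi v0 v y))
      =o[𝓝 0] fun s : ℂ => s ^ M := by
    have h9 := (Asymptotics.isBigO_refl (fun s : ℂ => s ^ M) (𝓝 0)).mul_isLittleO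
      ((Asymptotics.isLittleO_one_iff ℂ).2 hX)
    simpa using h9
  have h10 := (h8.add h3).add (hG.const_mul_left (wv v0 y / ev v0.2 y ^ 2))
  refine h10.congr' ?_ EventuallyEq.rfl
  filter_upwards [hb.eventually_ne hy, hbt.eventually_ne hy] with s hs1 hs2
  rw [EXPN_ev1, EXPN_ev2]
  change _ = (ev v0.1 (G s) + s ^ M * ev v.1 (G s)) / (ev v0.2 (G s) + s ^ M * ev v.2 (G s)) -
    ev v0.1 y / ev v0.2 y - s ^ M * (xi v0 v y + wv v0 y / ev v0.2 y ^ 2 * β)
  generalize ev v0.1 y / ev v0.2 y = q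
  generalize wv v0 y / ev v0.2 y ^ 2 = D
  generalize xi v0 v y = X
  generalize s ^ M = t at *
  generalize ev v0.1 (G s) = a at *
  generalize ev v0.2 (G s) = b at *
  generalize ev v.1 (G s) = A at *
  generalize ev v.2 (G s) = B at *
  generalize G s = g at *
  field_simp
  ring

theorem exp_n {d : ℕ} {v0 v : E d} {M : ℕ} (hM : 1 ≤ M) {x α : ℂ} {w : ℂ → ℂ} (n : ℕ)
    (hden : ∀ i < n, ev v0.2 (it v0 i x) ≠ 0)
    (hw : (fun s : ℂ => w s - x - s ^ M * α) =o[𝓝 0] fun s : ℂ => s ^ M) :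
    (fun s : ℂ => it (v0 + s ^ M • v) n (w s) - it v0 n x -
      s ^ M * (XX v0 v n x + trD v0 n x * α)) =o[𝓝 0] fun s : ℂ => s ^ M := by
  induction n with
  | zero =>
    refine hw.congr_left fun s => ?_
    have h1 : XX v0 v 0 x = 0 := rfl
    have h2 : trD v0 0 x = 1 := by simp [trD]
    rw [h1, h2]
    change _ = w s - x - _
    ring
  | succ n ih =>
    have ih' := ih fun i hi => hden i (by omega)
    have h1 := exp_one (v := v) hM (hden n (by omega)) ih'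
    refine h1.congr_left fun s => ?_
    have h2 : XX v0 v (n + 1) x = xi v0 v (it v0 n x) +
        wv v0 (it v0 n x) / ev v0.2 (it v0 n x) ^ 2 * XX v0 v n x := rfl
    have h3 : trD v0 (n + 1) x = trD v0 n x * (wv v0 (it v0 n x) / ev v0.2 (it v0 n x) ^ 2) := by
      unfold trD
      rw [Finset.prod_range_succ]
    rw [h2, h3]
    change ev (v0 + s ^ M • v).1 (it (v0 + s ^ M • v) n (w s)) /
      ev (v0 + s ^ M • v).2 (it (v0 + s ^ M • v) n (w s)) -
      ev v0.1 (it v0 n x) / ev v0.2 (it v0 n x) - _ =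
      ev (v0 + s ^ M • v).1 (it (v0 + s ^ M • v) n (w s)) /
      ev (v0 + s ^ M • v).2 (it (v0 + s ^ M • v) n (w s)) -
      ev v0.1 (it v0 n x) / ev v0.2 (it v0 n x) - _
    ring

theorem diff_n {d : ℕ} {v0 v : E d} {M : ℕ} (hM : 1 ≤ M) {w : ℂ → ℂ} (n : ℕ)
    (hden : ∀ i < n, ev v0.2 (it v0 i (w 0)) ≠ 0)
    (hw : ∀ᶠ s in 𝓝 (0 : ℂ), DifferentiableAt ℂ w s) :
    ∀ᶠ s in 𝓝 (0 : ℂ), DifferentiableAt ℂ (fun s : ℂ => it (v0 + s ^ M • v) n (w s)) s ∧
      ∀ i < n, ev (v0 + s ^ M • v).2 (it (v0 + s ^ M • v) i (w s)) ≠ 0 := by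
  induction n with
  | zero =>
    filter_upwards [hw] with s hs
    exact ⟨hs, fun i hi => absurd hi (Nat.not_lt_zero i)⟩
  | succ n ih =>
    have ih' := ih fun i hi => hden i (by omega)
    have hs : Tendsto (fun s : ℂ => s ^ M) (𝓝 0) (𝓝 0) := by
      have h1 : Continuous fun s : ℂ => s ^ M := continuous_pow M
      have h2 := h1.tendsto 0
      rwa [zero_pow (by omega)] at h2
    have hc : Tendsto (fun s : ℂ => it (v0 + s ^ M • v) n (w s)) (𝓝 0) (𝓝 (it v0 n (w 0))) := by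
      have h1 := ih'.self_of_nhds.1.continuousAt.tendsto
      have h2 : it (v0 + (0 : ℂ) ^ M • v) n (w 0) = it v0 n (w 0) := by
        rw [zero_pow (by omega), zero_smul, add_zero]
      rwa [h2] at h1
    have hb : Tendsto (fun s : ℂ => ev (v0 + s ^ M • v).2 (it (v0 + s ^ M • v) n (w s))) (𝓝 0)
        (𝓝 (ev v0.2 (it v0 n (w 0)))) := by
      have h1 := (((EXPN_cont v0.2).tendsto _).comp hc).add
        (hs.mul (((EXPN_cont v.2).tendsto _).comp hc))
      rw [zero_mul, add_zero] at h1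
      refine h1.congr fun s => ?_
      rw [EXPN_ev2]
      rfl
    filter_upwards [ih', hb.eventually_ne (hden n (by omega))] with s hs1 hs2
    refine ⟨lip_diff hs1.1 hs2, fun i hi => ?_⟩
    rcases Nat.lt_succ_iff_lt_or_eq.1 hi with h | h
    · exact hs1.2 i h
    · rw [h]
      exact hs2

end Pool.Agent.H91.CE
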