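import Pool.Agent.H35.EX.KapNe
import Pool.Agent.H79.Par.RobNull
import Pool.Agent.H80.AJ.Types

/-!
# Collet-Eckmann maps with dense basins are limits of hyperbolic maps: definitions

Notation of H79/Par, H35/EX: `v0 : E d` coefficient vector, `Rf v0` the map of the sphere, `it v0 n z` the iterates in the
plane, `trD v0 n z` their derivative, `xi v0 v z` the derivative of the map in the direction `v`, `XX v0 v n z` that of the
`n`-th iterate, `wv v0 z = a'b - ab'` (its zeros are the critical points), `kapE` the transversality functional.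
-/

set_option autoImplicit false

open Filter Topology Polynomial Metric Set

namespace Pool.Agent.H91.CE

open Pool.Agent.H44.Fatou Pool.Agent.H32.BT Pool.Agent.H79.Eul Pool.Agent.H79.Par
open Pool.Agent.H35.RL Pool.Agent.H35.EX

/-- a compact subset of the plane without poles, mapped into itself -/
structure Inv {d : ℕ} (v0 : E d) (K : Set ℂ) : Prop where
  compact : IsCompact K
  den : ∀ z ∈ K, ev v0.2 z ≠ 0
  maps : ∀ z ∈ K, it v0 1 z ∈ K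

/-- exponential growth of the derivatives along the orbit of `x` -/
def Gr {d : ℕ} (v0 : E d) (x : ℂ) : Prop :=
  ∃ c q : ℝ, 0 < c ∧ 1 < q ∧ ∀ n : ℕ, c * q ^ n ≤ ‖trD v0 n x‖

/-- the derivative of `wv (v0 + t v) c` at `t = 0` -/
noncomputable def Dw {d : ℕ} (v0 v : E d) (c : ℂ) : ℂ :=
  dev v.1 c * ev v0.2 c + dev v0.1 c * ev v.2 c - ev v.1 c * dev v0.2 c - ev v0.1 c * dev v.2 c

/-- a sequence of functions `g n`, holomorphic near `0`, the next one being controlled by the previous one as long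
as this stays within `r1` of its value at `0`; `ok n t` is a side condition; the coefficients of `t ^ M` grow
exponentially -/
structure Run (g : ℕ → ℂ → ℂ) (ok : ℕ → ℂ → Prop) (M : ℕ) (ρ0 r1 L : ℝ) : Prop where
  hρ0 : 0 < ρ0
  hρ1 : ρ0 ≤ 1
  hr1 : 0 < r1
  hL : 1 ≤ L
  hM : 1 ≤ M
  start : DifferentiableOn ℂ (g 0) (ball 0 ρ0)
  start' : ∀ t ∈ ball (0 : ℂ) ρ0, ‖g 0 t - g 0 0‖ ≤ L * ‖t‖
  step : ∀ (n : ℕ) (ρ D : ℝ), 0 < ρ → ρ ≤ ρ0 → 0 ≤ D → D ≤ r1 →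
    DifferentiableOn ℂ (g n) (ball 0 ρ) → (∀ t ∈ ball (0 : ℂ) ρ, ‖g n t - g n 0‖ ≤ D) →
      DifferentiableOn ℂ (g (n + 1)) (ball 0 ρ) ∧ (∀ t ∈ ball (0 : ℂ) ρ, ok n t) ∧
        ∀ t ∈ ball (0 : ℂ) ρ, ‖g (n + 1) t - g (n + 1) 0‖ ≤ L * (D + ρ)
  grow : ∃ c q : ℝ, 0 < c ∧ 1 < q ∧ ∃ N : ℕ, ∀ n ≥ N, ∃ a : ℂ, c * q ^ n ≤ ‖a‖ ∧
    (fun t : ℂ => g n t - g n 0 - a * t ^ M) =o[𝓝 0] fun t : ℂ => t ^ M

/-- the quadratic differential of the transversality argument vanishes almost everywhere on the set of these points: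
attracted by a cycle contained in `P` -/
def Cv (F : ℂ → ℂ) (P : Set ℂ) (x : ℂ) : Prop :=
  ∃ i n : ℕ, 0 < n ∧ ∃ w ∈ P, Tendsto (fun k : ℕ => F^[n * k + i] x) atTop (𝓝 w)

/-- at arbitrarily small scales `δ j` a fixed ball `ball ζ0 r` of the rescaled plane at `c` consists, up to area zero,
of points of `A` -/
def Fat (A : Set ℂ) (c : ℂ) : Prop :=
  ∃ (ζ0 : ℂ) (r : ℝ) (δ : ℕ → ℝ), 0 < r ∧ ball ζ0 r ⊆ ball 0 1 ∧ (∀ j, 0 < δ j) ∧
    Tendsto δ atTop (𝓝 0) ∧ ∀ j, ∀ᵐ ζ : ℂ, ζ ∈ ball ζ0 r → c + δ j * ζ ∈ A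

/-- the family of limits of the rescalings of finitely many runs -/
structure Lim {ι : Type} (g : ι → ℕ → ℂ → ℂ) (ok : ι → ℕ → ℂ → Prop) (ρ : ℕ → ℝ) (n : ι → ℕ → ℕ)
    (Ψ : ι → ℂ → ℂ) : Prop where
  pos : ∀ j, 0 < ρ j
  zero : Tendsto ρ atTop (𝓝 0)
  diff : ∀ k, DifferentiableOn ℂ (Ψ k) (ball 0 1)
  ncst : ∀ k, ¬ ∀ η ∈ ball (0 : ℂ) 1, Ψ k η = Ψ k 0
  hok : ∀ k j, ∀ i < n k j, ∀ t ∈ ball (0 : ℂ) (ρ j), ok k i t
  hdiff : ∀ k j, DifferentiableOn ℂ (g k (n k j)) (ball 0 (ρ j))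
  lim : ∀ k, ∀ η ∈ ball (0 : ℂ) 1,
    Tendsto (fun w : ℕ × ℂ => g k (n k w.1) (ρ w.1 * w.2)) (atTop ×ˢ 𝓝 η) (𝓝 (Ψ k η))

end Pool.Agent.H91.CE
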