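import Pool.Agent.H91.CE.CDefs
import Pool.Agent.H35.EX.ExpConj

/-!
# Module GRCH: exponential growth in the chordal metric and in a chart

`CEAt f x`: the Collet-Eckmann condition at `x`.
PROOF. `w0 = Lin s v0`. All iterates of `w` are finite: `orb_all` (H79/Par/PerDec) gives `(Rf w0)^[j] w = it w0 j w` and the denominators. As in `exp_conj` (H35/EX/ExpConj, `hstep`): for `u` near `w` in `ℂ`, `y = φ.symm u` is near
`x`, `chord_phi` gives `chord x y = ‖w - u‖ / (hs s w * hs s u)`, `chord (f^[n] x) (f^[n] y) = ‖it w0 n w - it w0 n u‖ / (hs s (it w0 n w) * hs s (it w0 n u))` (`iter_conj`, `rat_it`, `orb_near`). So by the limit `u → w`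
(private theorem `expConj_lim` there: copy it) `C q ^ n * (hs s (it w0 n w)) ^ 2 / (hs s w) ^ 2 ≤ ‖trD w0 n w‖`. `hs s` is continuous and positive, so bounded below by `h > 0` on the compact set `K`
(nonempty: `w = it w0 0 w ∈ K`): `Gr` with `c = C h ^ 2 / (hs s w) ^ 2`.
-/

set_option autoImplicit false

open Filter Topology Polynomial Metric Set

namespace Pool.Agent.H91.CE

open Pool.Agent.H44.Fatou Pool.Agent.H32.BT Pool.Agent.H79.Eul Pool.Agent.H79.Par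
open Pool.Agent.H35.RL Pool.Agent.H35.EX

/-- from the local expansion of `‖a - b‖ / (hs s a * hs s b)` to the derivative -/
private theorem grch_lim {s : ℂ} {F : ℂ → ℂ} {D w : ℂ} {q : ℝ} (hF : HasDerivAt F D w)
    (h : ∀ᶠ u in 𝓝 w, q * (‖w - u‖ / (hs s w * hs s u)) ≤
      ‖F w - F u‖ / (hs s (F w) * hs s (F u))) :
    q * ((hs s (F w) * hs s (F w)) / (hs s w * hs s w)) ≤ ‖D‖ := by
  have h1 : Tendsto (fun u => ‖slope F w u‖) (𝓝[≠] w) (𝓝 ‖D‖) :=
    (hasDerivAt_iff_tendsto_slope.1 hF).norm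
  have h2 : Tendsto (fun u => hs s u) (𝓝[≠] w) (𝓝 (hs s w)) :=
    ((hs_cont s).tendsto w).mono_left nhdsWithin_le_nhds
  have h3 : Tendsto (fun u => hs s (F u)) (𝓝[≠] w) (𝓝 (hs s (F w))) :=
    (((hs_cont s).tendsto (F w)).comp hF.continuousAt).mono_left nhdsWithin_le_nhds
  have h4 : Tendsto (fun u => q * ((hs s (F w) * hs s (F u)) / (hs s w * hs s u))) (𝓝[≠] w)
      (𝓝 (q * ((hs s (F w) * hs s (F w)) / (hs s w * hs s w)))) := by
    refine Tendsto.const_mul q (Tendsto.div (h3.const_mul _) (h2.const_mul _) ?_)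
    have := hs_pos s w
    positivity
  refine le_of_tendsto_of_tendsto h4 h1 ?_
  have h5 : ∀ᶠ u in 𝓝[≠] w, u ≠ w := eventually_mem_nhdsWithin
  filter_upwards [h5, h.filter_mono nhdsWithin_le_nhds] with u hu hu2
  have p1 := hs_pos s w
  have p2 := hs_pos s u
  have p3 := hs_pos s (F w)
  have p4 := hs_pos s (F u)
  have p5 : 0 < ‖w - u‖ := norm_pos_iff.2 (sub_ne_zero.2 hu.symm)
  have h6 : ‖slope F w u‖ = ‖F w - F u‖ / ‖w - u‖ := by
    rw [slope_def_field, norm_div, ← norm_neg (F u - F w), ← norm_neg (u - w), neg_sub, neg_sub]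
  rw [h6, le_div_iff₀ p5]
  rw [le_div_iff₀ (by positivity)] at hu2
  calc q * (hs s (F w) * hs s (F u) / (hs s w * hs s u)) * ‖w - u‖
      = q * (‖w - u‖ / (hs s w * hs s u)) * (hs s (F w) * hs s (F u)) := by ring
    _ ≤ ‖F w - F u‖ := hu2

/-- the Collet-Eckmann condition at the point `x`: the derivatives of `f^n` at `x` in the chordal metric grow
exponentially -/
def CEAt (f : OnePoint ℂ → OnePoint ℂ) (x : OnePoint ℂ) : Prop :=
  ∃ C q : ℝ, 0 < C ∧ 1 < q ∧ ∀ n : ℕ, ∀ᶠ y in 𝓝 x,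
    C * q ^ n * chord x y ≤ chord (f^[n] x) (f^[n] y)

theorem gr_conj {d : ℕ} {v0 : E d} {s : ℂ} {φ : OnePoint ℂ ≃ₜ OnePoint ℂ}
    (hφs : φ s = OnePoint.infty)
    (hφ : ∀ z : ℂ, z ≠ s → φ (z : OnePoint ℂ) = (((z - s)⁻¹ : ℂ) : OnePoint ℂ))
    (hφi : φ OnePoint.infty = ((0 : ℂ) : OnePoint ℂ))
    (hconj : ∀ x, Rf (Lin s v0) (φ x) = φ (Rf v0 x)) {x : OnePoint ℂ} {w : ℂ}
    (hxw : φ x = (w : OnePoint ℂ)) (hce : CEAt (Rf v0) x) {K : Set ℂ} (hK : IsCompact K)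
    (hKit : ∀ j, it (Lin s v0) j w ∈ K)
    (hfin : ∀ j, (Rf (Lin s v0))^[j] (w : OnePoint ℂ) ≠ OnePoint.infty) :
    Gr (Lin s v0) w := by
  obtain ⟨C, q, hC, hq, hex⟩ := hce
  set w0 : E d := Lin s v0 with hw0
  have hcit : ∀ (n : ℕ) (x : OnePoint ℂ), (Rf w0)^[n] (φ x) = φ ((Rf v0)^[n] x) :=
    fun n x => iter_conj φ hconj n x
  have horb := orb_all hfin
  have hder : ∀ n : ℕ, HasDerivAt (fun u => it w0 n u) (trD w0 n w) w := fun n =>
    (orb_deriv (horb.1 n)).self_of_nhds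
  have hne : K.Nonempty := ⟨_, hKit 0⟩
  obtain ⟨z1, hz1, hmin⟩ := hK.exists_isMinOn hne (hs_cont s).continuousOn
  have hp1 := hs_pos s z1
  have hpw := hs_pos s w
  refine ⟨C * (hs s z1 * hs s z1) / (hs s w * hs s w), q, by positivity, hq, fun n => ?_⟩
  have h1 : Tendsto (fun u : ℂ => φ.symm (u : OnePoint ℂ)) (𝓝 w) (𝓝 x) := by
    have h2 : φ.symm ((w : ℂ) : OnePoint ℂ) = x := by rw [← hxw, φ.symm_apply_apply]
    rw [← h2]
    exact (φ.symm.continuous.comp OnePoint.continuous_coe).tendsto w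
  have h3 : ∀ᶠ u : ℂ in 𝓝 w, ∀ j < n, ev w0.2 (it w0 j u) ≠ 0 := by
    have hc : Tendsto (fun u : ℂ => (w0, u)) (𝓝 w) (𝓝 (w0, w)) :=
      (continuous_const.prodMk continuous_id).tendsto _
    exact hc.eventually (orb_near (horb.1 n))
  have hstep : ∀ᶠ u in 𝓝 w, C * q ^ n * (‖w - u‖ / (hs s w * hs s u)) ≤
      ‖it w0 n w - it w0 n u‖ / (hs s (it w0 n w) * hs s (it w0 n u)) := by
    filter_upwards [h1.eventually (hex n), h3] with u hu1 hu3
    have e1 : φ (φ.symm (u : OnePoint ℂ)) = (u : OnePoint ℂ) := φ.apply_symm_apply _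
    have e2 : φ ((Rf v0)^[n] x) = ((it w0 n w : ℂ) : OnePoint ℂ) := by
      rw [← hcit, hxw, horb.2 n]
    have e3 : φ ((Rf v0)^[n] (φ.symm (u : OnePoint ℂ))) = ((it w0 n u : ℂ) : OnePoint ℂ) := by
      rw [← hcit, e1, rat_it hu3]
    rw [chord_phi hφs hφ hφi hxw e1, chord_phi hφs hφ hφi e2 e3] at hu1
    exact hu1
  have h4 := grch_lim (hder n) hstep
  have h5 : hs s z1 ≤ hs s (it w0 n w) := hmin (hKit n)
  have hp3 := hs_pos s (it w0 n w)
  have h6 : hs s z1 * hs s z1 ≤ hs s (it w0 n w) * hs s (it w0 n w) :=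
    mul_le_mul h5 h5 hp1.le hp3.le
  have hqn : 0 < q ^ n := by positivity
  calc C * (hs s z1 * hs s z1) / (hs s w * hs s w) * q ^ n
      = C * q ^ n * ((hs s z1 * hs s z1) / (hs s w * hs s w)) := by ring
    _ ≤ C * q ^ n * ((hs s (it w0 n w) * hs s (it w0 n w)) / (hs s w * hs s w)) := by
        apply mul_le_mul_of_nonneg_left _ (by positivity)
        exact div_le_div_of_nonneg_right h6 (by positivity)
    _ ≤ _ := h4

end Pool.Agent.H91.CE
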