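import Pool.Agent.H91.CE.CDefs

/-!
# Module POLB: the leading coefficient of a polynomial is bounded by its mean on a disc

PROOF. Write `Q ζ = ∑ l < m, a l ζ ^ l`. For `h = r / (2 m)` and `ζ ∈ ball ζ0 (r / 2)` the points `ζ + i h`, `i ≤ m - 1`, are in `ball ζ0 r`, and the `(m - 1)`-st difference is
`∑ i ≤ m - 1, (-1) ^ (m - 1 - i) * choose (m - 1) i * Q (ζ + i h) = (m - 1)! * a (m - 1) * h ^ (m - 1)` (`fwdDiff_iter_eq_factorial`, `fwdDiff_iter_eq_sum_shift` and related lemmas of Mathlib, or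
induction on `m`). Take norms and integrate over `ball ζ0 (r / 2)`; `∫⁻ ζ in ball ζ0 (r/2), ‖Q (ζ + i h)‖ₑ ≤ ∫⁻ ζ in ball ζ0 r, ‖Q ζ‖ₑ` (translation invariance,
`lintegral_add_right_eq_self` with indicators). Alternative: orthogonality of the powers of `ζ - ζ0` on discs.
-/

set_option autoImplicit false

open MeasureTheory Metric Set Filter Topology

namespace Pool.Agent.H91.CE

private theorem polb_diff (n : ℕ) (a : ℕ → ℂ) (ζ h : ℂ) (hh : h ≠ 0) :
    (n.factorial : ℂ) * (a n * h ^ n) = ∑ k ∈ Finset.range (n + 1),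
      (((-1 : ℤ) ^ (n - k) * (n.choose k : ℤ) : ℤ) : ℂ) *
        ∑ l ∈ Finset.range (n + 1), a l * (ζ + k * h) ^ l := by
  have h1 := fwdDiff_iter_eq_sum_shift (1 : ℂ)
    (fun s : ℂ => ∑ l ∈ Finset.range (n + 1), a l * (ζ + s * h) ^ l) n 0
  have h2 : (fun s : ℂ => ∑ l ∈ Finset.range (n + 1), a l * (ζ + s * h) ^ l) =
      ∑ l ∈ Finset.range (n + 1), (a l * h ^ l) • fun s : ℂ => (fun r : ℂ => r ^ l) (s + ζ / h) := by
    funext s
    rw [Finset.sum_apply]
    refine Finset.sum_congr rfl fun l _ => ?_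
    rw [Pi.smul_apply, smul_eq_mul, mul_assoc, ← mul_pow]
    congr 2
    field_simp
    ring
  have h3 : (fwdDiff (1 : ℂ))^[n]
      (fun s : ℂ => ∑ l ∈ Finset.range (n + 1), a l * (ζ + s * h) ^ l) 0 =
      (n.factorial : ℂ) * (a n * h ^ n) := by
    rw [h2, fwdDiff_iter_finsetSum, Finset.sum_apply, Finset.sum_range_succ,
      Finset.sum_eq_zero, zero_add]
    · have h4 := fwdDiff_iter_comp_add (1 : ℂ) (fun r : ℂ => r ^ n) (ζ / h) n 0
      rw [fwdDiff_iter_eq_factorial] at h4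
      rw [fwdDiff_iter_const_smul, Pi.smul_apply, h4, smul_eq_mul, mul_comm]
      rfl
    · intro l hl
      have h4 := fwdDiff_iter_comp_add (1 : ℂ) (fun r : ℂ => r ^ l) (ζ / h) n 0
      rw [fwdDiff_iter_pow_eq_zero_of_lt (Finset.mem_range.1 hl)] at h4
      rw [fwdDiff_iter_const_smul, Pi.smul_apply, h4, Pi.zero_apply, smul_zero]
  rw [← h3, h1]
  refine Finset.sum_congr rfl fun k _ => ?_
  rw [zsmul_eq_mul]
  congr 1
  refine Finset.sum_congr rfl fun l _ => ?_
  congr 3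
  rw [zero_add, nsmul_eq_mul, mul_one]

theorem poly_lead {m : ℕ} (hm : 1 ≤ m) (ζ0 : ℂ) {r : ℝ} (hr : 0 < r) :
    ∃ C : ℝ, 0 < C ∧ ∀ a : ℕ → ℂ, ENNReal.ofReal (C * ‖a (m - 1)‖) ≤
      ∫⁻ ζ in ball ζ0 r, ‖∑ l ∈ Finset.range m, a l * ζ ^ l‖ₑ := by
  obtain ⟨n, rfl⟩ : ∃ n, m = n + 1 := ⟨m - 1, by omega⟩
  set h : ℝ := r / (2 * (n + 1)) with hh
  have hh0 : 0 < h := by positivity
  have hhc : (h : ℂ) ≠ 0 := by exact_mod_cast hh0.ne'
  refine ⟨Real.pi * (r / 2) ^ 2 * (n.factorial * h ^ n) / 2 ^ n, by positivity, fun a => ?_⟩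
  rw [Nat.add_sub_cancel]
  set P : ℂ → ℂ := fun ζ => ∑ l ∈ Finset.range (n + 1), a l * ζ ^ l with hP
  have hPm : Measurable P := by
    have : Continuous P := by
      rw [hP]
      exact continuous_finsetSum _ fun l _ => continuous_const.mul (continuous_pow l)
    exact this.measurable
  have h1 : ∀ ζ : ℂ, ENNReal.ofReal (n.factorial * h ^ n * ‖a n‖) ≤
      ∑ k ∈ Finset.range (n + 1), (n.choose k : ENNReal) * ‖P (ζ + k * h)‖ₑ := by
    intro ζ
    have h2 := polb_diff n a ζ h hhc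
    have h3 : n.factorial * h ^ n * ‖a n‖ ≤
        ∑ k ∈ Finset.range (n + 1), (n.choose k : ℝ) * ‖P (ζ + k * h)‖ := by
      have h4 : n.factorial * h ^ n * ‖a n‖ = ‖(n.factorial : ℂ) * (a n * (h : ℂ) ^ n)‖ := by
        rw [norm_mul, norm_mul, norm_pow, Complex.norm_real, Real.norm_of_nonneg hh0.le,
          Complex.norm_natCast]
        ring
      rw [h4, h2]
      refine (norm_sum_le _ _).trans (Finset.sum_le_sum fun k _ => ?_)
      rw [norm_mul]
      refine mul_le_mul_of_nonneg_right ?_ (norm_nonneg _)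
      push_cast
      rw [norm_mul, norm_pow, norm_neg, norm_one, one_pow, one_mul, Complex.norm_natCast]
    refine (ENNReal.ofReal_le_ofReal h3).trans ?_
    rw [ENNReal.ofReal_sum_of_nonneg fun k _ => by positivity]
    refine Finset.sum_le_sum fun k _ => ?_
    rw [ENNReal.ofReal_mul (by positivity), ENNReal.ofReal_natCast, ofReal_norm]
  have h5 : ∀ k ∈ Finset.range (n + 1), ∫⁻ ζ in ball ζ0 (r / 2), ‖P (ζ + k * h)‖ₑ ≤
      ∫⁻ ζ in ball ζ0 r, ‖P ζ‖ₑ := by
    intro k hk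
    rw [← lintegral_indicator measurableSet_ball, ← lintegral_indicator measurableSet_ball,
      ← lintegral_add_right_eq_self ((ball ζ0 r).indicator fun ζ => ‖P ζ‖ₑ) ((k : ℂ) * h)]
    refine lintegral_mono fun ζ => ?_
    by_cases hζ : ζ ∈ ball ζ0 (r / 2)
    · have hk' : (k : ℝ) ≤ n := by
        exact_mod_cast Nat.lt_succ_iff.1 (Finset.mem_range.1 hk)
      have h6 : ζ + (k : ℂ) * h ∈ ball ζ0 r := by
        rw [mem_ball_iff_norm] at hζ ⊢
        have h7 : ‖(k : ℂ) * (h : ℂ)‖ ≤ r / 2 := by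
          rw [norm_mul, Complex.norm_natCast, Complex.norm_real, Real.norm_of_nonneg hh0.le, hh]
          rw [mul_div_assoc', div_le_div_iff₀ (by positivity) (by norm_num)]
          nlinarith
        calc ‖ζ + (k : ℂ) * h - ζ0‖ = ‖(ζ - ζ0) + (k : ℂ) * h‖ := by congr 1; ring
          _ ≤ ‖ζ - ζ0‖ + ‖(k : ℂ) * (h : ℂ)‖ := norm_add_le _ _
          _ < r := by linarith
      rw [indicator_of_mem hζ, indicator_of_mem h6]
    · rw [indicator_of_notMem hζ]
      exact bot_le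
  have h8 : ENNReal.ofReal (n.factorial * h ^ n * ‖a n‖) * volume (ball ζ0 (r / 2)) ≤
      ENNReal.ofReal (2 ^ n) * ∫⁻ ζ in ball ζ0 r, ‖P ζ‖ₑ := by
    calc ENNReal.ofReal (n.factorial * h ^ n * ‖a n‖) * volume (ball ζ0 (r / 2))
        = ∫⁻ ζ in ball ζ0 (r / 2), ENNReal.ofReal (n.factorial * h ^ n * ‖a n‖) := by
          rw [setLIntegral_const]
      _ ≤ ∫⁻ ζ in ball ζ0 (r / 2),
            ∑ k ∈ Finset.range (n + 1), (n.choose k : ENNReal) * ‖P (ζ + k * h)‖ₑ :=
          lintegral_mono fun ζ => h1 ζ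
      _ = ∑ k ∈ Finset.range (n + 1), (n.choose k : ENNReal) *
            ∫⁻ ζ in ball ζ0 (r / 2), ‖P (ζ + k * h)‖ₑ := by
          rw [lintegral_finsetSum]
          · refine Finset.sum_congr rfl fun k _ => ?_
            rw [lintegral_const_mul' _ _ (ENNReal.natCast_ne_top _)]
          · intro k _
            exact ((hPm.comp (measurable_id.add_const _)).enorm).const_mul _
      _ ≤ ∑ k ∈ Finset.range (n + 1), (n.choose k : ENNReal) * ∫⁻ ζ in ball ζ0 r, ‖P ζ‖ₑ :=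
          Finset.sum_le_sum fun k hk => mul_le_mul_right (h5 k hk) _
      _ = ENNReal.ofReal (2 ^ n) * ∫⁻ ζ in ball ζ0 r, ‖P ζ‖ₑ := by
          rw [← Finset.sum_mul]
          congr 1
          have h9 : (∑ k ∈ Finset.range (n + 1), n.choose k) = 2 ^ n := Nat.sum_range_choose n
          have h10 : ENNReal.ofReal (2 ^ n) = ((2 ^ n : ℕ) : ENNReal) := by
            rw [← ENNReal.ofReal_natCast]
            norm_cast
          rw [h10, ← h9]
          push_cast
          rfl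
  rw [Complex.volume_ball] at h8
  have hpi : ((NNReal.pi : NNReal) : ENNReal) = ENNReal.ofReal Real.pi := by
    rw [← NNReal.coe_real_pi, ENNReal.ofReal_coe_nnreal]
  rw [hpi, ← ENNReal.ofReal_pow (by positivity), ← ENNReal.ofReal_mul (by positivity),
    ← ENNReal.ofReal_mul (by positivity)] at h8
  have h11 : ENNReal.ofReal (2 ^ n) ≠ 0 := by
    rw [Ne, ENNReal.ofReal_eq_zero, not_le]
    positivity
  have h12 : ENNReal.ofReal (2 ^ n) * ENNReal.ofReal
      (Real.pi * (r / 2) ^ 2 * (n.factorial * h ^ n) / 2 ^ n * ‖a n‖) ≤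
      ENNReal.ofReal (2 ^ n) * ∫⁻ ζ in ball ζ0 r, ‖P ζ‖ₑ := by
    refine le_trans (le_of_eq ?_) h8
    rw [← ENNReal.ofReal_mul (by positivity)]
    congr 1
    field_simp
  exact (ENNReal.mul_le_mul_iff_right h11 ENNReal.ofReal_ne_top).1 h12

end Pool.Agent.H91.CE
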