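import Pool.Agent.H91.CE.TAYL

/-!
# Module SERT: the Taylor coefficient at the critical point is not zero

PROOF. `c = p 0`. `ww = a' b - a b'` (a polynomial, see H61/TT: `dg a b z = ww.eval z / b.eval z ^ 2` when `b.eval z ≠ 0`; use the name there, e.g. `ww`, or `derivative a * b - a * derivative b`),
nonzero, `ww.eval c = 0` by `crit` and `bb`. `ww = (X - C c) ^ m * η`, `η.eval c ≠ 0`, `m ≥ 1` (`exists_eq_pow_rootMultiplicity_mul_and_not_dvd`), `η.natDegree ≤ ww.natDegree ≤ 2 d`. By `ser_dg`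
(H35/EX/SerB) `p (k + 1) ≠ c`. `van` for `η`: the term `k = 0` is `η.eval c / b.eval c ^ 2 ≠ 0` (`B0`), the term `k + 1` is
`B (k + 1) * η.eval (p (k+1)) / b.eval (p (k+1)) ^ 2 = B (k+1) * dg a b (p (k+1)) / (p (k+1) - c) ^ m = B k / (p (k+1) - c) ^ m` (`hB`); `Summable.tsum_eq_zero_add` with `eta_sum` (SerB). So
`tq B (p ∘ succ) c (m - 1) = - η.eval c / b.eval c ^ 2 ≠ 0`. Summability: `‖B k‖ / ‖p (k+1) - c‖ ^ m = ‖B (k+1)‖ ‖η.eval (p (k+1))‖ / ‖b.eval (p (k+1))‖ ^ 2`, `eta_sum`.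
-/

set_option autoImplicit false

open MeasureTheory Metric Set Polynomial Filter Topology

namespace Pool.Agent.H91.CE

open Pool.Agent.H61.TT Pool.Agent.H35.EX

variable {d : ℕ} {a b : Polynomial ℂ} {p B : ℕ → ℂ}

theorem ser_tq (h : RatD d a b) (hs : Ser d a b p B) : ∃ m : ℕ, 1 ≤ m ∧ (∀ k, p (k + 1) ≠ p 0) ∧
    (Summable fun k => ‖B k‖ / ‖p (k + 1) - p 0‖ ^ m) ∧
    tq B (fun k => p (k + 1)) (p 0) (m - 1) ≠ 0 := by
  have hne : ∀ k, p (k + 1) ≠ p 0 := by
    intro k hk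
    have h1 := ser_dg hs k
    rw [hk] at h1
    exact h1 hs.crit
  have hww0 : ww a b ≠ 0 := by
    intro h0
    have h1 := (dg_ne (b_ne hs (0 + 1))).1 (ser_dg hs 0)
    rw [h0, eval_zero] at h1
    exact h1 rfl
  have hroot : (ww a b).eval (p 0) = 0 := by
    by_contra h1
    exact (dg_ne (b_ne hs 0)).2 h1 hs.crit
  have hdeg : (ww a b).natDegree ≤ 2 * d := by
    have had : a.natDegree ≤ d := by
      rw [← h.deg]
      exact le_max_left _ _
    have hbd : b.natDegree ≤ d := by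
      rw [← h.deg]
      exact le_max_right _ _
    have h1 := natDegree_derivative_le a
    have h2 := natDegree_derivative_le b
    unfold ww
    refine (natDegree_sub_le _ _).trans (max_le ?_ ?_)
    · exact natDegree_mul_le.trans (by omega)
    · exact natDegree_mul_le.trans (by omega)
  obtain ⟨η, hη, hndvd⟩ := exists_eq_pow_rootMultiplicity_mul_and_not_dvd (ww a b) hww0 (p 0)
  obtain ⟨m, hm⟩ : ∃ m, m = rootMultiplicity (p 0) (ww a b) := ⟨_, rfl⟩
  rw [← hm] at hη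
  have hm1 : 1 ≤ m := by
    rw [hm]
    exact (rootMultiplicity_pos hww0).2 hroot
  have hη0 : η.eval (p 0) ≠ 0 := fun h1 => hndvd (dvd_iff_isRoot.2 h1)
  have hηd : η.natDegree ≤ 2 * d :=
    (natDegree_le_of_dvd (Dvd.intro_left _ hη.symm) hww0).trans hdeg
  have hterm : ∀ k, B (k + 1) * (η.eval (p (k + 1)) / b.eval (p (k + 1)) ^ 2) =
      B k / (p (k + 1) - p 0) ^ m := by
    intro k
    have h1 : (ww a b).eval (p (k + 1)) = (p (k + 1) - p 0) ^ m * η.eval (p (k + 1)) := by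
      conv_lhs => rw [hη]
      rw [eval_mul, eval_pow, eval_sub, eval_X, eval_C]
    have h2 : p (k + 1) - p 0 ≠ 0 := sub_ne_zero.2 (hne k)
    have h3 := b_ne hs (k + 1)
    rw [← hs.hB k]
    unfold dg
    rw [h1]
    field_simp
  have hsum := eta_sum hs η
  have hvan := hs.van η hηd
  rw [hsum.tsum_eq_zero_add, hs.B0, one_mul] at hvan
  refine ⟨m, hm1, hne, ?_, ?_⟩
  · have h1 := ((summable_nat_add_iff 1).2 hsum).norm
    refine h1.congr fun k => ?_
    rw [hterm k, norm_div, norm_pow]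
  · have h1 : tq B (fun k => p (k + 1)) (p 0) (m - 1) =
        ∑' k, B (k + 1) * (η.eval (p (k + 1)) / b.eval (p (k + 1)) ^ 2) := by
      unfold tq
      refine tsum_congr fun k => ?_
      rw [hterm k, Nat.sub_add_cancel hm1]
    rw [h1]
    intro h2
    rw [h2, add_zero] at hvan
    exact div_ne_zero hη0 (pow_ne_zero 2 (b_ne hs 0)) hvan

end Pool.Agent.H91.CE
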