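import Pool.Agent.H91.CE.CDefs

/-!
# Module BNEAR: the basin is open up to countable sets

PROOF. `z'`, `n` from `h`. `ty1_open` / `ty2_open` (H80/AJ/Types; `Rf v0 = rat (pol v0.1) (pol v0.2)`, `rat_continuous`): for `x` near `z` in the sphere, so for
`w` near `z` in `ℂ` (`OnePoint.continuous_coe`), `CL (Rf v0) w z' n`. Let `S` be the set of the `w : ℂ` whose orbit hits `∞` or `z'`
(`pre_countable`, H79/Par/PerFin, and countable preimage under the injective coercion, as in `basin_ae`, H79/Par/RobNull). For `w ∉ S` near `z`: if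
`Ty1 (Rf v0) z z' n` then `Ty1 (Rf v0) w z' n` (the same sink); if `Ty2` then `Ty2 (Rf v0) w z' n` (`f^[n k] w ≠ z'` since `w ∉ S`).
-/

set_option autoImplicit false

open Filter Topology Polynomial Metric Set

namespace Pool.Agent.H91.CE

open Pool.Agent.H44.Fatou Pool.Agent.H32.BT Pool.Agent.H79.Eul Pool.Agent.H79.Par
open Pool.Agent.H35.RL Pool.Agent.H35.EX

theorem basin_near {d : ℕ} (hd : 2 ≤ d) {v0 : E d} (h0 : Chart0 v0) {z : ℂ} (h : Basin v0 z) :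
    ∃ U : Set ℂ, IsOpen U ∧ z ∈ U ∧ ∃ S : Set ℂ, S.Countable ∧ ∀ w ∈ U, w ∉ S → Basin v0 w := by
  obtain ⟨z', n, hty, hfin, hfin'⟩ := h
  have hdeg : 1 ≤ max (pol v0.1).natDegree (pol v0.2).natDegree := by
    rw [h0.2.1]
    omega
  have hcont : Continuous (Rf v0) := rat_continuous h0.1
  have hev : ∀ᶠ x in 𝓝 (z : OnePoint ℂ),
      Pool.Agent.H80.AJ.CL (Rf v0) x (z' : OnePoint ℂ) n := by
    rcases hty with h1 | h2
    · exact Pool.Agent.H80.AJ.ty1_open hcont h1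
    · exact Pool.Agent.H80.AJ.ty2_open h0.1 hdeg h2
  have hev' : ∀ᶠ w : ℂ in 𝓝 z,
      Pool.Agent.H80.AJ.CL (Rf v0) (w : OnePoint ℂ) (z' : OnePoint ℂ) n :=
    OnePoint.continuous_coe.continuousAt.eventually hev
  obtain ⟨U, hUsub, hUo, hzU⟩ := _root_.eventually_nhds_iff.1 hev'
  have hc1 : (((↑) : ℂ → OnePoint ℂ) ⁻¹'
      {x : OnePoint ℂ | ∃ j : ℕ, (Rf v0)^[j] x = OnePoint.infty}).Countable :=
    (pre_countable h0.1 hdeg OnePoint.infty).preimage_of_injOn OnePoint.coe_injective.injOn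
  have hc2 : (((↑) : ℂ → OnePoint ℂ) ⁻¹'
      {x : OnePoint ℂ | ∃ j : ℕ, (Rf v0)^[j] x = (z' : OnePoint ℂ)}).Countable :=
    (pre_countable h0.1 hdeg (z' : OnePoint ℂ)).preimage_of_injOn OnePoint.coe_injective.injOn
  refine ⟨U, hUo, hzU, _, hc1.union hc2, fun w hw hwS => ?_⟩
  rw [Set.mem_union, not_or] at hwS
  obtain ⟨hw1, hw2⟩ := hwS
  obtain ⟨hn, -, hlim⟩ := hUsub w hw
  refine ⟨z', n, ?_, fun j hj => hw1 ⟨j, hj⟩, hfin'⟩
  rcases hty with h1 | h2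
  · exact Or.inl ⟨h1.1, hlim⟩
  · exact Or.inr ⟨hn, h2.2.1, hlim, fun k hk => hw2 ⟨n * k, hk⟩⟩

end Pool.Agent.H91.CE
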