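import Pool.Agent.H91.CE.RUND
import Pool.Agent.H91.CE.LIMS
import Pool.Agent.H91.CE.BNEAR
import Pool.Agent.H91.CE.KLIN

/-!
# Module DYNB: the basin has discs of definite relative size near a point of exponential growth

PROOF. `lims` for the single run (`ι = Unit`) of `run_dyn` (`‖it v0 n (x + 0)‖` is bounded since `it v0 n x ∈ K`, `inv_it`, compact) gives `ρ j → 0`, `n j`, `Ψ` holomorphic and not constant on
`ball 0 1`. `Ψ '' ball 0 1` contains a nonempty open set (open mapping theorem, `AnalyticOnNhd.is_constant_or_isOpen`; `Ψ` is analytic, `DifferentiableOn.analyticOnNhd`), so there is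
`η0 ∈ ball 0 1` with `Basin v0 (Ψ η0)` (`hbd`). `U, S` from `basin_near`. By `Lim.lim` at `η0` there are `J` and `r > 0` (with `ball η0 r ⊆ ball 0 1`) such that `it v0 (n j) (x + ρ j * η) ∈ U` for
`j ≥ J`, `η ∈ ball η0 r` (`eventually_prod_iff`, `Metric`). Shift the sequences by `J`. The denominators are not zero by `Lim.hok`.
-/

set_option autoImplicit false

open Filter Topology Polynomial Metric Set

namespace Pool.Agent.H91.CE

open Pool.Agent.H44.Fatou Pool.Agent.H32.BT Pool.Agent.H79.Eul Pool.Agent.H79.Par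
open Pool.Agent.H35.RL Pool.Agent.H35.EX

theorem dyn_balls {d : ℕ} (hd : 2 ≤ d) {v0 : E d} (h0 : Chart0 v0) {K : Set ℂ} (hK : Inv v0 K)
    (hbd : Dense {z : ℂ | Basin v0 z}) {x : ℂ} (hx : x ∈ K) (hg : Gr v0 x) :
    ∃ (η0 : ℂ) (r : ℝ) (ρ : ℕ → ℝ) (n : ℕ → ℕ) (S : Set ℂ), 0 < r ∧ ball η0 r ⊆ ball 0 1 ∧
      (∀ j, 0 < ρ j) ∧ Tendsto ρ atTop (𝓝 0) ∧ S.Countable ∧
      (∀ j, ∀ y ∈ ball x (ρ j), ∀ i < n j, ev v0.2 (it v0 i y) ≠ 0) ∧
      ∀ j, ∀ η ∈ ball η0 r, it v0 (n j) (x + ρ j * η) ∉ S →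
        Basin v0 (it v0 (n j) (x + ρ j * η)) := by
  obtain ⟨C, hC⟩ := hK.compact.isBounded.exists_norm_le
  obtain ⟨ρ, n, Ψ, hL⟩ := lims (ι := Unit) (g := fun _ n y => it v0 n (x + y))
    (ok := fun _ n y => ev v0.2 (it v0 n (x + y)) ≠ 0) (M := 1) (R := C)
    (fun _ => run_dyn hK hx hg) (fun _ n => by
      rw [add_zero]
      exact hC _ (inv_it hK hx n))
  have han : AnalyticOnNhd ℂ (Ψ ()) (ball 0 1) := (hL.diff ()).analyticOnNhd isOpen_ball
  have hpre : IsPreconnected (ball (0 : ℂ) 1) := (convex_ball _ _).isPreconnected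
  rcases han.is_constant_or_isOpen hpre with ⟨w, hw⟩ | ho
  · exfalso
    refine hL.ncst () (fun η hη => ?_)
    rw [hw η hη, hw 0 (mem_ball_self one_pos)]
  have hopen := ho (ball 0 1) subset_rfl isOpen_ball
  have hne : (Ψ () '' ball 0 1).Nonempty := (nonempty_ball.2 one_pos).image _
  obtain ⟨y, ⟨η0, hη0, rfl⟩, hyB⟩ := hbd.inter_open_nonempty _ hopen hne
  obtain ⟨U, hU, hyU, S, hS, hUS⟩ := basin_near hd h0 hyB
  have hlim := hL.lim () η0 hη0
  have hev := hlim.eventually (hU.mem_nhds hyU)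
  obtain ⟨P1, hP1, P2, hP2, hP⟩ := eventually_prod_iff.1 hev
  obtain ⟨J, hJ⟩ := eventually_atTop.1 hP1
  obtain ⟨r1, hr1, hr1'⟩ := Metric.eventually_nhds_iff_ball.1 hP2
  obtain ⟨r2, hr2, hr2'⟩ := Metric.isOpen_iff.1 (isOpen_ball (x := (0 : ℂ)) (ε := 1)) η0 hη0
  refine ⟨η0, min r1 r2, fun j => ρ (j + J), fun j => n () (j + J), S, lt_min hr1 hr2,
    (ball_subset_ball (min_le_right _ _)).trans hr2', fun j => hL.pos _,
    (tendsto_add_atTop_iff_nat J).2 hL.zero, hS, ?_, ?_⟩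
  · intro j y hy i hi
    have h1 := hL.hok () (j + J) i hi (y - x) (by
      rw [mem_ball_zero_iff]
      rw [mem_ball, dist_eq_norm] at hy
      exact hy)
    have e : x + (y - x) = y := by ring
    simp only [e] at h1
    exact h1
  · intro j η hη hS'
    exact hUS _ (hP (hJ _ (Nat.le_add_left _ _))
      (hr1' _ (ball_subset_ball (min_le_left _ _) hη))) hS'

end Pool.Agent.H91.CE
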