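import Pool.Agent.H91.CE.CAU

/-!
# Module EXIT: exit times of a run

`Stay g r1 ρ n`: up to time `n` (excluded) the functions stay within `r1` of their values at `0` on `ball 0 ρ`.
PROOFS. `stay_diff`: induction with `step` (`D = r1`) and `start` (restricted to `ball 0 ρ`). `exit_time`: `n` is the
least number for which `∀ t ∈ ball 0 ρ, ‖g n t - g n 0‖ ≤ r1` fails. It exists and is at most `max N (1 + log_q (r1 / (c ρ ^ M)))`:
otherwise (`stay_diff`, `cau` applied to `t ↦ g n t - g n 0`) `c q ^ n ρ ^ M ≤ r1` for an `n ≥ N` larger than this bound.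
`1 ≤ n` by `start'` and `L * ρ ≤ r1`. The constant `C` depends on `c, q, N, M, r1` only (`1 + log (1 / ρ) ≥ 1` as `ρ ≤ ρ0 ≤ 1`).
`exit_bound`: `step` at `n - 1` with `D = r1` and `ρ ≤ r1` (from `L * ρ ≤ r1`, `1 ≤ L`).
`exit_slow`: by induction on `i ≤ τ` (from `step`): `‖g (n + i) t - g (n + i) 0‖ ≤ L ^ i * (s + i * ρ)` on `ball 0 ρ`
(`L (L ^ i (s + i ρ) + ρ) ≤ L ^ (i+1) (s + (i+1) ρ)`), and this is at most `L ^ τ * (s + τ * ρ) ≤ r1`.
-/

set_option autoImplicit false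

open Filter Topology Polynomial Metric Set

namespace Pool.Agent.H91.CE

open Pool.Agent.H44.Fatou Pool.Agent.H32.BT Pool.Agent.H79.Eul Pool.Agent.H79.Par
open Pool.Agent.H35.RL Pool.Agent.H35.EX

/-- the functions stay within `r1` of their values at `0` before time `n` -/
def Stay (g : ℕ → ℂ → ℂ) (r1 ρ : ℝ) (n : ℕ) : Prop :=
  ∀ i < n, ∀ t ∈ ball (0 : ℂ) ρ, ‖g i t - g i 0‖ ≤ r1

theorem stay_diff {g : ℕ → ℂ → ℂ} {ok : ℕ → ℂ → Prop} {M : ℕ} {ρ0 r1 L : ℝ}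
    (h : Run g ok M ρ0 r1 L) {ρ : ℝ} (hρ : 0 < ρ) (hρ0 : ρ ≤ ρ0) {n : ℕ} (hs : Stay g r1 ρ n) :
    (∀ i ≤ n, DifferentiableOn ℂ (g i) (ball 0 ρ)) ∧ ∀ i < n, ∀ t ∈ ball (0 : ℂ) ρ, ok i t := by
  have h1 : ∀ i ≤ n, DifferentiableOn ℂ (g i) (ball 0 ρ) := by
    intro i
    induction i with
    | zero =>
      intro _
      exact h.start.mono (ball_subset_ball hρ0)
    | succ i ih =>
      intro hi
      exact (h.step i ρ r1 hρ hρ0 h.hr1.le le_rfl (ih (by omega)) (hs i (by omega))).1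
  exact ⟨h1, fun i hi => (h.step i ρ r1 hρ hρ0 h.hr1.le le_rfl (h1 i hi.le) (hs i hi)).2.1⟩

theorem exit_time {g : ℕ → ℂ → ℂ} {ok : ℕ → ℂ → Prop} {M : ℕ} {ρ0 r1 L : ℝ}
    (h : Run g ok M ρ0 r1 L) : ∃ C : ℝ, 0 < C ∧ ∀ ρ : ℝ, 0 < ρ → ρ ≤ ρ0 → L * ρ ≤ r1 →
      ∃ n : ℕ, 1 ≤ n ∧ (n : ℝ) ≤ C * (1 + Real.log (1 / ρ)) ∧ Stay g r1 ρ n ∧
        ¬ ∀ t ∈ ball (0 : ℂ) ρ, ‖g n t - g n 0‖ ≤ r1 := by
  classical
  obtain ⟨c, q, hc, hq, N, hN⟩ := h.grow
  have hlq : 0 < Real.log q := Real.log_pos hq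
  have hC0 : 0 ≤ (|Real.log (r1 / c)| + M) / Real.log q := by positivity
  refine ⟨(|Real.log (r1 / c)| + M) / Real.log q + 1 + N, by positivity, ?_⟩
  intro ρ hρ hρ0 hρ1
  have hρ01 : ρ ≤ 1 := hρ0.trans h.hρ1
  have hlog : 0 ≤ Real.log (1 / ρ) := Real.log_nonneg (by rw [le_div_iff₀ hρ]; linarith)
  -- the bound for the times with small oscillation
  have key : ∀ i : ℕ, N ≤ i → Stay g r1 ρ (i + 1) →
      (i : ℝ) ≤ (|Real.log (r1 / c)| + M) / Real.log q * (1 + Real.log (1 / ρ)) := by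
    intro i hi hs
    obtain ⟨a, ha1, ha2⟩ := hN i hi
    have hd := (stay_diff h hρ hρ0 hs).1 i (by omega)
    have h1 := cau hρ (hd.sub (differentiableOn_const (g i 0))) (hs i (by omega)) ha2
    have h2 : c * q ^ i * ρ ^ M ≤ r1 := by
      refine le_trans ?_ h1
      exact mul_le_mul_of_nonneg_right ha1 (by positivity)
    have h3 : q ^ i ≤ r1 / c * (1 / ρ) ^ M := by
      rw [one_div, inv_pow, ← div_eq_mul_inv, div_div, le_div_iff₀ (by positivity)]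
      calc q ^ i * (c * ρ ^ M) = c * q ^ i * ρ ^ M := by ring
        _ ≤ r1 := h2
    have h4 : (i : ℝ) * Real.log q ≤ Real.log (r1 / c) + M * Real.log (1 / ρ) := by
      have h5 := Real.log_le_log (by positivity) h3
      rw [Real.log_pow, Real.log_mul (by have := h.hr1; positivity) (by positivity),
        Real.log_pow] at h5
      exact h5
    rw [div_mul_eq_mul_div, le_div_iff₀ hlq]
    refine h4.trans ?_
    have h5 := le_abs_self (Real.log (r1 / c))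
    have h6 : (0 : ℝ) ≤ M := Nat.cast_nonneg M
    nlinarith [mul_nonneg (abs_nonneg (Real.log (r1 / c))) hlog]
  have hex : ∃ n : ℕ, ¬ ∀ t ∈ ball (0 : ℂ) ρ, ‖g n t - g n 0‖ ≤ r1 := by
    by_contra hcon
    push Not at hcon
    obtain ⟨i, hi⟩ := exists_nat_gt ((|Real.log (r1 / c)| + M) / Real.log q *
      (1 + Real.log (1 / ρ)))
    have h1 := key (max i N) (le_max_right _ _) (fun j _ t ht => hcon j t ht)
    have h2 : (i : ℝ) ≤ ((max i N : ℕ) : ℝ) := by exact_mod_cast le_max_left i N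
    linarith
  have hP := Nat.find_spec hex
  have hmin : Stay g r1 ρ (Nat.find hex) := by
    intro i hi
    exact not_not.1 (Nat.find_min hex hi)
  have h1 : 1 ≤ Nat.find hex := by
    by_contra hlt
    have h0 : Nat.find hex = 0 := by omega
    rw [h0] at hP
    apply hP
    intro t ht
    have h2 := h.start' t (ball_subset_ball hρ0 ht)
    refine h2.trans (le_trans ?_ hρ1)
    have h3 : ‖t‖ < ρ := by simpa using ht
    exact mul_le_mul_of_nonneg_left h3.le (by have := h.hL; linarith)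
  refine ⟨Nat.find hex, h1, ?_, hmin, hP⟩
  set n := Nat.find hex with hn
  have hN0 : (0 : ℝ) ≤ N := Nat.cast_nonneg N
  rcases Nat.lt_or_ge N n with h2 | h2
  · obtain ⟨i, hi⟩ : ∃ i, n = i + 1 := ⟨n - 1, by omega⟩
    have h3 := key i (by omega) (by rw [← hi]; exact hmin)
    have h4 : (n : ℝ) = i + 1 := by rw [hi]; push_cast; ring
    rw [h4]
    nlinarith
  · have h3 : (n : ℝ) ≤ N := by exact_mod_cast h2
    nlinarith [mul_nonneg hC0 hlog, mul_nonneg hN0 hlog]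

theorem exit_bound {g : ℕ → ℂ → ℂ} {ok : ℕ → ℂ → Prop} {M : ℕ} {ρ0 r1 L : ℝ}
    (h : Run g ok M ρ0 r1 L) {ρ : ℝ} (hρ : 0 < ρ) (hρ0 : ρ ≤ ρ0) (hρ1 : L * ρ ≤ r1) {n : ℕ}
    (hn : 1 ≤ n) (hs : Stay g r1 ρ n) :
    ∀ t ∈ ball (0 : ℂ) ρ, ‖g n t - g n 0‖ ≤ 2 * L * r1 := by
  obtain ⟨m, rfl⟩ : ∃ m, n = m + 1 := ⟨n - 1, by omega⟩
  intro t ht
  have h1 := (h.step m ρ r1 hρ hρ0 h.hr1.le le_rfl
    ((stay_diff h hρ hρ0 hs).1 m (by omega)) (hs m (by omega))).2.2 t ht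
  refine h1.trans ?_
  have hL := h.hL
  have h2 : ρ ≤ r1 := by nlinarith
  nlinarith

theorem exit_slow {g : ℕ → ℂ → ℂ} {ok : ℕ → ℂ → Prop} {M : ℕ} {ρ0 r1 L : ℝ}
    (h : Run g ok M ρ0 r1 L) {ρ s : ℝ} (hρ : 0 < ρ) (hρ0 : ρ ≤ ρ0) {n τ : ℕ}
    (hs : Stay g r1 ρ n) (hs0 : 0 ≤ s) (hss : ∀ t ∈ ball (0 : ℂ) ρ, ‖g n t - g n 0‖ ≤ s)
    (hτ : L ^ τ * (s + τ * ρ) ≤ r1) : Stay g r1 ρ (n + τ + 1) := by
  have hL := h.hL
  have hle : ∀ i ≤ τ, L ^ i * (s + i * ρ) ≤ r1 := by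
    intro i hi
    refine le_trans ?_ hτ
    have h1 : L ^ i ≤ L ^ τ := pow_le_pow_right₀ hL hi
    have h2 : (i : ℝ) ≤ τ := by exact_mod_cast hi
    have h3 : s + i * ρ ≤ s + τ * ρ := by nlinarith
    have h4 : (0 : ℝ) ≤ i := Nat.cast_nonneg i
    exact mul_le_mul h1 h3 (by positivity) (by positivity)
  have key : ∀ i ≤ τ, DifferentiableOn ℂ (g (n + i)) (ball 0 ρ) ∧
      ∀ t ∈ ball (0 : ℂ) ρ, ‖g (n + i) t - g (n + i) 0‖ ≤ L ^ i * (s + i * ρ) := by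
    intro i
    induction i with
    | zero =>
      intro _
      refine ⟨(stay_diff h hρ hρ0 hs).1 n le_rfl, ?_⟩
      simpa using hss
    | succ i ih =>
      intro hi
      obtain ⟨h1, h2⟩ := ih (by omega)
      have hi0 : (0 : ℝ) ≤ i := Nat.cast_nonneg i
      obtain ⟨h3, _, h4⟩ := h.step (n + i) ρ (L ^ i * (s + i * ρ)) hρ hρ0 (by positivity)
        (hle i (by omega)) h1 h2
      refine ⟨h3, fun t ht => (h4 t ht).trans ?_⟩
      have h5 : (1 : ℝ) ≤ L ^ i := one_le_pow₀ hL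
      have h6 : ρ ≤ L ^ i * ρ := by nlinarith
      push_cast
      calc L * (L ^ i * (s + i * ρ) + ρ) ≤ L * (L ^ i * (s + i * ρ) + L ^ i * ρ) := by
            gcongr
        _ = L ^ (i + 1) * (s + (i + 1) * ρ) := by ring
  intro i hi t ht
  rcases Nat.lt_or_ge i n with h1 | h1
  · exact hs i h1 t ht
  · obtain ⟨j, rfl⟩ := Nat.exists_eq_add_of_le h1
    exact ((key j (by omega)).2 t ht).trans (hle j (by omega))

end Pool.Agent.H91.CE
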