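import Mathlib

/-!
# Module IFTC: holomorphic solution of `F (s, ζ) = 0` near a simple zero, with uniqueness

PROOF. The map `Φ (s, ζ) = (s, F (s, ζ))` is continuously differentiable at `(0, ζ0)` over `ℂ` with invertible derivative (`(a, b) ↦ (a, F_s a + F_ζ b)`, `F_ζ ≠ 0`). Inverse function theorem
(`HasStrictFDerivAt.toOpenPartialHomeomorph`, `ContDiffAt.toOpenPartialHomeomorph` over `ℂ`, `ContDiffAt.to_localInverse`): `ζ s` is the second component of the local inverse at `(s, 0)`, differentiable near `0`. Or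
`HasStrictFDerivAt.implicitFunction`; existing versions: `branch`-type lemmas in Pool/Agent/H91/Fatou/Branch.lean and H32/BT/Branch.lean. `ζ s → ζ0` by continuity, so `ζ s ∈ ball ζ0 ε` for `s` small. Uniqueness:
`Φ` is injective on a neighbourhood of `(0, ζ0)`.
-/

set_option autoImplicit false

open Filter Topology Metric Set

namespace Pool.Agent.H91.CE

theorem iftc {F : ℂ × ℂ → ℂ} {ζ0 : ℂ} (hF : ContDiff ℂ 1 F) (h0 : F (0, ζ0) = 0)
    (h1 : deriv (fun ζ : ℂ => F (0, ζ)) ζ0 ≠ 0) :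
    ∃ (ρ ε : ℝ) (ζ : ℂ → ℂ), 0 < ρ ∧ 0 < ε ∧ DifferentiableOn ℂ ζ (ball 0 ρ) ∧ ζ 0 = ζ0 ∧
      (∀ s ∈ ball (0 : ℂ) ρ, ζ s ∈ ball ζ0 ε ∧ F (s, ζ s) = 0) ∧
      ∀ s ∈ ball (0 : ℂ) ρ, ∀ z ∈ ball ζ0 ε, F (s, z) = 0 → z = ζ s := by
  classical
  have cdf : ContDiffAt ℂ 1 F (0, ζ0) := hF.contDiffAt
  have hfd : HasFDerivAt F (fderiv ℂ F (0, ζ0)) (0, ζ0) :=
    (hF.differentiable one_ne_zero).differentiableAt.hasFDerivAt
  have hder : HasDerivAt (fun ζ : ℂ => F (0, ζ)) (fderiv ℂ F (0, ζ0) (0, 1)) ζ0 := by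
    have hi : HasDerivAt (fun ζ : ℂ => ((0 : ℂ), ζ)) ((0 : ℂ), (1 : ℂ)) ζ0 :=
      (hasDerivAt_const ζ0 (0 : ℂ)).prodMk (hasDerivAt_id ζ0)
    exact hfd.comp_hasDerivAt ζ0 hi
  have hne : fderiv ℂ F (0, ζ0) (0, 1) ≠ 0 := by
    rw [← hder.deriv]
    exact h1
  have hinv : (fderiv ℂ F (0, ζ0) ∘L ContinuousLinearMap.inr ℂ ℂ ℂ).IsInvertible := by
    refine ⟨ContinuousLinearEquiv.unitsEquivAut ℂ (Units.mk0 _ hne), ?_⟩
    ext
    simp
  set ψ := cdf.implicitFunction one_ne_zero hinv with hψ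
  have hψ0 : ψ 0 = ζ0 := cdf.implicitFunction_apply_self one_ne_zero hinv
  have hev : ∀ᶠ x in 𝓝 (0 : ℂ), F (x, ψ x) = F (0, ζ0) :=
    cdf.eventually_apply_implicitFunction one_ne_zero hinv
  have huniq : ∀ᶠ v in 𝓝 ((0 : ℂ), ζ0), F v = F (0, ζ0) ↔ ψ v.1 = v.2 :=
    cdf.eventually_apply_eq_iff_implicitFunction one_ne_zero hinv
  have hcd : ContDiffAt ℂ 1 ψ (0 : ℂ) := cdf.contDiffAt_implicitFunction one_ne_zero hinv
  have hcont : Tendsto ψ (𝓝 0) (𝓝 ζ0) := by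
    have := hcd.continuousAt.tendsto
    rwa [hψ0] at this
  have hdiff : ∀ᶠ x in 𝓝 (0 : ℂ), DifferentiableAt ℂ ψ x := by
    have := hcd.eventually (by simp)
    exact this.mono fun x hx => hx.differentiableAt one_ne_zero
  obtain ⟨ε, hε, hsub⟩ := Metric.eventually_nhds_iff_ball.1 huniq
  have hball : ∀ᶠ x in 𝓝 (0 : ℂ), ψ x ∈ ball ζ0 ε := hcont (ball_mem_nhds ζ0 hε)
  obtain ⟨ρ, hρ, hρs⟩ := Metric.eventually_nhds_iff_ball.1
    (hev.and (hdiff.and hball))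
  refine ⟨min ρ ε, ε, ψ, lt_min hρ hε, hε, ?_, hψ0, ?_, ?_⟩
  · intro x hx
    exact (hρs x (ball_subset_ball (min_le_left _ _) hx)).2.1.differentiableWithinAt
  · intro x hx
    have h := hρs x (ball_subset_ball (min_le_left _ _) hx)
    exact ⟨h.2.2, by rw [h.1, h0]⟩
  · intro x hx z hz hF0
    have hmem : (x, z) ∈ ball ((0 : ℂ), ζ0) ε := by
      rw [← ball_prod_same]
      exact ⟨ball_subset_ball (min_le_right _ _) hx, hz⟩
    exact ((hsub (x, z) hmem).1 (by rw [hF0, h0])).symm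

end Pool.Agent.H91.CE
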