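import Pool.Agent.H91.CE.CDefs

/-!
# Module LIPK: one step near the compact set

PROOF. The function `(t, z) ↦ ev (v0 + t • v).2 z` on `ℂ × ℂ` is continuous (a polynomial) and nonzero on `{0} × K`, compact; so there are `r1, τ > 0` such that it is nonzero on
the compact set `{‖t‖ ≤ τ} × cthickening (2 r1) K` (or: for every `y ∈ K` a neighbourhood, finite subcover / `generalized_tube_lemma` /
`IsCompact.exists_cthickening_subset_open`). On this compact set
`F (t, z) = ev (v0 + t • v).1 z / ev (v0 + t • v).2 z` is continuously differentiable (rational) with bounded derivative; on the convex set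
`closedBall 0 τ × closedBall y r1` the mean value inequality gives `‖F (t, z) - F (0, y)‖ ≤ L ‖(t, z - y)‖ ≤ L (‖z - y‖ + ‖t‖)`, and `F (0, y) = it v0 1 y`
(`it` unfolds to `ev v0.1 y / ev v0.2 y`). More elementary: `a / b - a' / b' = (a (b' - b) + (a - a') b) / (b b')` with Lipschitz bounds for the polynomial
functions `ev (v0 + t • v).i z` on bounded sets and a lower bound `δ ≤ ‖ev (v0 + t • v).2 z‖`. `lip_diff`: composition of differentiable functions;
`fun s => ev (v0 + s ^ M • v).1 (G s)` is a polynomial in `s` and `G s` (`ev` unfolds to a finite sum).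
-/

set_option autoImplicit false

open Filter Topology Polynomial Metric Set

namespace Pool.Agent.H91.CE

open Pool.Agent.H44.Fatou Pool.Agent.H32.BT Pool.Agent.H79.Eul Pool.Agent.H79.Par
open Pool.Agent.H35.RL Pool.Agent.H35.EX

private theorem LIPK_ev {d : ℕ} (p q : Fin (d + 1) → ℂ) :
    ContDiff ℂ 1 (fun w : ℂ × ℂ => ev (p + w.1 • q) w.2) := by
  unfold ev
  refine ContDiff.sum fun i _ => ?_
  have h1 : ContDiff ℂ 1 (fun w : ℂ × ℂ => p i + w.1 * q i) :=
    contDiff_const.add (contDiff_fst.mul contDiff_const)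
  exact h1.mul (contDiff_snd.pow _)

theorem lip_K {d : ℕ} {v0 : E d} {K : Set ℂ} (hK : Inv v0 K) (v : E d) :
    ∃ r1 τ L : ℝ, 0 < r1 ∧ 0 < τ ∧ 1 ≤ L ∧ ∀ y ∈ K, ∀ z ∈ closedBall y r1, ∀ t : ℂ, ‖t‖ ≤ τ →
      ev (v0 + t • v).2 z ≠ 0 ∧
      ‖ev (v0 + t • v).1 z / ev (v0 + t • v).2 z - it v0 1 y‖ ≤ L * (‖z - y‖ + ‖t‖) := by
  refine hK.compact.induction_on (p := fun s => ∃ r1 τ L : ℝ, 0 < r1 ∧ 0 < τ ∧ 1 ≤ L ∧
    ∀ y ∈ s, ∀ z ∈ closedBall y r1, ∀ t : ℂ, ‖t‖ ≤ τ → ev (v0 + t • v).2 z ≠ 0 ∧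
      ‖ev (v0 + t • v).1 z / ev (v0 + t • v).2 z - it v0 1 y‖ ≤ L * (‖z - y‖ + ‖t‖)) ?_ ?_ ?_ ?_
  · exact ⟨1, 1, 1, one_pos, one_pos, le_rfl, fun y hy => hy.elim⟩
  · rintro s s' hss ⟨r, τ, L, h1, h2, h3, h4⟩
    exact ⟨r, τ, L, h1, h2, h3, fun y hy => h4 y (hss hy)⟩
  · rintro s s' ⟨r, τ, L, h1, h2, h3, h4⟩ ⟨r', τ', L', h1', h2', h3', h4'⟩
    refine ⟨min r r', min τ τ', max L L', lt_min h1 h1', lt_min h2 h2', le_max_of_le_left h3, ?_⟩
    rintro y (hy | hy) z hz t ht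
    · obtain ⟨a, b⟩ := h4 y hy z (closedBall_subset_closedBall (min_le_left _ _) hz) t
        (ht.trans (min_le_left _ _))
      refine ⟨a, b.trans (mul_le_mul_of_nonneg_right (le_max_left _ _) (by positivity))⟩
    · obtain ⟨a, b⟩ := h4' y hy z (closedBall_subset_closedBall (min_le_right _ _) hz) t
        (ht.trans (min_le_right _ _))
      refine ⟨a, b.trans (mul_le_mul_of_nonneg_right (le_max_right _ _) (by positivity))⟩
  · intro y hy
    have hy0 := hK.den y hy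
    have c1 := LIPK_ev v0.1 v.1
    have c2 := LIPK_ev v0.2 v.2
    have hden : ev (v0.2 + ((0 : ℂ), y).1 • v.2) ((0 : ℂ), y).2 ≠ 0 := by
      show ev (v0.2 + (0 : ℂ) • v.2) y ≠ 0
      rw [zero_smul, add_zero]
      exact hy0
    have hF : ContDiffAt ℂ 1 (fun w : ℂ × ℂ => ev (v0.1 + w.1 • v.1) w.2 /
        ev (v0.2 + w.1 • v.2) w.2) ((0 : ℂ), y) :=
      c1.contDiffAt.div c2.contDiffAt hden
    obtain ⟨C, s, hs, hC⟩ := hF.exists_lipschitzOnWith
    have hs2 : {w : ℂ × ℂ | ev (v0.2 + w.1 • v.2) w.2 ≠ 0} ∈ 𝓝 ((0 : ℂ), y) :=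
      c2.continuous.continuousAt.eventually_ne hden
    obtain ⟨ε, hε, hball⟩ := Metric.mem_nhds_iff.1 (inter_mem hs hs2)
    refine ⟨ball y (ε / 4), mem_nhdsWithin_of_mem_nhds (ball_mem_nhds y (by positivity)),
      ε / 4, ε / 4, max 1 C, by positivity, by positivity, le_max_left _ _, ?_⟩
    intro y' hy' z hz t ht
    rw [mem_ball] at hy'
    rw [mem_closedBall] at hz
    have hzy : dist z y < ε := by
      have := dist_triangle z y' y
      linarith
    have m1 : (t, z) ∈ ball ((0 : ℂ), y) ε := by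
      rw [mem_ball, Prod.dist_eq, max_lt_iff]
      refine ⟨?_, hzy⟩
      show dist t 0 < ε
      rw [dist_zero_right]
      linarith
    have m2 : ((0 : ℂ), y') ∈ ball ((0 : ℂ), y) ε := by
      rw [mem_ball, Prod.dist_eq, max_lt_iff]
      refine ⟨?_, ?_⟩
      · show dist (0 : ℂ) 0 < ε
        rw [dist_self]
        exact hε
      · show dist y' y < ε
        linarith
    refine ⟨(hball m1).2, ?_⟩
    have h5 := hC.dist_le_mul _ (hball m1).1 _ (hball m2).1
    have h6 : it v0 1 y' = ev (v0.1 + (0 : ℂ) • v.1) y' / ev (v0.2 + (0 : ℂ) • v.2) y' := by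
      rw [zero_smul, zero_smul, add_zero, add_zero]
      rfl
    rw [h6, ← dist_eq_norm]
    refine h5.trans ?_
    have h7 : dist (t, z) ((0 : ℂ), y') ≤ ‖z - y'‖ + ‖t‖ := by
      rw [Prod.dist_eq]
      show max (dist t 0) (dist z y') ≤ _
      rw [dist_zero_right, dist_eq_norm z y']
      exact max_le (le_add_of_nonneg_left (norm_nonneg _)) (le_add_of_nonneg_right (norm_nonneg _))
    calc (C : ℝ) * dist (t, z) ((0 : ℂ), y') ≤ max 1 C * (‖z - y'‖ + ‖t‖) :=
          mul_le_mul (le_max_right _ _) h7 dist_nonneg (by positivity)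

private theorem LIPK_diff {d : ℕ} (p q : Fin (d + 1) → ℂ) (M : ℕ) {G : ℂ → ℂ} {s : ℂ}
    (hG : DifferentiableAt ℂ G s) :
    DifferentiableAt ℂ (fun s : ℂ => ev (p + s ^ M • q) (G s)) s := by
  unfold ev
  refine DifferentiableAt.fun_sum fun i _ => ?_
  have h1 : DifferentiableAt ℂ (fun s : ℂ => p i + s ^ M * q i) s :=
    ((differentiableAt_id.pow M).mul_const (q i)).const_add (p i)
  exact h1.mul (hG.pow _)

theorem lip_diff {d : ℕ} {v0 v : E d} {M : ℕ} {G : ℂ → ℂ} {s : ℂ} (hG : DifferentiableAt ℂ G s)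
    (hne : ev (v0 + s ^ M • v).2 (G s) ≠ 0) : DifferentiableAt ℂ
      (fun s : ℂ => ev (v0 + s ^ M • v).1 (G s) / ev (v0 + s ^ M • v).2 (G s)) s := by
  simp only [Prod.fst_add, Prod.snd_add, Prod.smul_fst, Prod.smul_snd] at hne ⊢
  exact (LIPK_diff v0.1 v.1 M hG).div (LIPK_diff v0.2 v.2 M hG) hne

end Pool.Agent.H91.CE
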