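import Pool.Agent.H91.CE.CORE
import Pool.Agent.H91.CE.CHARTC
import Pool.Agent.H91.CE.BACK

/-!
# Collet-Eckmann maps with dense basins are limits of hyperbolic maps
-/

set_option autoImplicit false

open Filter Topology Polynomial Metric Set

namespace Pool.Agent.H91.CE

open Pool.Agent.H44.Fatou Pool.Agent.H32.BT Pool.Agent.H79.Eul Pool.Agent.H79.Par
open Pool.Agent.H35.RL Pool.Agent.H35.EX

theorem ce_main {d : ℕ} (hd : 2 ≤ d) {v0 : E d} (hcop : IsCoprime (pol v0.1) (pol v0.2))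
    (hdeg : max (pol v0.1).natDegree (pol v0.2).natDegree = d)
    (h : ∀ c, IsCrit (Rf v0) c → (∃ z n, Ty12 (Rf v0) c z n) ∨
      ∃ m : ℕ, CEAt (Rf v0) ((Rf v0)^[m] c))
    (hbd : Dense {x : OnePoint ℂ | ∃ z n, Ty12 (Rf v0) x z n}) {ε : ℝ} (hε : 0 < ε) :
    ∃ w ∈ ball v0 ε, HypDeg w := by
  obtain ⟨s, K, h0, h1, hK, hB, hc⟩ := chart_ce hd hcop hdeg h hbd
  exact hyp_back hd (s := s) (fun ε hε => ce_core hd h0 h1 hK hB hc hε) hε

end Pool.Agent.H91.CE
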