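import Pool.Agent.H91.CE.LIPK

/-!
# Module RUND: the run of the dynamical plane

PROOF. `r1, τ, L` from `lip_K hK 0` (used with `t = 0`; `v0 + 0 • 0 = v0`). `ρ0 = min 1 r1` or smaller. `it v0 n x ∈ K` for all `n` (`hK.maps`; `it v0 (n+1) x = it v0 1 (it v0 n x)`).
`start`: `it v0 0 (x + y) = x + y`. `step`: for `‖it v0 n (x + y) - it v0 n x‖ ≤ D ≤ r1` the denominator is not zero at `it v0 n (x + y)` and
`‖it v0 (n+1) (x + y) - it v0 (n+1) x‖ ≤ L D ≤ L (D + ρ)`; differentiability: quotient of polynomials composed (`lip_diff` with `v = 0` or directly).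
`grow`: `a = trD v0 n x`, `M = 1`: `tr_hasDerivAt` (H32/BT/Trap) gives the derivative of `it v0 n` at `x`; `hasDerivAt_iff_isLittleO` composed with `y ↦ x + y`.
-/

set_option autoImplicit false

open Filter Topology Polynomial Metric Set

namespace Pool.Agent.H91.CE

open Pool.Agent.H44.Fatou Pool.Agent.H32.BT Pool.Agent.H79.Eul Pool.Agent.H79.Par
open Pool.Agent.H35.RL Pool.Agent.H35.EX

theorem run_dyn {d : ℕ} {v0 : E d} {K : Set ℂ} (hK : Inv v0 K) {x : ℂ} (hx : x ∈ K)
    (hg : Gr v0 x) : ∃ ρ0 r1 L : ℝ, Run (fun n y => it v0 n (x + y))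
      (fun n y => ev v0.2 (it v0 n (x + y)) ≠ 0) 1 ρ0 r1 L := by
  obtain ⟨r1, τ, L, hr1, hτ, hL, h⟩ := lip_K hK 0
  obtain ⟨c, q, hc, hq, hcq⟩ := hg
  have hit : ∀ n, it v0 n x ∈ K := by
    intro n
    induction n with
    | zero => exact hx
    | succ n ih => exact hK.maps _ ih
  have key : ∀ y ∈ K, ∀ z ∈ closedBall y r1, ev v0.2 z ≠ 0 ∧
      ‖ev v0.1 z / ev v0.2 z - it v0 1 y‖ ≤ L * ‖z - y‖ := by
    intro y hy z hz
    have h1 := h y hy z hz 0 (by rw [norm_zero]; exact hτ.le)
    rw [smul_zero, add_zero, norm_zero, add_zero] at h1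
    exact h1
  have hev : ∀ (p : Fin (d + 1) → ℂ), Differentiable ℂ (fun z => ev p z) := by
    intro p
    unfold ev
    fun_prop
  refine ⟨1, r1, L, ⟨one_pos, le_rfl, hr1, hL, le_rfl, ?_, ?_, ?_, ?_⟩⟩
  · have h1 : (fun y : ℂ => it v0 0 (x + y)) = fun y => x + y := rfl
    show DifferentiableOn ℂ (fun y : ℂ => it v0 0 (x + y)) (ball 0 1)
    rw [h1]
    exact (differentiable_id.const_add x).differentiableOn
  · intro t _
    show ‖(x + t) - (x + 0)‖ ≤ L * ‖t‖
    rw [add_zero, add_sub_cancel_left]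
    nlinarith [norm_nonneg t]
  · intro n ρ D hρ hρ1 hD hD1 hdiff hbd
    have hcl : ∀ t ∈ ball (0 : ℂ) ρ, it v0 n (x + t) ∈ closedBall (it v0 n x) r1 := by
      intro t ht
      rw [mem_closedBall, dist_eq_norm]
      have h1 := hbd t ht
      simp only [add_zero] at h1
      exact h1.trans hD1
    have hok : ∀ t ∈ ball (0 : ℂ) ρ, ev v0.2 (it v0 n (x + t)) ≠ 0 := fun t ht =>
      (key _ (hit n) _ (hcl t ht)).1
    refine ⟨?_, hok, ?_⟩
    · have h2 : DifferentiableOn ℂ (fun y : ℂ => ev v0.1 (it v0 n (x + y)) /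
          ev v0.2 (it v0 n (x + y))) (ball 0 ρ) := by
        intro t ht
        have h3 := hdiff t ht
        exact ((hev v0.1 _).comp_differentiableWithinAt t h3).div
          ((hev v0.2 _).comp_differentiableWithinAt t h3) (hok t ht)
      exact h2
    · intro t ht
      have h1 := (key _ (hit n) _ (hcl t ht)).2
      have h2 := hbd t ht
      simp only [add_zero] at h2 ⊢
      have h3 : it v0 1 (it v0 n x) = it v0 (n + 1) x := rfl
      have h4 : ev v0.1 (it v0 n (x + t)) / ev v0.2 (it v0 n (x + t)) =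
          it v0 (n + 1) (x + t) := rfl
      rw [h3, h4] at h1
      refine h1.trans (mul_le_mul_of_nonneg_left ?_ (by linarith))
      linarith
  · refine ⟨c, q, hc, hq, 0, fun n _ => ⟨trD v0 n x, hcq n, ?_⟩⟩
    have h1 := tr_hasDerivAt v0 x n (fun i _ => hK.den _ (hit i))
    have h2 : HasDerivAt (fun y => it v0 n (x + y)) (trD v0 n x) 0 := by
      apply HasDerivAt.comp_const_add
      rw [add_zero]
      exact h1
    rw [hasDerivAt_iff_isLittleO] at h2
    refine (h2.congr' ?_ ?_)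
    · refine Eventually.of_forall fun t => ?_
      simp only [sub_zero, pow_one, smul_eq_mul]
      ring
    · refine Eventually.of_forall fun t => ?_
      simp only [sub_zero, pow_one]

end Pool.Agent.H91.CE
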