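import Pool.Agent.H91.CE.CDefs

/-!
# Module SERZ2: an invariant finite measure does not charge the attracted points

PROOF. As `inv_zero` (H35/EX/SerZ, copy): `μ = volume.withDensity ‖q‖ₑ` is a finite measure preserved by `F = gg a b`. For `μ`-almost every `x`: for all `n`, `k ↦ (F^[n])^[k] x` returns
to every neighbourhood of `x`, and `x ∉ P`. So `μ A0 = 0`, `A0 = {x | ∃ n > 0, ∃ w ∈ P, F^[n k] x → w}` (no `x ∉ P` in `A0` is recurrent). `{x | Cv F P x} = ⋃ i, F^[i] ⁻¹' A0`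
(`F^[n * k + i] x = F^[n * k] (F^[i] x)`), and `μ (F^[i] ⁻¹' A0) = 0` since `F^[i]` preserves `μ` (`MeasurePreserving.quasiMeasurePreserving`, `preimage_null`). `μ S = 0` means `q = 0` almost
everywhere on `S` (`withDensity_apply_eq_zero'`, or `ae_withDensity_iff`: `∀ᵐ x ∂μ, p x ↔ ∀ᵐ x, ‖q x‖ₑ ≠ 0 → p x`).
-/

set_option autoImplicit false

open MeasureTheory Metric Set Polynomial Filter Topology

namespace Pool.Agent.H91.CE

open Pool.Agent.H61.TT Pool.Agent.H35.EX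

variable {d : ℕ} {a b : Polynomial ℂ}

theorem inv_zeroA (h : RatD d a b) {q : ℂ → ℂ} (hq : Measurable q) (hfin : ∫⁻ x, ‖q x‖ₑ ≠ ⊤)
    (hinv : ∀ T : Set ℂ, MeasurableSet T → ∫⁻ x in pre a b T, ‖q x‖ₑ = ∫⁻ x in T, ‖q x‖ₑ)
    {P : Set ℂ} (hP : P.Countable) : ∀ᵐ x : ℂ, Cv (gg a b) P x → q x = 0 := by
  obtain ⟨μ, hμ⟩ : ∃ μ : Measure ℂ, μ = volume.withDensity (fun x => ‖q x‖ₑ) := ⟨_, rfl⟩
  have hfinμ : IsFiniteMeasure μ := by
    rw [hμ]
    exact isFiniteMeasure_withDensity hfin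
  have hac : μ ≪ volume := by
    rw [hμ]
    exact withDensity_absolutelyContinuous _ _
  have hmp : MeasurePreserving (gg a b) μ μ := by
    refine ⟨measurable_gg, ?_⟩
    ext T hT
    rw [Measure.map_apply measurable_gg hT, hμ, withDensity_apply _ (measurable_gg hT),
      withDensity_apply _ hT, ← hinv T hT]
    apply setLIntegral_congr
    have hb : ∀ᵐ y : ℂ, b.eval y ≠ 0 := by
      rw [ae_iff]
      have hfs : {y : ℂ | ¬ b.eval y ≠ 0}.Finite := by
        refine (b.roots.toFinset.finite_toSet).subset ?_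
        intro y hy
        rw [Finset.mem_coe, Multiset.mem_toFinset, mem_roots (b_ne h)]
        simpa using hy
      exact hfs.measure_zero volume
    filter_upwards [hb] with y hy
    apply propext
    constructor
    · intro h1
      exact ⟨hy, h1⟩
    · intro h1
      exact h1.2
  have hfreq : ∀ᵐ x ∂μ, ∀ n : ℕ, ∀ s ∈ 𝓝 x, ∃ᶠ k in atTop, ((gg a b)^[n])^[k] x ∈ s := by
    rw [ae_all_iff]
    intro n
    exact (hmp.iterate n).conservative.ae_frequently_mem_of_mem_nhds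
  have hPμ : ∀ᵐ x ∂μ, x ∉ P := by
    have : ∀ᵐ x : ℂ, x ∉ P := hP.ae_notMem volume
    exact hac.ae_le this
  have h0 : ∀ᵐ x ∂μ, ¬ ∃ n : ℕ, 0 < n ∧ ∃ w ∈ P,
      Tendsto (fun k : ℕ => (gg a b)^[n * k] x) atTop (𝓝 w) := by
    filter_upwards [hfreq, hPμ] with x h1 h3
    rintro ⟨n, _, w, hwP, hlim⟩
    have hne : x ≠ w := fun he => h3 (he ▸ hwP)
    obtain ⟨U, V, hU, hV, hxU, hwV, hUV⟩ := t2_separation hne
    have f1 := h1 n U (hU.mem_nhds hxU)
    have f2 : ∀ᶠ k in atTop, (gg a b)^[n * k] x ∈ V := hlim.eventually_mem (hV.mem_nhds hwV)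
    obtain ⟨k, hk1, hk2⟩ := (f1.and_eventually f2).exists
    rw [← Function.iterate_mul] at hk1
    exact Set.disjoint_left.1 hUV hk1 hk2
  have h1 : ∀ᵐ x ∂μ, ∀ i : ℕ, ¬ ∃ n : ℕ, 0 < n ∧ ∃ w ∈ P,
      Tendsto (fun k : ℕ => (gg a b)^[n * k] ((gg a b)^[i] x)) atTop (𝓝 w) := by
    rw [ae_all_iff]
    intro i
    exact (hmp.iterate i).quasiMeasurePreserving.ae h0
  have h2 : ∀ᵐ x ∂μ, ¬ Cv (gg a b) P x := by
    filter_upwards [h1] with x hx
    rintro ⟨i, n, hn, w, hwP, hlim⟩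
    refine hx i ⟨n, hn, w, hwP, ?_⟩
    refine hlim.congr fun k => ?_
    rw [Function.iterate_add_apply]
  rw [hμ, ae_withDensity_iff hq.enorm] at h2
  filter_upwards [h2] with x hx hcv
  by_contra hne
  exact hx (by simpa using hne) hcv

end Pool.Agent.H91.CE
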