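import Pool.Agent.H91.CE.SERT
import Pool.Agent.H91.CE.SERZ2
import Pool.Agent.H91.CE.POLB

/-!
# Module SERF: there is no vanishing combination if the attracted points are fat at the critical point

PROOF. `q = qs (sbe a b p B) p`: measurable, integrable, `qs_push`, `inv_mass` exactly as in `ser_false` (H35/EX/SerM). By `inv_zeroA` `q = 0` almost everywhere on `{x | Cv (gg a b) P x}`. As
`sbe 0 = 0`, `sbe (k+1) = B k` (`ser_zero`, `ser_succ`), `q x = qs B (p ∘ succ) x` (`tsum_eq_zero_add` where summable; in general `tsum` of a sequence with vanishing first term: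
`Function.Injective.tsum_eq` or `tsum_eq_tsum_of_ne_zero_bij`, no summability needed, or almost everywhere with `ae_sum`). `m` from `ser_tq`, `qs_taylor` for `β = B`, `p ∘ succ`, `c = p 0`.
`ζ0, r, δ j` from `hfat`. On `c + δ j * ball ζ0 r ⊆ ball c (δ j)` `q = 0` almost everywhere (null sets are preserved by `ζ ↦ c + δ j ζ` and its inverse), so with `t l = tq l`:
`∫⁻ ζ in ball ζ0 r, ‖∑ l < m, t l * δ j ^ l * ζ ^ l‖ₑ = (δ j)⁻² * ∫⁻ x in c + δ j ball ζ0 r, ‖q x + ∑ t l (x - c) ^ l‖ₑ ≤ (δ j)⁻² * ∫⁻ x in ball c (δ j), ‖q x + ∑ ..‖ₑ`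
(change of variables: `Measure.addHaar_preimage_smul` / `lintegral_image_eq_lintegral_abs_det_fderiv_mul` or `MeasurePreserving`-type lemmas for `x ↦ c + δ x`; e.g.
`Measure.lintegral_comp_smul`, `lintegral_add_left_eq_self`). By `poly_lead` with `a l = t l * δ j ^ l` the left side is at least `C ‖t (m-1)‖ δ j ^ (m-1)`. Divide by
`δ j ^ (m - 1)`: `C ‖t (m-1)‖ ≤ (∫⁻ ..) / δ j ^ (m + 1) → 0`. So `t (m-1) = 0`, against `ser_tq`.
-/

set_option autoImplicit false

open MeasureTheory Metric Set Polynomial Filter Topology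

namespace Pool.Agent.H91.CE

open Pool.Agent.H61.TT Pool.Agent.H35.EX

variable {d : ℕ} {a b : Polynomial ℂ} {p B : ℕ → ℂ}

private theorem serf_map (c : ℂ) {δ : ℝ} (hδ : 0 < δ) :
    Measure.map (fun ζ : ℂ => c + δ * ζ) volume =
      ENNReal.ofReal ((δ ^ 2)⁻¹) • (volume : Measure ℂ) := by
  have h1 : (fun ζ : ℂ => c + δ * ζ) = (fun x : ℂ => c + x) ∘ (fun ζ : ℂ => δ • ζ) := by
    funext ζ
    simp [Complex.real_smul]
  rw [h1, ← Measure.map_map (measurable_const_add c) (measurable_const_smul δ),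
    Measure.map_addHaar_smul volume hδ.ne', Complex.finrank_real_complex, Measure.map_smul,
    map_add_left_eq_self, abs_of_pos (by positivity)]

private theorem serf_shift (hs : Ser d a b p B) (x : ℂ) :
    qs (sbe a b p B) p x = qs B (fun k => p (k + 1)) x := by
  unfold qs
  have h1 : Function.Injective (fun k : ℕ => k + 1) := fun i j h => Nat.succ_injective h
  have h2 : Function.support (fun k => sbe a b p B k / (x - p k)) ⊆
      Set.range (fun k : ℕ => k + 1) := by
    intro k hk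
    cases k with
    | zero =>
      exfalso
      apply hk
      change sbe a b p B 0 / (x - p 0) = 0
      rw [ser_zero hs, zero_div]
    | succ k => exact ⟨k, rfl⟩
  rw [← h1.tsum_eq h2]
  refine tsum_congr fun k => ?_
  rw [ser_succ hs]

theorem ser_falseD (h : RatD d a b) (hs : Ser d a b p B) {P : Set ℂ} (hP : P.Countable)
    (hfat : Fat {x | Cv (gg a b) P x} (p 0)) : False := by
  classical
  obtain ⟨R, hR⟩ := hs.pb
  have hR0 : 0 ≤ R := (norm_nonneg _).trans (hR 0)
  have hfin := qs_fin hR0 hR (ser_sum hs) (ser_sum0 h hs) (ser_sum1 h hs)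
  have hq0 : ∀ᵐ x : ℂ, Cv (gg a b) P x → qs (sbe a b p B) p x = 0 :=
    inv_zeroA h (qs_meas _ _) hfin
      (fun T hT => inv_mass h (qs_meas _ _) hfin (qs_push h hs) hT) hP
  obtain ⟨m, hm, hne, hsm, htq⟩ := ser_tq h hs
  obtain ⟨ζ0, r, δ, hr, hsub, hδ, hδ0, hae⟩ := hfat
  obtain ⟨C, hC, hpol⟩ := poly_lead hm ζ0 hr
  have htay := qs_taylor (β := B) (p := fun k => p (k + 1)) (c := p 0) (R := R) hm hne
    (fun k => hR (k + 1)) hs.sm hsm
  obtain ⟨t, ht⟩ : ∃ t : ℕ → ℂ, t = tq B (fun k => p (k + 1)) (p 0) := ⟨_, rfl⟩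
  obtain ⟨c, hc⟩ : ∃ c : ℂ, c = p 0 := ⟨_, rfl⟩
  obtain ⟨q, hq⟩ : ∃ q : ℂ → ℂ, q = qs B (fun k => p (k + 1)) := ⟨_, rfl⟩
  have hqm : Measurable q := by
    rw [hq]
    exact qs_meas _ _
  have hqx : ∀ x, qs (sbe a b p B) p x = q x := fun x => by rw [hq, serf_shift hs]
  rw [← ht] at htq
  rw [← ht, ← hc, ← hq] at htay
  rw [← hc] at hae
  have hFm : Measurable fun x : ℂ => ‖q x + ∑ l ∈ Finset.range m, t l * (x - c) ^ l‖ₑ := by
    apply Measurable.enorm
    apply hqm.add
    apply Finset.measurable_fun_sum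
    intro l _
    exact ((measurable_id.sub_const c).pow_const l).const_mul (t l)
  have key : ∀ j, ENNReal.ofReal (C * ‖t (m - 1)‖) ≤
      (∫⁻ x in ball c (δ j), ‖q x + ∑ l ∈ Finset.range m, t l * (x - c) ^ l‖ₑ) /
        ENNReal.ofReal (δ j ^ (m + 1)) := by
    intro j
    have hd := hδ j
    obtain ⟨D, hD⟩ : ∃ D : ℝ, D = δ j := ⟨_, rfl⟩
    rw [← hD] at hd ⊢
    have hmap := serf_map c hd
    have hTm : Measurable fun ζ : ℂ => c + D * ζ := (measurable_id.const_mul (D : ℂ)).const_add c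
    have hzero : ∀ᵐ ζ : ℂ, ζ ∈ ball ζ0 r → q (c + D * ζ) = 0 := by
      have h1 : ∀ᵐ x ∂(Measure.map (fun ζ : ℂ => c + D * ζ) volume),
          Cv (gg a b) P x → q x = 0 := by
        rw [hmap]
        apply Measure.ae_smul_measure
        filter_upwards [hq0] with x hx hx2
        rw [← hqx]
        exact hx hx2
      have h2 := ae_of_ae_map hTm.aemeasurable h1
      have h3 := hae j
      rw [← hD] at h3
      filter_upwards [h2, h3] with ζ h4 h5 h6
      exact h4 (h5 h6)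
    have h1 := hpol (fun l => t l * (D : ℂ) ^ l)
    have h2 : ∫⁻ ζ in ball ζ0 r, ‖∑ l ∈ Finset.range m, t l * (D : ℂ) ^ l * ζ ^ l‖ₑ ≤
        ENNReal.ofReal ((D ^ 2)⁻¹) *
          ∫⁻ x in ball c D, ‖q x + ∑ l ∈ Finset.range m, t l * (x - c) ^ l‖ₑ := by
      calc ∫⁻ ζ in ball ζ0 r, ‖∑ l ∈ Finset.range m, t l * (D : ℂ) ^ l * ζ ^ l‖ₑ
          = ∫⁻ ζ in ball ζ0 r, ‖q (c + D * ζ) +
              ∑ l ∈ Finset.range m, t l * ((c + D * ζ) - c) ^ l‖ₑ := by
            apply lintegral_congr_ae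
            have h3 : ∀ᵐ ζ ∂(volume.restrict (ball ζ0 r)), q (c + D * ζ) = 0 := by
              rw [ae_restrict_iff' measurableSet_ball]
              exact hzero
            filter_upwards [h3] with ζ h4
            rw [h4, zero_add]
            congr 1
            refine Finset.sum_congr rfl fun l _ => ?_
            rw [add_sub_cancel_left, mul_pow, mul_assoc]
        _ ≤ ∫⁻ ζ in (fun ζ : ℂ => c + D * ζ) ⁻¹' (ball c D), ‖q (c + D * ζ) +
              ∑ l ∈ Finset.range m, t l * ((c + D * ζ) - c) ^ l‖ₑ := by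
            apply lintegral_mono_set
            intro ζ hζ
            have h5 := hsub hζ
            rw [mem_ball_zero_iff] at h5
            rw [Set.mem_preimage, mem_ball_iff_norm, add_sub_cancel_left, norm_mul,
              Complex.norm_real, Real.norm_of_nonneg hd.le]
            nlinarith
        _ = ∫⁻ x in ball c D, ‖q x + ∑ l ∈ Finset.range m, t l * (x - c) ^ l‖ₑ
              ∂(Measure.map (fun ζ : ℂ => c + D * ζ) volume) :=
            (setLIntegral_map measurableSet_ball hFm hTm).symm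
        _ = _ := by
            rw [hmap, Measure.restrict_smul, lintegral_smul_measure, smul_eq_mul]
    have h3 := h1.trans h2
    have h4 : ‖t (m - 1) * (D : ℂ) ^ (m - 1)‖ = ‖t (m - 1)‖ * D ^ (m - 1) := by
      rw [norm_mul, norm_pow, Complex.norm_real, Real.norm_of_nonneg hd.le]
    rw [h4] at h3
    have hDp : 0 < D ^ (m + 1) := by positivity
    rw [ENNReal.le_div_iff_mul_le (Or.inl (by
      rw [Ne, ENNReal.ofReal_eq_zero, not_le]
      exact hDp)) (Or.inl ENNReal.ofReal_ne_top)]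
    have h5 : ENNReal.ofReal (C * ‖t (m - 1)‖) * ENNReal.ofReal (D ^ (m + 1)) =
        ENNReal.ofReal (C * (‖t (m - 1)‖ * D ^ (m - 1))) * ENNReal.ofReal (D ^ 2) := by
      rw [← ENNReal.ofReal_mul (by positivity), ← ENNReal.ofReal_mul (by positivity)]
      congr 1
      have h6 : m + 1 = (m - 1) + 2 := by omega
      rw [h6, pow_add]
      ring
    rw [h5]
    have h7 : ENNReal.ofReal ((D ^ 2)⁻¹) * ENNReal.ofReal (D ^ 2) = 1 := by
      rw [← ENNReal.ofReal_mul (by positivity), inv_mul_cancel₀ (by positivity),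
        ENNReal.ofReal_one]
    calc ENNReal.ofReal (C * (‖t (m - 1)‖ * D ^ (m - 1))) * ENNReal.ofReal (D ^ 2)
        ≤ (ENNReal.ofReal ((D ^ 2)⁻¹) *
          ∫⁻ x in ball c D, ‖q x + ∑ l ∈ Finset.range m, t l * (x - c) ^ l‖ₑ) *
            ENNReal.ofReal (D ^ 2) := mul_le_mul_left h3 _
      _ = (ENNReal.ofReal ((D ^ 2)⁻¹) * ENNReal.ofReal (D ^ 2)) *
          ∫⁻ x in ball c D, ‖q x + ∑ l ∈ Finset.range m, t l * (x - c) ^ l‖ₑ := by ring
      _ = _ := by rw [h7, one_mul]
  have hlim : Tendsto δ atTop (𝓝[>] 0) := by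
    rw [tendsto_nhdsWithin_iff]
    exact ⟨hδ0, Filter.Eventually.of_forall fun j => hδ j⟩
  have h1 := htay.comp hlim
  have h2 : ENNReal.ofReal (C * ‖t (m - 1)‖) ≤ 0 :=
    ge_of_tendsto' h1 (fun j => key j)
  have h3 : C * ‖t (m - 1)‖ ≤ 0 := ENNReal.ofReal_eq_zero.1 (le_antisymm h2 (by simp))
  have h4 : 0 < ‖t (m - 1)‖ := norm_pos_iff.2 htq
  have h5 : 0 < C * ‖t (m - 1)‖ := mul_pos hC h4
  linarith

end Pool.Agent.H91.CE
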